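import Pool.Agent.MSTG.Defs

/-! # The gain, G12: the chain is stable under changes far outside

(problem MP_e1ab72_pr, part (G); helper50)

`chain_far`: if `F = f` in the ball of radius `10 m 0 + 1` and `Op 0 f ⊆ Op 0 F` then the chain of `f` is a chain of `F`: the components of
`p l` in `Op 0 f` and in `{f < f (v l)}` are inside of the ball of radius `10 m l`. -/

set_option autoImplicit false

namespace Pool.Agent.MSTG

open Pool.Agent.TriPerc Pool.Agent.MST Set

private theorem nadj {u v : V} (h : Adj u v) : nrm v ≤ nrm u + 1 := by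
  have h1 := nrm_adj h 0
  rw [sub_zero, sub_zero, abs_le] at h1
  omega

/-- A component inside of a ball is not changed by changes outside of the next ball. -/
theorem conn_far {S S' : Set V} {x : V} {r : ℤ} (hx : x ∈ S)
    (hr : ∀ y, Conn S x y → nrm y < r) (h : ∀ u, nrm u ≤ r → (u ∈ S' → u ∈ S)) {y : V}
    (hy : Conn S' x y) : Conn S x y := by
  obtain ⟨-, hy⟩ := hy
  induction hy with
  | refl => exact Conn.refl hx
  | @tail b c _ hbc ih =>
    have h1 := hr b ih
    have h2 := nadj hbc.1
    exact ih.trans (Conn.of_adj ih.right (h c (by omega) hbc.2) hbc.1)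

theorem chain_far {f F : Lab} {rho lo : ℤ} {x t : V} {m : ℕ → ℤ} {om : ℕ → ℝ} {k : ℕ}
    {v p z : ℕ → V} (h : Chain f rho lo x t m om k v p z) (hm : ∀ l < k, 0 ≤ m l ∧ m l ≤ m 0)
    (hF : ∀ u, nrm u ≤ 10 * m 0 + 1 → F u = f u) (hO : Op 0 f ⊆ Op 0 F) :
    Chain F rho lo x t m om k v p z := by
  have hv : ∀ l < k, F (v l) = f (v l) := fun l hl => by
    have h1 := h.nv l hl
    have h2 := hm l hl
    exact hF _ (by omega)
  have hn : ∀ l < k, ∀ u, Adj (v l) u → F u = f u := fun l hl u hu => by
    have h1 := h.nv l hl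
    have h2 := hm l hl
    have h3 := nadj hu
    exact hF _ (by omega)
  have hO' : ∀ l < k, ∀ u, nrm u ≤ 10 * m l → (u ∈ Op 0 F → u ∈ Op 0 f) := fun l hl u hu h1 => by
    have h2 := hm l hl
    have h3 : F u ≤ 0 := h1
    rw [hF u (by omega)] at h3
    exact h3
  have hc : ∀ l < k, ∀ y, Conn (Op 0 F) (p l) y → Conn (Op 0 f) (p l) y := fun l hl y hy => by
    have h2 := hm l hl
    refine conn_far (h.p0 l hl) (r := 3 * m l) (fun y hy => (h.bd l hl y hy).2)
      (fun u hu => hO' l hl u (by omega)) hy
  have hpl : ∀ l < k, p l ∈ {u | f u < f (v l)} := fun l hl => by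
    have h1 := (h.gl l hl).1
    have h2 := h.p0 l hl
    have h3 := (h.gl l hl).2
    change f (p l) < f (v l)
    linarith
  have hc' : ∀ l < k, ∀ y, Conn {u | F u < F (v l)} (p l) y →
      Conn {u | f u < f (v l)} (p l) y := fun l hl y hy => by
    have h2 := hm l hl
    refine conn_far (hpl l hl) (r := 10 * m l) (fun y hy => (h.bd' l hl y hy).2) (fun u hu h3 => ?_) hy
    have h4 : F u < F (v l) := h3
    rw [hF u (by omega), hv l hl] at h4
    exact h4
  exact
    { vp := h.vp
      vz := h.vz
      nv := h.nv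
      gl := fun l hl => by
        rw [hv l hl]
        exact h.gl l hl
      low := fun l hl u hu h1 h2 => by
        rw [hn l hl u hu, hn l hl _ (h.vp l hl), hn l hl _ (h.vz l hl)]
        exact h.low l hl u hu h1 h2
      p0 := fun l hl => by
        rw [hn l hl _ (h.vp l hl)]
        exact h.p0 l hl
      z0 := fun l hl => by
        rw [hn l hl _ (h.vz l hl)]
        exact h.z0 l hl
      pz := fun l hl => (h.pz l hl).mono hO
      px := fun hk => (h.px hk).mono hO
      tz := fun hk => (h.tz hk).mono (inter_subset_inter_left _ hO)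
      bd := fun l hl y hy => h.bd l hl y (hc l hl y hy)
      sp := fun l hl j hj hlj hy => h.sp l hl j hj hlj (hc l hl _ hy)
      sep := fun l hl hy => h.sep l hl (hc' l hl _ hy)
      bd' := fun l hl y hy => h.bd' l hl y (hc' l hl y hy) }

end Pool.Agent.MSTG
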