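import Pool.Agent.MSTG.Cut

/-! # The gain, G3: all cuts

(problem MP_e1ab72_pr, part (G); architect helper50)

PROOF of `exists_cuts`. Induction on `k`: prove the statement for the first `l` gates, for all `l ≤ k`, together with
`T j ⊆ comp (Ol O T l ∩ B) x` at the moment when the cut number `l` is made. It is convenient to prove, by induction on `l ≤ k`, the existence of
`T, v, p, z` with (for all `j < l`; write `O_j = Ol O T j`, `t_0 = t`, `t_(j+1) = p j`): `T j` finite, `⊆ comp (O ∩ B) x` (for `0 < j`: `T j` is contained in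
`comp O_j x`, all of whose vertices have norm `< 3 m 0`, so a path in `O_j` from `x` is a path in `O ∩ B`), `⊆ As Lo Up`, `⊆ Ann 0 (m j) (2 m j)`,
`T j ⊆ comp (O_j) x` if `0 < j`, `v j ∈ T j`, `Adj (v j) (p j)`, `Adj (v j) (z j)`, `Conn O_(j+1) x (p j)`, `Conn (O_(j+1) ∩ B) t_0 (z 0)`,
`Conn O_(j+1) t_j (z j)` if `0 < j`, `∀ y, Conn O_(j+1) x y → nrm y < 3 m j`.
Step: for `l = 0` apply `one_cut` with `O`, `B`, `t`. For `0 < l` apply it with `O := O_l`, `B := univ`, `t := p (l - 1)`
(`nrm (p (l-1)) ≥ m (l-1) - 1 ≥ 64 m l - 1 ≥ 4 m l`: it is a neighbour of `v (l-1)`); `Lo ⊆ O_l` because the cuts are contained in `As`, which is disjoint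
from `Lo`; `2 nrm x ≤ m l` because `m (k-1) ≤ m l`. `Ol O T (l+1) = Ol O T l \ T l`.
Final statements for `O_k`:
(a) For `j ≤ k` and `i < j`: `comp (O_j) x ⊆ {nrm < 3 m (j-1)}`, so the later cuts `T i`, `i ≥ j`, have no vertex in another component of `O_j` than the
component of `x`: if `a` is not joined to `x` in `O_j` and `Conn O_j a b` then `Conn O_k a b` (no vertex of `comp (O_j) a` is in a later cut); the same
with `∩ B`.
(b) `p l ~ z (l+1)` in `O_k`: they are joined in `O_(l+2)`, and `p l` is not joined to `x` in `O_(l+2)` because its norm is `≥ 3 m (l+1)`; (a).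
`t ~ z 0` in `O_k ∩ B` in the same way with `O_1` (`nrm t ≥ 4 m 0`). `p (k-1) ~ x`: directly.
(c) `bd`: if `p l ~ y` in `O_k` then `p l ~ y` in `O_(l+1)`, and `x ~ p l` in `O_(l+1)`.
(d) `sep`: `z l` is not joined to `x` in `O_(l+1)`: for `0 < l` it is joined to `p (l-1)` in `O_(l+1)`, whose norm is `≥ 3 m l`; for `l = 0` it is joined to
`t`. But `p l` is joined to `x` in `O_(l+1)`.
(e) `sp`: let `l < j`: `p j` is joined to `x` in `O_(j+1)`; in `O_(j+1)` the vertex `p l` is not joined to `x` (norm `≥ m l - 1 ≥ 3 m j`). -/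

set_option autoImplicit false

namespace Pool.Agent.MSTG

open Pool.Agent.TriPerc Pool.Agent.MST Set

private theorem mem_ann' {v : V} {a b : ℤ} : v ∈ Ann 0 a b ↔ a ≤ nrm v ∧ nrm v ≤ b := by
  change (a ≤ nrm (v - 0) ∧ nrm (v - 0) ≤ b) ↔ _
  rw [sub_zero]

private theorem ol_congr {O : Set V} {T T' : ℕ → Set V} {l : ℕ} (h : ∀ j < l, T j = T' j) :
    Ol O T l = Ol O T' l := by
  ext v
  change (v ∈ O ∧ ∀ j < l, v ∉ T j) ↔ (v ∈ O ∧ ∀ j < l, v ∉ T' j)
  constructor
  · rintro ⟨h1, h2⟩
    exact ⟨h1, fun j hj => h j hj ▸ h2 j hj⟩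
  · rintro ⟨h1, h2⟩
    exact ⟨h1, fun j hj => (h j hj).symm ▸ h2 j hj⟩

private theorem ol_zero {O : Set V} {T : ℕ → Set V} : Ol O T 0 = O := by
  ext v
  change (v ∈ O ∧ ∀ j < 0, v ∉ T j) ↔ v ∈ O
  exact ⟨fun h => h.1, fun h => ⟨h, fun j hj => absurd hj (Nat.not_lt_zero j)⟩⟩

private theorem ol_succ {O : Set V} {T : ℕ → Set V} {l : ℕ} :
    Ol O T (l + 1) = Ol O T l \ T l := by
  ext v
  change (v ∈ O ∧ ∀ j < l + 1, v ∉ T j) ↔ ((v ∈ O ∧ ∀ j < l, v ∉ T j) ∧ v ∉ T l)
  constructor
  · rintro ⟨h1, h2⟩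
    exact ⟨⟨h1, fun j hj => h2 j (by omega)⟩, h2 l (by omega)⟩
  · rintro ⟨⟨h1, h2⟩, h3⟩
    refine ⟨h1, fun j hj => ?_⟩
    rcases Nat.lt_succ_iff_lt_or_eq.1 hj with h4 | rfl
    · exact h2 j h4
    · exact h3

private theorem ol_anti {O : Set V} {T : ℕ → Set V} {i j : ℕ} (h : i ≤ j) :
    Ol O T j ⊆ Ol O T i := fun _ hv => ⟨hv.1, fun a ha => hv.2 a (by omega)⟩

/-- The first `l` cuts. -/
private structure Part (Lo Up O B : Set V) (x t : V) (m : ℕ → ℤ) (l : ℕ) (T : ℕ → Set V)
    (v p z : ℕ → V) : Prop where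
  fin : ∀ j < l, (T j).Finite
  sub : ∀ j < l, T j ⊆ comp (O ∩ B) x
  as : ∀ j < l, T j ⊆ As Lo Up
  ann : ∀ j < l, T j ⊆ Ann 0 (m j) (2 * m j)
  xc : ∀ j < l, 0 < j → T j ⊆ comp (Ol O T j) x
  vT : ∀ j < l, v j ∈ T j
  vp : ∀ j < l, Adj (v j) (p j)
  vz : ∀ j < l, Adj (v j) (z j)
  xp : ∀ j < l, Conn (Ol O T (j + 1)) x (p j)
  tz0 : 0 < l → Conn ((O ∩ B) \ T 0) t (z 0)
  tz : ∀ j, j + 1 < l → Conn (Ol O T (j + 2)) (p j) (z (j + 1))
  bd : ∀ j < l, ∀ y, Conn (Ol O T (j + 1)) x y → nrm y < 3 * m j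

private theorem exists_part {Lo Up O B : Set V} {x t : V} {m : ℕ → ℤ} {k : ℕ}
    (hm : ∀ l < k, 64 ≤ m l) (hmm : ∀ l, l + 1 < k → 64 * m (l + 1) ≤ m l)
    (hm0 : ∀ l < k, m l ≤ m 0)
    (hLO : Lo ⊆ O) (hOU : O ⊆ Up) (hB : 0 < k → {w : V | nrm w ≤ 4 * m 0} ⊆ B)
    (hx : ∀ l < k, 2 * nrm x ≤ m l) (ht : 0 < k → 4 * m 0 ≤ nrm t) (hxt : Conn (O ∩ B) x t)
    (hA : ∀ l < k, ¬ Arm Lo 0 (m l) (2 * m l)) :
    ∀ l ≤ k, ∃ (T : ℕ → Set V) (v p z : ℕ → V), Part Lo Up O B x t m l T v p z := by
  classical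
  intro l
  induction l with
  | zero =>
    intro _
    exact ⟨fun _ => ∅, fun _ => x, fun _ => x, fun _ => x,
      ⟨fun j hj => absurd hj (Nat.not_lt_zero j), fun j hj => absurd hj (Nat.not_lt_zero j),
      fun j hj => absurd hj (Nat.not_lt_zero j), fun j hj => absurd hj (Nat.not_lt_zero j),
      fun j hj => absurd hj (Nat.not_lt_zero j), fun j hj => absurd hj (Nat.not_lt_zero j),
      fun j hj => absurd hj (Nat.not_lt_zero j), fun j hj => absurd hj (Nat.not_lt_zero j),
      fun j hj => absurd hj (Nat.not_lt_zero j), fun hj => absurd hj (Nat.not_lt_zero 0),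
      fun j hj => absurd hj (Nat.not_lt_zero _), fun j hj => absurd hj (Nat.not_lt_zero j)⟩⟩
  | succ l ih =>
    intro hl
    obtain ⟨T, v, p, z, h⟩ := ih (by omega)
    have hlk : l < k := by omega
    have hLO' : Lo ⊆ Ol O T l := fun u hu => ⟨hLO hu, fun j hj hT => (h.as j hj hT).2.1 hu⟩
    have hOU' : Ol O T l ⊆ Up := fun u hu => hOU hu.1
    have key : ∃ (T' : Set V) (v' p' z' : V), T'.Finite ∧ T' ⊆ comp (O ∩ B) x ∧
        T' ⊆ As Lo Up ∧ T' ⊆ Ann 0 (m l) (2 * m l) ∧ (0 < l → T' ⊆ comp (Ol O T l) x) ∧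
        v' ∈ T' ∧ Adj v' p' ∧ Adj v' z' ∧ Conn (Ol O T l \ T') x p' ∧
        (l = 0 → Conn ((O ∩ B) \ T') t z') ∧
        (0 < l → Conn (Ol O T l \ T') (p (l - 1)) z') ∧
        ∀ y, Conn (Ol O T l \ T') x y → nrm y < 3 * m l := by
      rcases Nat.eq_zero_or_pos l with rfl | hl0
      · obtain ⟨T', v', p', z', h1, -, h3, h4, h5, h6, h7, h8, h9, h10, h11⟩ :=
          one_cut (hm 0 hlk) hLO hOU (hB hlk) (hx 0 hlk) (ht hlk) hxt (hA 0 hlk)
        refine ⟨T', v', p', z', h1, h5, h3, h4, fun h => absurd h (lt_irrefl 0), h6, h7, h8,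
          ?_, fun _ => h10, fun h => absurd h (lt_irrefl 0), ?_⟩
        · rw [ol_zero]
          exact h9
        · rw [ol_zero]
          exact h11
      · have e1 : l - 1 < l := by omega
        have e2 : l - 1 + 1 = l := by omega
        have hv1 := (mem_ann'.1 (h.ann (l - 1) e1 (h.vT (l - 1) e1))).1
        have hv2 := abs_le.1 (nrm_adj (h.vp (l - 1) e1) 0)
        rw [sub_zero, sub_zero] at hv2
        have hml := hmm (l - 1) (by omega)
        rw [e2] at hml
        have hm64 := hm l hlk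
        have hxp := h.xp (l - 1) e1
        rw [e2] at hxp
        obtain ⟨T', v', p', z', h1, -, h3, h4, h5, h6, h7, h8, h9, h10, h11⟩ :=
          one_cut (B := Set.univ) (t := p (l - 1)) (hm l hlk) hLO' hOU' (Set.subset_univ _)
            (hx l hlk) (by omega) (by rw [Set.inter_univ]; exact hxp) (hA l hlk)
        rw [Set.inter_univ] at h5 h10
        refine ⟨T', v', p', z', h1, ?_, h3, h4, fun _ => h5, h6, h7, h8, h9,
          fun h => absurd h (by omega), fun _ => h10, h11⟩
        intro u hu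
        have h12 : Conn (Ol O T l) x u := h5 hu
        refine (h12.in_comp.mono ?_ : Conn (O ∩ B) x u)
        intro y hy
        have h13 : Conn (Ol O T l) x y := hy
        refine ⟨h13.right.1, hB (by omega) ?_⟩
        have h14 := h.bd (l - 1) e1 y (by rw [e2]; exact h13)
        have h15 := hm0 (l - 1) (by omega)
        have h16 := hm 0 (by omega)
        change nrm y ≤ 4 * m 0
        omega
    obtain ⟨T', v', p', z', h1, h2, h3, h4, h5, h6, h7, h8, h9, h10, h11, h12⟩ := key
    have eT : ∀ j < l, Function.update T l T' j = T j := fun j hj =>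
      Function.update_of_ne (by omega) _ _
    have eTl : Function.update T l T' l = T' := Function.update_self ..
    have ev : ∀ j < l, Function.update v l v' j = v j := fun j hj =>
      Function.update_of_ne (by omega) _ _
    have evl : Function.update v l v' l = v' := Function.update_self ..
    have ep : ∀ j < l, Function.update p l p' j = p j := fun j hj =>
      Function.update_of_ne (by omega) _ _
    have epl : Function.update p l p' l = p' := Function.update_self ..
    have ez : ∀ j < l, Function.update z l z' j = z j := fun j hj =>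
      Function.update_of_ne (by omega) _ _
    have ezl : Function.update z l z' l = z' := Function.update_self ..
    have eO : ∀ j ≤ l, Ol O (Function.update T l T') j = Ol O T j := fun j hj =>
      ol_congr fun i hi => eT i (by omega)
    have eOl : Ol O (Function.update T l T') (l + 1) = Ol O T l \ T' := by
      rw [ol_succ, eO l le_rfl, eTl]
    refine ⟨Function.update T l T', Function.update v l v', Function.update p l p',
      Function.update z l z', ?_⟩
    constructor
    · intro j hj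
      rcases Nat.lt_succ_iff_lt_or_eq.1 hj with hj | rfl
      · rw [eT j hj]
        exact h.fin j hj
      · rw [eTl]
        exact h1
    · intro j hj
      rcases Nat.lt_succ_iff_lt_or_eq.1 hj with hj | rfl
      · rw [eT j hj]
        exact h.sub j hj
      · rw [eTl]
        exact h2
    · intro j hj
      rcases Nat.lt_succ_iff_lt_or_eq.1 hj with hj | rfl
      · rw [eT j hj]
        exact h.as j hj
      · rw [eTl]
        exact h3
    · intro j hj
      rcases Nat.lt_succ_iff_lt_or_eq.1 hj with hj | rfl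
      · rw [eT j hj]
        exact h.ann j hj
      · rw [eTl]
        exact h4
    · intro j hj h0
      rcases Nat.lt_succ_iff_lt_or_eq.1 hj with hj | rfl
      · rw [eT j hj, eO j hj.le]
        exact h.xc j hj h0
      · rw [eTl, eO j le_rfl]
        exact h5 h0
    · intro j hj
      rcases Nat.lt_succ_iff_lt_or_eq.1 hj with hj | rfl
      · rw [eT j hj, ev j hj]
        exact h.vT j hj
      · rw [eTl, evl]
        exact h6
    · intro j hj
      rcases Nat.lt_succ_iff_lt_or_eq.1 hj with hj | rfl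
      · rw [ev j hj, ep j hj]
        exact h.vp j hj
      · rw [evl, epl]
        exact h7
    · intro j hj
      rcases Nat.lt_succ_iff_lt_or_eq.1 hj with hj | rfl
      · rw [ev j hj, ez j hj]
        exact h.vz j hj
      · rw [evl, ezl]
        exact h8
    · intro j hj
      rcases Nat.lt_succ_iff_lt_or_eq.1 hj with hj | rfl
      · rw [eO (j + 1) hj, ep j hj]
        exact h.xp j hj
      · rw [eOl, epl]
        exact h9
    · intro _
      rcases Nat.eq_zero_or_pos l with rfl | hl0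
      · rw [eTl, ezl]
        exact h10 rfl
      · rw [eT 0 hl0, ez 0 hl0]
        exact h.tz0 hl0
    · intro j hj
      rcases Nat.lt_succ_iff_lt_or_eq.1 hj with hj | hj
      · rw [eO (j + 2) hj, ep j (by omega), ez (j + 1) hj]
        exact h.tz j hj
      · subst hj
        rw [eOl, ep j (by omega), ezl]
        have h13 := h11 (by omega)
        rwa [Nat.add_sub_cancel] at h13
    · intro j hj y hy
      rcases Nat.lt_succ_iff_lt_or_eq.1 hj with hj | rfl
      · rw [eO (j + 1) hj] at hy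
        exact h.bd j hj y hy
      · rw [eOl] at hy
        exact h12 y hy

theorem exists_cuts {Lo Up O B : Set V} {x t : V} {m : ℕ → ℤ} {k : ℕ}
    (hm : ∀ l < k, 64 ≤ m l) (hmm : ∀ l, l + 1 < k → 64 * m (l + 1) ≤ m l)
    (hLO : Lo ⊆ O) (hOU : O ⊆ Up) (hB : 0 < k → {w : V | nrm w ≤ 4 * m 0} ⊆ B)
    (hx : ∀ l < k, 2 * nrm x ≤ m l) (ht : 0 < k → 4 * m 0 ≤ nrm t) (hxt : Conn (O ∩ B) x t)
    (hA : ∀ l < k, ¬ Arm Lo 0 (m l) (2 * m l)) :
    ∃ (T : ℕ → Set V) (v p z : ℕ → V), CutSys Lo Up O B x t m k T v p z := by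
  have mono : ∀ i j, i ≤ j → j < k → m j ≤ m i := by
    intro i j hij
    induction j, hij using Nat.le_induction with
    | base => exact fun _ => le_rfl
    | succ j _ ih =>
      intro hj
      have h1 := ih (by omega)
      have h2 := hmm j hj
      have h3 := hm (j + 1) hj
      omega
  obtain ⟨T, v, p, z, h⟩ := exists_part hm hmm (fun l hl => mono 0 l (Nat.zero_le l) hl)
    hLO hOU hB hx ht hxt hA k le_rfl
  have hp : ∀ l < k, m l - 1 ≤ nrm (p l) := by
    intro l hl
    have h1 := (mem_ann'.1 (h.ann l hl (h.vT l hl))).1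
    have h2 := abs_le.1 (nrm_adj (h.vp l hl) 0)
    rw [sub_zero, sub_zero] at h2
    omega
  have far : ∀ l j, l < j → j < k → ¬ Conn (Ol O T (j + 1)) x (p l) := by
    intro l j hlj hj hcon
    have h1 := h.bd j hj _ hcon
    have h2 := hp l (by omega)
    have h3 := hmm l (by omega)
    have h4 := mono (l + 1) j hlj hj
    have h5 := hm j hj
    omega
  have farT : 0 < k → ¬ Conn (Ol O T 1) x t := by
    intro hk hcon
    have h1 := h.bd 0 hk _ hcon
    have h2 := ht hk
    have h3 := hm 0 hk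
    omega
  have sub1 : 0 < k → (O ∩ B) \ T 0 ⊆ Ol O T 1 := by
    rintro _ u ⟨⟨h1, -⟩, h3⟩
    rw [ol_succ, ol_zero]
    exact ⟨h1, h3⟩
  refine ⟨T, v, p, z, ?_⟩
  constructor
  · exact h.fin
  · exact h.sub
  · exact h.as
  · exact h.ann
  · exact h.vT
  · exact h.vp
  · exact h.vz
  · intro l hl
    have h1 := h.tz l hl
    refine h1.in_comp.mono fun u hu => ?_
    have hu' : Conn (Ol O T (l + 2)) (p l) u := hu
    refine ⟨hu'.right.1, fun i hi hT => ?_⟩
    rcases Nat.lt_or_ge i (l + 2) with h2 | h2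
    · exact hu'.right.2 i h2 hT
    · have h3 : Conn (Ol O T i) x u := h.xc i hi (by omega) hT
      exact far l (l + 1) (by omega) hl ((h3.mono (ol_anti h2)).trans hu'.symm)
  · intro hk
    have h1 := h.xp (k - 1) (by omega)
    rw [show k - 1 + 1 = k by omega] at h1
    exact h1.symm
  · intro hk
    refine (h.tz0 hk).in_comp.mono fun u hu => ?_
    have hu' : Conn ((O ∩ B) \ T 0) t u := hu
    refine ⟨⟨hu'.right.1.1, fun i hi hT => ?_⟩, hu'.right.1.2⟩
    rcases Nat.eq_zero_or_pos i with rfl | h2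
    · exact hu'.right.2 hT
    · have h3 : Conn (Ol O T i) x u := h.xc i hi h2 hT
      exact farT hk ((h3.mono (ol_anti h2)).trans (hu'.mono (sub1 hk)).symm)
  · intro l hl y hy
    exact h.bd l hl y ((h.xp l hl).trans (hy.mono (ol_anti hl)))
  · intro l hl hcon
    have h1 := (h.xp l hl).trans (hcon.mono (ol_anti hl))
    rcases Nat.eq_zero_or_pos l with rfl | h2
    · exact farT hl (h1.trans ((h.tz0 hl).mono (sub1 hl)).symm)
    · have h3 := h.tz (l - 1) (by omega)
      rw [show l - 1 + 2 = l + 1 by omega, show l - 1 + 1 = l by omega] at h3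
      exact far (l - 1) l (by omega) hl (h1.trans h3.symm)
  · intro l hl j hj hne hcon
    rcases Nat.lt_or_gt_of_ne hne with h1 | h1
    · exact far l j h1 hj ((h.xp j hj).trans (hcon.mono (ol_anti hj)).symm)
    · exact far j l h1 hl ((h.xp l hl).trans (hcon.mono (ol_anti hl)))

end Pool.Agent.MSTG
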