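import Pool.Agent.MSTG.Defs

/-! # The gain, G4: the relabelled configuration

(problem MP_e1ab72_pr, part (G); architect helper50)

PROOF of `exists_relab`. Write `Lo = Low lam f`, `Up = Upp lam f`. Definition of `κ u` (first case which applies):
`3` if `u = v l` for some `l < k`; `2` if `u ∈ T l` for some `l < k`; `1` if `u ∈ As Lo Up` and `0 < f u`; `4` if `u = p l` or `u = z l` for some `l < k`; `5` if
`u ∈ Lo` and `Adj (v l) u` for some `l < k`; `0` otherwise.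
Facts. (1) The annuli `Ann 0 (m l) (2 m l)`, enlarged by `1`, are disjoint for different `l < k` (`64 m (l+1) ≤ m l`, `64 ≤ m l`; first `64 m j ≤ m l` for
`l < j < k`), so `T l`, `T j` are disjoint, and a neighbour of `v l` is not a neighbour of `v j`. (2) `u ∈ T l` satisfies `u ∈ As`, so `u ∉ Lo`, `u ∈ Up`:
`- lam u < f u < 2 lam u`, `lam u = om l > 0`, `f u ≤ 0`. (3) `p l`, `z l` are in `Ol (Op 0 f) T k` (`Conn.left`/`Conn.right` of `px`, `pz`, `tz`), so `f ≤ 0`; if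
`2 lam u ≤ f u` for `u = p l` then `om l ≤ 0` (`lam u = om l`), impossible; so `u ∈ Up`, and by `hnb` (with `v l ∈ As`) `u ∈ Lo`. The same for every neighbour
`u` of `v l`: `u ∈ Lo` or `2 om l ≤ f u`. (4) `p l`, `z l` are not in `As` (`Lo`) and in no cut `T j`.
(a) clear. (b) class preservation for the six maps (for the class 0 maps `0 < lam u`): `Low`: `rmap (κ u) (lam u) (f u) ≤ - lam u ↔ f u ≤ - lam u`; `Upp` the same
with the disjunction. (c) for the maps `1, 2, 3` the new label is positive, `f u > 0` in the case `1` and `u ∈ T l` in the cases `2, 3`; for `4, 5` both labels are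
`≤ - lam u ≤ 0` and `u` is in no cut. (d) if `u ∈ As`, `0 < f'' u`: `κ u = 1`: `lam u < lam u + f u / 2`; `κ u = 2`: `3 om / 2 + f u / 2 > om`; `κ u = 3`: `u = v l`;
`κ u = 4, 5` impossible (`Lo`); `κ u = 0`: `f u = f'' u > 0`, so the case `1` applies, contradiction. (e), (f): linear arithmetic; in (f) the values are
`f'' (p l) ≤ -1/2 + (1/2 - om l) / 4` (also for `z l`) and for another neighbour `u ∈ Lo`: `κ u = 5` and `f'' u ≥ - om l - (1/2 - om l) / 4` (`-1/2 ≤ f u`), which is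
larger because `om l < 1/4`; for a neighbour with `2 om l ≤ f u`: `κ u = 0` or `1`, so `f'' u > 0` (`κ u = 2, 3` impossible since `f u ≤ 0` there).
(g) linear arithmetic. (h): `κ u = 2, 3`: `u` is in a cut; `κ u = 4, 5`: `u` is a neighbour of some `v l` with `f u ≤ 0`. -/

set_option autoImplicit false

namespace Pool.Agent.MSTG

open Pool.Agent.TriPerc Pool.Agent.MST Set

private theorem rm0 (l x : ℝ) : rmap 0 l x = x := by
  simp [rmap]

private theorem rm1 (l x : ℝ) : rmap 1 l x = l + x / 2 := by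
  simp [rmap]

private theorem rm2 (l x : ℝ) : rmap 2 l x = 3 * l / 2 + x / 2 := by
  simp [rmap]

private theorem rm3 (l x : ℝ) : rmap 3 l x = l / 4 + x / 8 := by
  simp [rmap]

private theorem rm4 (l x : ℝ) : rmap 4 l x = -1 / 2 + (x + 1 / 2) / 4 := by
  simp [rmap]

private theorem rm5 (l x : ℝ) : rmap 5 l x = -l + (x + l) / 4 := by
  simp [rmap]

private theorem m_le {m : ℕ → ℤ} {k : ℕ} (hm : ∀ l < k, 64 ≤ m l)
    (hmm : ∀ l, l + 1 < k → 64 * m (l + 1) ≤ m l) (l : ℕ) :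
    ∀ d, l + d + 1 < k → 64 * m (l + d + 1) ≤ m l := by
  intro d
  induction d with
  | zero => exact fun h => hmm l h
  | succ d ih =>
    intro h
    have h1 := ih (by omega)
    have h2 := hmm (l + d + 1) h
    have h3 := hm (l + d + 1 + 1) h
    have e : l + (d + 1) + 1 = l + d + 1 + 1 := by omega
    rw [e]
    omega

private theorem ann_uniq {m : ℕ → ℤ} {k : ℕ} (hm : ∀ l < k, 64 ≤ m l)
    (hmm : ∀ l, l + 1 < k → 64 * m (l + 1) ≤ m l) {l j : ℕ} (hl : l < k) (hj : j < k) {r : ℤ}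
    (h1 : m l - 1 ≤ r) (h2 : r ≤ 2 * m l + 1) (h3 : m j - 1 ≤ r) (h4 : r ≤ 2 * m j + 1) :
    l = j := by
  have a1 := hm l hl
  have a2 := hm j hj
  rcases lt_trichotomy l j with h | h | h
  · exfalso
    obtain ⟨d, rfl⟩ : ∃ d, j = l + d + 1 := ⟨j - l - 1, by omega⟩
    have := m_le hm hmm l d hj
    omega
  · exact h
  · exfalso
    obtain ⟨d, rfl⟩ : ∃ d, l = j + d + 1 := ⟨l - j - 1, by omega⟩
    have := m_le hm hmm j d hl
    omega

theorem exists_relab {lam : V → ℝ} {f : Lab} {B : Set V} {x t : V} {m : ℕ → ℤ} {om : ℕ → ℝ} {k : ℕ}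
    {T : ℕ → Set V} {v p z : ℕ → V} (hl0 : ∀ u, 0 ≤ lam u) (hl1 : ∀ u, lam u < 1 / 4)
    (hf0 : ∀ u, -1 / 2 ≤ f u) (hf1 : ∀ u, f u ≤ 1 / 2)
    (hm : ∀ l < k, 64 ≤ m l) (hmm : ∀ l, l + 1 < k → 64 * m (l + 1) ≤ m l)
    (hom : ∀ l < k, 0 < om l)
    (hlam : ∀ l < k, ∀ u, m l - 1 ≤ nrm u → nrm u ≤ 2 * m l + 1 → lam u = om l)
    (hnb : ∀ l < k, ∀ u ∈ As (Low lam f) (Upp lam f), m l ≤ nrm u → nrm u ≤ 2 * m l →
      ∀ y, Adj u y → y ∈ Upp lam f → y ∈ Low lam f)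
    (hC : CutSys (Low lam f) (Upp lam f) (Op 0 f) B x t m k T v p z) :
    ∃ κ : V → Fin 6,
      (∀ u, κ u ≠ 0 → u ∈ As (Low lam f) (Upp lam f) ∨ ∃ y ∈ As (Low lam f) (Upp lam f), Adj u y) ∧
      Low lam (relab κ lam f) = Low lam f ∧ Upp lam (relab κ lam f) = Upp lam f ∧
      Op 0 (relab κ lam f) = Ol (Op 0 f) T k ∧
      (∀ u ∈ As (Low lam f) (Upp lam f), 0 < relab κ lam f u →
        lam u < relab κ lam f u ∨ ∃ l < k, u = v l) ∧
      (∀ l < k, om l / 8 < relab κ lam f (v l) ∧ relab κ lam f (v l) ≤ om l / 4) ∧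
      (∀ l < k, ∀ u, Adj (v l) u → u ≠ p l → u ≠ z l →
        relab κ lam f (p l) < relab κ lam f u ∧ relab κ lam f (z l) < relab κ lam f u) ∧
      (∀ u, -1 / 2 ≤ relab κ lam f u ∧ relab κ lam f u ≤ 1 / 2) ∧
      (∀ u, κ u ≠ 0 → κ u ≠ 1 → (∃ l < k, u ∈ T l) ∨ ∃ l < k, Adj (v l) u ∧ f u ≤ 0) ∧
      ∀ u, κ u = 1 → 0 < f u := by
  classical
  -- the cuts
  have fT : ∀ l < k, ∀ u ∈ T l, - lam u < f u ∧ f u < 2 * lam u ∧ f u ≤ 0 ∧ lam u = om l ∧
      m l ≤ nrm u ∧ nrm u ≤ 2 * m l := by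
    intro l hl u hu
    obtain ⟨h1, h2, -⟩ := hC.as l hl hu
    have h3 : ¬ (f u ≤ - lam u) := h2
    have h4 : f u ≤ - lam u ∨ f u < 2 * lam u := h1
    have h5 : u ∈ Op 0 f ∩ B := comp_subset (hC.sub l hl hu)
    have h6 : f u ≤ 0 := h5.1
    obtain ⟨h7, h8⟩ := hC.ann l hl hu
    rw [sub_zero] at h7 h8
    exact ⟨not_le.1 h3, h4.resolve_left h3, h6, hlam l hl u (by omega) (by omega), h7, h8⟩
  -- the neighbours of the gates
  have fN : ∀ l < k, ∀ u, Adj (v l) u → lam u = om l ∧ m l - 1 ≤ nrm u ∧ nrm u ≤ 2 * m l + 1 ∧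
      (f u ≤ - lam u ∨ 2 * om l ≤ f u) := by
    intro l hl u hu
    obtain ⟨-, -, -, -, h5, h6⟩ := fT l hl _ (hC.vT l hl)
    have h7 := nrm_adj hu 0
    rw [sub_zero, sub_zero, abs_le] at h7
    have h8 : lam u = om l := hlam l hl u (by omega) (by omega)
    refine ⟨h8, by omega, by omega, ?_⟩
    by_cases h9 : f u ≤ - lam u
    · exact Or.inl h9
    · right
      by_contra h10
      apply h9
      refine hnb l hl (v l) (hC.as l hl (hC.vT l hl)) h5 h6 u hu ?_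
      right
      rw [h8]
      exact not_le.1 h10
  have fp : ∀ l < k, p l ∈ Ol (Op 0 f) T k := by
    intro l hl
    by_cases h : l + 1 < k
    · exact (hC.pz l h).left
    · have e : l = k - 1 := by omega
      rw [e]
      exact (hC.px (by omega)).left
  have fz : ∀ l < k, z l ∈ Ol (Op 0 f) T k := by
    intro l hl
    cases l with
    | zero => exact (hC.tz hl).right.1
    | succ l => exact (hC.pz l hl).right
  have fpz : ∀ l < k, ∀ u, (u = p l ∨ u = z l) → Adj (v l) u ∧ f u ≤ - lam u ∧ lam u = om l ∧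
      (∀ j < k, u ∉ T j) ∧ m l - 1 ≤ nrm u ∧ nrm u ≤ 2 * m l + 1 := by
    intro l hl u hu
    have h1 : u ∈ Ol (Op 0 f) T k := by
      rcases hu with rfl | rfl
      · exact fp l hl
      · exact fz l hl
    have h2 : Adj (v l) u := by
      rcases hu with rfl | rfl
      · exact hC.vp l hl
      · exact hC.vz l hl
    obtain ⟨h3, h4, h5, h6⟩ := fN l hl u h2
    have h7 : f u ≤ 0 := h1.1
    have h8 := hom l hl
    refine ⟨h2, h6.resolve_right ?_, h3, h1.2, h4, h5⟩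
    intro h9
    linarith
  -- the classes
  have spec : ∀ u, ∃ c : Fin 6,
      (c = 3 ∧ (∃ l < k, u = v l) ∧ (∃ l < k, u ∈ T l) ∧ - lam u < f u ∧ f u ≤ 0 ∧ 0 < lam u) ∨
      (c = 2 ∧ (¬ ∃ l < k, u = v l) ∧ (∃ l < k, u ∈ T l) ∧ - lam u < f u ∧ f u ≤ 0 ∧
        0 < lam u) ∨
      (c = 1 ∧ u ∈ As (Low lam f) (Upp lam f) ∧ - lam u < f u ∧ f u < 2 * lam u ∧ 0 < f u ∧
        ∀ l < k, u ∉ T l) ∨
      (c = 4 ∧ (∃ l < k, u = p l ∨ u = z l) ∧ f u ≤ - lam u ∧ ∀ l < k, u ∉ T l) ∨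
      (c = 5 ∧ (∃ l < k, Adj (v l) u) ∧ f u ≤ - lam u ∧ (∀ l < k, u ∉ T l) ∧
        ¬ ∃ l < k, u = p l ∨ u = z l) ∨
      (c = 0 ∧ (∀ l < k, u ∉ T l) ∧ ¬ (u ∈ As (Low lam f) (Upp lam f) ∧ 0 < f u) ∧
        (¬ ∃ l < k, u = p l ∨ u = z l) ∧ ¬ (f u ≤ - lam u ∧ ∃ l < k, Adj (v l) u)) := by
    intro u
    by_cases h2 : ∃ l < k, u ∈ T l
    · obtain ⟨l, hl, hu⟩ := id h2
      obtain ⟨a1, a2, a3, a4, -, -⟩ := fT l hl u hu
      have a5 := hom l hl
      rw [← a4] at a5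
      by_cases h3 : ∃ l < k, u = v l
      · exact ⟨3, Or.inl ⟨rfl, h3, h2, a1, a3, a5⟩⟩
      · exact ⟨2, Or.inr (Or.inl ⟨rfl, h3, h2, a1, a3, a5⟩)⟩
    · have h2' : ∀ l < k, u ∉ T l := fun l hl hu => h2 ⟨l, hl, hu⟩
      by_cases h1 : u ∈ As (Low lam f) (Upp lam f) ∧ 0 < f u
      · have b1 : ¬ (f u ≤ - lam u) := h1.1.2.1
        have b2 : f u ≤ - lam u ∨ f u < 2 * lam u := h1.1.1
        exact ⟨1, Or.inr (Or.inr (Or.inl ⟨rfl, h1.1, not_le.1 b1, b2.resolve_left b1, h1.2,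
          h2'⟩))⟩
      · by_cases h4 : ∃ l < k, u = p l ∨ u = z l
        · obtain ⟨l, hl, hu⟩ := id h4
          exact ⟨4, Or.inr (Or.inr (Or.inr (Or.inl ⟨rfl, h4, (fpz l hl u hu).2.1, h2'⟩)))⟩
        · by_cases h5 : f u ≤ - lam u ∧ ∃ l < k, Adj (v l) u
          · exact ⟨5, Or.inr (Or.inr (Or.inr (Or.inr (Or.inl ⟨rfl, h5.2, h5.1, h2', h4⟩))))⟩
          · exact ⟨0, Or.inr (Or.inr (Or.inr (Or.inr (Or.inr ⟨rfl, h2', h1, h4, h5⟩))))⟩
  choose κ hκ using spec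
  have hfl : ∀ u, relab κ lam f u = rmap (κ u) (lam u) (f u) := fun _ => rfl
  have hlow : ∀ u, relab κ lam f u ≤ - lam u ↔ f u ≤ - lam u := by
    intro u
    rw [hfl]
    have l0 := hl0 u
    have l1 := hl1 u
    rcases hκ u with ⟨e, -, -, c1, c2, c3⟩ | ⟨e, -, -, c1, c2, c3⟩ | ⟨e, -, c1, c2, c3, -⟩ |
      ⟨e, -, c1, -⟩ | ⟨e, -, c1, -⟩ | ⟨e, -⟩
    · rw [e, rm3]
      constructor <;> intro h <;> linarith
    · rw [e, rm2]
      constructor <;> intro h <;> linarith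
    · rw [e, rm1]
      constructor <;> intro h <;> linarith
    · rw [e, rm4]
      constructor <;> intro h <;> linarith
    · rw [e, rm5]
      constructor <;> intro h <;> linarith
    · rw [e, rm0]
  have hupp : ∀ u, (relab κ lam f u ≤ - lam u ∨ relab κ lam f u < 2 * lam u) ↔
      (f u ≤ - lam u ∨ f u < 2 * lam u) := by
    intro u
    rw [hlow, hfl]
    have l0 := hl0 u
    have l1 := hl1 u
    rcases hκ u with ⟨e, -, -, c1, c2, c3⟩ | ⟨e, -, -, c1, c2, c3⟩ | ⟨e, -, c1, c2, c3, -⟩ |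
      ⟨e, -, c1, -⟩ | ⟨e, -, c1, -⟩ | ⟨e, -⟩
    · rw [e, rm3]
      constructor <;> intro _ <;> right <;> linarith
    · rw [e, rm2]
      constructor <;> intro _ <;> right <;> linarith
    · rw [e, rm1]
      constructor <;> intro _ <;> right <;> linarith
    · exact ⟨fun _ => Or.inl c1, fun _ => Or.inl c1⟩
    · exact ⟨fun _ => Or.inl c1, fun _ => Or.inl c1⟩
    · rw [e, rm0]
  have pval : ∀ l < k, ∀ u, (u = p l ∨ u = z l) → κ u = 4 := by
    intro l hl u hu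
    obtain ⟨-, a2, -, a4, -, -⟩ := fpz l hl u hu
    rcases hκ u with ⟨e, -, ⟨j, hj, c0⟩, -⟩ | ⟨e, -, ⟨j, hj, c0⟩, -⟩ | ⟨e, -, c1, -⟩ |
      ⟨e, -⟩ | ⟨e, -, -, -, c0⟩ | ⟨e, -, -, c0, -⟩
    · exact absurd c0 (a4 j hj)
    · exact absurd c0 (a4 j hj)
    · exact absurd a2 (not_le.2 c1)
    · exact e
    · exact absurd ⟨l, hl, hu⟩ c0
    · exact absurd ⟨l, hl, hu⟩ c0
  refine ⟨κ, ?_, ?_, ?_, ?_, ?_, ?_, ?_, ?_, ?_, ?_⟩
  · intro u hu
    rcases hκ u with ⟨e, -, ⟨j, hj, c0⟩, -⟩ | ⟨e, -, ⟨j, hj, c0⟩, -⟩ | ⟨e, c0, -⟩ |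
      ⟨e, ⟨j, hj, c0⟩, -⟩ | ⟨e, ⟨j, hj, c0⟩, -⟩ | ⟨e, -⟩
    · exact Or.inl (hC.as j hj c0)
    · exact Or.inl (hC.as j hj c0)
    · exact Or.inl c0
    · exact Or.inr ⟨v j, hC.as j hj (hC.vT j hj), (fpz j hj u c0).1.symm⟩
    · exact Or.inr ⟨v j, hC.as j hj (hC.vT j hj), c0.symm⟩
    · exact absurd e hu
  · ext u
    exact hlow u
  · ext u
    exact hupp u
  · ext u
    change relab κ lam f u ≤ 0 ↔ f u ≤ 0 ∧ ∀ j < k, u ∉ T j
    rw [hfl]
    have l0 := hl0 u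
    have l1 := hl1 u
    rcases hκ u with ⟨e, -, ⟨j, hj, c0⟩, c1, c2, c3⟩ | ⟨e, -, ⟨j, hj, c0⟩, c1, c2, c3⟩ |
      ⟨e, -, c1, c2, c3, c4⟩ | ⟨e, -, c1, c4⟩ | ⟨e, -, c1, c4, -⟩ | ⟨e, c4, -⟩
    · rw [e, rm3]
      constructor
      · intro h
        linarith
      · intro h
        exact absurd c0 (h.2 j hj)
    · rw [e, rm2]
      constructor
      · intro h
        linarith
      · intro h
        exact absurd c0 (h.2 j hj)
    · rw [e, rm1]
      constructor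
      · intro h
        linarith
      · intro h
        linarith [h.1]
    · rw [e, rm4]
      exact ⟨fun _ => ⟨by linarith, c4⟩, fun _ => by linarith⟩
    · rw [e, rm5]
      exact ⟨fun _ => ⟨by linarith, c4⟩, fun _ => by linarith⟩
    · rw [e, rm0]
      exact ⟨fun h => ⟨h, c4⟩, fun h => h.1⟩
  · intro u hu h0
    have hu1 : ¬ (f u ≤ - lam u) := hu.2.1
    rw [hfl] at h0 ⊢
    rcases hκ u with ⟨e, c0, -⟩ | ⟨e, -, -, c1, c2, c3⟩ | ⟨e, -, c1, c2, c3, c4⟩ |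
      ⟨e, -, c1, c4⟩ | ⟨e, -, c1, c4, -⟩ | ⟨e, -, c1, -⟩
    · exact Or.inr c0
    · left
      rw [e, rm2]
      linarith
    · left
      rw [e, rm1]
      linarith
    · exact absurd c1 hu1
    · exact absurd c1 hu1
    · rw [e, rm0] at h0
      exact absurd ⟨hu, h0⟩ c1
  · intro l hl
    obtain ⟨a1, -, a3, a4, -, -⟩ := fT l hl _ (hC.vT l hl)
    rw [hfl]
    rcases hκ (v l) with ⟨e, -⟩ | ⟨e, c0, -⟩ | ⟨e, -, -, -, -, c4⟩ | ⟨e, -, -, c4⟩ |
      ⟨e, -, -, c4, -⟩ | ⟨e, c4, -⟩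
    · rw [e, rm3, a4]
      rw [a4] at a1
      constructor <;> linarith
    · exact absurd ⟨l, hl, rfl⟩ c0
    · exact absurd (hC.vT l hl) (c4 l hl)
    · exact absurd (hC.vT l hl) (c4 l hl)
    · exact absurd (hC.vT l hl) (c4 l hl)
    · exact absurd (hC.vT l hl) (c4 l hl)
  · intro l hl u hu hup huz
    have hom' := hom l hl
    have hom1 : om l < 1 / 4 := by
      rw [← (fT l hl _ (hC.vT l hl)).2.2.2.1]
      exact hl1 _
    have hval : ∀ y, (y = p l ∨ y = z l) →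
        relab κ lam f y ≤ -1 / 2 + (1 / 2 - om l) / 4 := by
      intro y hy
      obtain ⟨-, b2, b3, -⟩ := fpz l hl y hy
      rw [hfl, pval l hl y hy, rm4]
      rw [b3] at b2
      linarith
    have hmain : -1 / 2 + (1 / 2 - om l) / 4 < relab κ lam f u := by
      obtain ⟨a1, a2, a3, a4⟩ := fN l hl u hu
      have hf0u := hf0 u
      rw [hfl]
      rw [a1] at a4
      rcases hκ u with ⟨e, -, -, c1, c2, c3⟩ | ⟨e, -, -, c1, c2, c3⟩ | ⟨e, -, c1, c2, c3, -⟩ |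
        ⟨e, ⟨j, hj, c0⟩, c1, -⟩ | ⟨e, -, c1, -⟩ | ⟨e, -, -, -, c0⟩
      · rw [e, rm3]
        linarith
      · rw [e, rm2]
        linarith
      · rw [e, rm1]
        linarith
      · exfalso
        obtain ⟨-, -, -, -, d1, d2⟩ := fpz j hj u c0
        have hjl : l = j := ann_uniq hm hmm hl hj a2 a3 d1 d2
        subst hjl
        rcases c0 with c0 | c0
        · exact hup c0
        · exact huz c0
      · rw [e, rm5, a1]
        linarith
      · rw [e, rm0]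
        rcases a4 with a4 | a4
        · rw [a1] at c0
          exact absurd ⟨a4, l, hl, hu⟩ c0
        · linarith
    exact ⟨(hval _ (Or.inl rfl)).trans_lt hmain, (hval _ (Or.inr rfl)).trans_lt hmain⟩
  · intro u
    rw [hfl]
    have l0 := hl0 u
    have l1 := hl1 u
    have g0 := hf0 u
    have g1 := hf1 u
    rcases hκ u with ⟨e, -, -, c1, c2, c3⟩ | ⟨e, -, -, c1, c2, c3⟩ | ⟨e, -, c1, c2, c3, -⟩ |
      ⟨e, -, c1, -⟩ | ⟨e, -, c1, -⟩ | ⟨e, -⟩
    · rw [e, rm3]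
      constructor <;> linarith
    · rw [e, rm2]
      constructor <;> linarith
    · rw [e, rm1]
      constructor <;> linarith
    · rw [e, rm4]
      constructor <;> linarith
    · rw [e, rm5]
      constructor <;> linarith
    · rw [e, rm0]
      exact ⟨g0, g1⟩
  · intro u h0 h1
    have l0 := hl0 u
    rcases hκ u with ⟨e, -, c0, -⟩ | ⟨e, -, c0, -⟩ | ⟨e, -⟩ |
      ⟨e, ⟨j, hj, c0⟩, c1, -⟩ | ⟨e, ⟨j, hj, c0⟩, c1, -⟩ | ⟨e, -⟩
    · exact Or.inl c0
    · exact Or.inl c0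
    · exact absurd e h1
    · exact Or.inr ⟨j, hj, (fpz j hj u c0).1, by linarith⟩
    · exact Or.inr ⟨j, hj, c0, by linarith⟩
    · exact absurd e h0
  · intro u hu
    rcases hκ u with ⟨e, -⟩ | ⟨e, -⟩ | ⟨e, -, -, -, c3, -⟩ | ⟨e, -⟩ | ⟨e, -⟩ | ⟨e, -⟩
    · rw [hu] at e
      exact absurd e (by decide)
    · rw [hu] at e
      exact absurd e (by decide)
    · exact c3
    · rw [hu] at e
      exact absurd e (by decide)
    · rw [hu] at e
      exact absurd e (by decide)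
    · rw [hu] at e
      exact absurd e (by decide)

end Pool.Agent.MSTG
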