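import Pool.Agent.MSTG.Conf
import Pool.Agent.MSTG.Cuts
import Pool.Agent.MSTG.Rel

/-! # The gain, G6: the deterministic theorem

(problem MP_e1ab72_pr, part (G); architect helper50)

PROOF of `gain_det`. Put `Lo = Low lam f`, `Up = Upp lam f`, `O = Op 0 f`, `B = Ball 0 rho`. `Lo ⊆ O ⊆ Up`: `f u ≤ - lam u ≤ 0`; if `f u ≤ 0` and not `f u ≤ - lam u` then
`0 < lam u`, so `f u < 2 lam u`. `exists_cuts` gives a `CutSys` (`{nrm ≤ 4 m 0} ⊆ B`: `sub_zero`; `4 m 0 ≤ nrm t`; `Conn.symm` is not needed). `exists_relab` gives `κ`; let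
`f' = relab κ lam f`. `Op 0 f' = Ol O T k`. For `l < k` let `g = f' (v l)`, `0 < om l / 8 < g ≤ om l / 4`, and
`H = {u | 0 < f' u ∧ f' u < g ∧ mi < 2 nrm u ∧ nrm u ≤ 16 m l}`. For `u ∈ H`: `om l ≤ lam u` (`lamb`), so `f' u < g ≤ lam u / 4`; `u ∈ Up` (as `f' u < 2 lam u`; `Upp` is
preserved), `u ∉ Lo`; if `Mx Lo Up u` then `u ∈ As Lo Up` and `lam u < f' u` (impossible) or `u = v j`, `j < k`: `j = l` impossible (`f' u < g`), `j < l` impossible
(`nrm (v j) ≥ m j ≥ 64 m l > 16 m l`), `l < j` impossible (`f' (v j) > om j / 8 ≥ om l ≥ g`; `8 om l ≤ om j` for `l < j`).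
SPREAD of `p l` in `Op 0 f'`: let `u ∈ H`. If `2 nrm u ≤ m l`: `a = p l`, `nrm (p l) ≥ m l - 1`. Otherwise `a = z (l+1)` (if `l + 1 < k`; `nrm ≤ 2 m (l+1) + 1 ≤ m l / 4`)
or `a = x` (if `l + 1 = k`; `4 nrm x ≤ m l`): `nrm (a - u) ≥ nrm u - m l / 4 ≥ nrm u / 2`. SPREAD of `z l`: `a = p (l-1)` if `0 < l` (`nrm ≥ m (l-1) - 1 ≥ 64 m l - 1`), `a = t` if
`l = 0` (`nrm t ≥ 20 m 0`): `nrm (a - u) ≥ 3 m l ≥ dd u`; they are joined to `z l` by `pz`, `tz`.
`conf_out` with `m = m l`, `conf_in` with `m' = mi` (`hb`: if `p l ~ y` in `Op 0 f'` then `y` is joined to `x` in `O ∩ B`: `px`, `pz`, `tz`, `xt` show that all `p l`, `z l` are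
joined to `x` in `O`... more precisely use `hbB` below) give for `Conn (Op 0 f' ∪ H) (p l) y`: `mi + 2 < 2 nrm y`, `nrm y < 10 m l`.
`hbB`: if `Conn (Op 0 f') (p l) y` then `3 mi < nrm y`: the component of `p l` in `Ol O T k` stays in `{nrm < 3 m l} ⊆ B` (`bd`), so `Conn (O ∩ B) (p l) y` (induction on the path, or
`Conn.exit` with `A = {nrm < 3 m l}`), and `p l` is joined to `x` in `O ∩ B`, since `v l ∈ T l ⊆ comp (O ∩ B) x` (`CutSys.sub`) and `p l ∈ O ∩ B` is adjacent to `v l`. Then `low`.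
The fifth and sixth statement: a vertex of `Op 0 f` which is not in `Op 0 f'` is in some `T l` (`Op 0 f' = Ol O T k`), use `CutSys.sub`; for `κ u ≠ 0, 1` use the last statement of
`exists_relab`: `u ∈ T l`, or `u` is a neighbour of `v l ∈ comp (O ∩ B) x` with `f u ≤ 0` and norm `≤ 2 m l + 1 ≤ rho` (`comp_adj`).
`bd'`: let `Conn {u | f' u < g} (p l) y`. With `A = {u | mi < 2 nrm u ∧ nrm u ≤ 16 m l}`: `{f' < g} ∩ A ⊆ Op 0 f' ∪ H`. If `y ∉ A` then `Conn.exit` gives `a ∈ A`, `b ∉ A`, `Adj a b`,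
`Conn ({f' < g} ∩ A) (p l) a`, so `mi + 2 < 2 nrm a`, `nrm a < 10 m l`, and `b ∈ A` (`nrm_adj`), contradiction; the same argument for every vertex of the path shows that the whole
path is in `A`, so `Conn (Op 0 f' ∪ H) (p l) y`.
`sep`: if `z l` is joined to `p l` in `{f' < g}` then in `Op 0 f' ∪ H` (as before), contradiction to `conf_sep`. `Op 0 f' ⊆ {f' < g}` since `0 < g`.
The other fields of `Chain` are copied (`lo = mi`: `bd` from `hbB` and `CutSys.bd`; `bd'` from `mi + 2 < 2 nrm y`: here `lo` must satisfy `2 lo ≤ mi`). -/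

set_option autoImplicit false

namespace Pool.Agent.MSTG

open Pool.Agent.TriPerc Pool.Agent.MST Set

private theorem nrm_sub_ge (a u : V) : nrm a - nrm u ≤ nrm (a - u) := by
  have h1 := nrm_add (a - u) u
  rw [sub_add_cancel] at h1
  linarith

private theorem nrm_sub_ge' (a u : V) : nrm u - nrm a ≤ nrm (a - u) := by
  have h1 := nrm_add (u - a) a
  rw [sub_add_cancel] at h1
  have h2 := nrm_neg (a - u)
  rw [neg_sub] at h2
  linarith

private theorem nrm_adj0 {u v : V} (h : Adj u v) : nrm u - 1 ≤ nrm v ∧ nrm v ≤ nrm u + 1 := by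
  have h1 := nrm_adj h 0
  rw [sub_zero, sub_zero, abs_le] at h1
  constructor <;> linarith [h1.1, h1.2]

private theorem mchain {m : ℕ → ℤ} {k : ℕ} (hm : ∀ l < k, 0 ≤ m l)
    (hmm : ∀ l, l + 1 < k → 64 * m (l + 1) ≤ m l) (j l : ℕ) (hjl : j < l) (hl : l < k) :
    64 * m l ≤ m j := by
  induction l with
  | zero => omega
  | succ l ih =>
    have h1 := hmm l hl
    rcases Nat.lt_or_ge j l with h2 | h2
    · have h3 := ih h2 (by omega)
      have h4 := hm l (by omega)
      linarith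
    · have h5 : j = l := by omega
      rw [h5]
      exact h1

private theorem ochain {om : ℕ → ℝ} {k : ℕ} (hm : ∀ l < k, 0 < om l)
    (hmm : ∀ l, l + 1 < k → 8 * om l ≤ om (l + 1)) (j l : ℕ) (hjl : j < l) (hl : l < k) :
    8 * om j ≤ om l := by
  induction l with
  | zero => omega
  | succ l ih =>
    have h1 := hmm l hl
    rcases Nat.lt_or_ge j l with h2 | h2
    · have h3 := ih h2 (by omega)
      have h4 := hm l (by omega)
      linarith
    · have h5 : j = l := by omega
      rw [h5]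
      exact h1

private theorem lowOp {lam : V → ℝ} {f : Lab} (h : ∀ u, 0 ≤ lam u) : Low lam f ⊆ Op 0 f := by
  intro u hu
  have h1 : f u ≤ - lam u := hu
  have h2 := h u
  change f u ≤ 0
  linarith

private theorem opUpp {lam : V → ℝ} {f : Lab} (h : ∀ u, 0 ≤ lam u) : Op 0 f ⊆ Upp lam f := by
  intro u hu
  have h1 : f u ≤ 0 := hu
  have h2 := h u
  change f u ≤ - lam u ∨ f u < 2 * lam u
  by_cases h3 : f u ≤ - lam u
  · exact Or.inl h3
  · right
    push Not at h3
    linarith

theorem gain_det {lam : V → ℝ} {f : Lab} {rho mi lo : ℤ} {x t : V} {m : ℕ → ℤ} {om : ℕ → ℝ}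
    {k : ℕ} (h : GHyp lam f rho mi x t m om k) (hlo : 2 * lo ≤ mi) :
    ∃ (κ : V → Fin 6) (v p z : ℕ → V),
      (∀ u, κ u ≠ 0 → u ∈ As (Low lam f) (Upp lam f) ∨ ∃ y ∈ As (Low lam f) (Upp lam f), Adj u y) ∧
      Low lam (relab κ lam f) = Low lam f ∧ Upp lam (relab κ lam f) = Upp lam f ∧
      Op 0 (relab κ lam f) ⊆ Op 0 f ∧
      (∀ u ∈ Op 0 f, u ∉ Op 0 (relab κ lam f) → Conn (Op 0 f ∩ Ball 0 rho) x u) ∧
      (∀ u, κ u ≠ 0 → κ u ≠ 1 → Conn (Op 0 f ∩ Ball 0 rho) x u) ∧
      (∀ u ∈ As (Low lam f) (Upp lam f), 0 < relab κ lam f u →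
        lam u < relab κ lam f u ∨ ∃ l < k, u = v l) ∧
      (∀ u, -1 / 2 ≤ relab κ lam f u ∧ relab κ lam f u ≤ 1 / 2) ∧
      (∀ u, κ u = 1 → 0 < f u) ∧
      (∀ u, κ u ≠ 0 → κ u ≠ 1 → ∃ l < k, m l - 1 ≤ nrm u ∧ nrm u ≤ 2 * m l + 1) ∧
      (∀ l < k, Conn (Op 0 f ∩ Ball 0 rho) x (v l)) ∧
      Chain (relab κ lam f) rho lo x t m om k v p z := by
  have hmi := h.mi0
  have hm64 : ∀ l < k, 64 ≤ m l := fun l hl => by
    have := h.m64 l hl
    omega
  have hm0 : ∀ l < k, 0 ≤ m l := fun l hl => by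
    have := hm64 l hl
    omega
  have hmc := mchain hm0 h.mm
  have hoc := ochain h.om0 h.omm
  have hml0 : ∀ l < k, m l ≤ m 0 := by
    intro l hl
    rcases Nat.eq_zero_or_pos l with h0 | h0
    · rw [h0]
    · have := hmc 0 l h0 hl
      have := hm0 l hl
      linarith
  have hLO := lowOp (f := f) h.lam0
  have hOU := opUpp (f := f) h.lam0
  obtain ⟨T, v, p, z, hC⟩ := exists_cuts (Lo := Low lam f) (Up := Upp lam f) (O := Op 0 f)
    (B := Ball 0 rho) (x := x) (t := t) (m := m) (k := k) hm64 h.mm hLO hOU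
    (fun hk w hw => by
      have h1 : nrm w ≤ 4 * m 0 := hw
      have h2 := h.rho0 hk
      have h3 := hm0 0 hk
      change nrm (w - 0) ≤ rho
      rw [sub_zero]
      linarith)
    (fun l hl => by
      have h1 := h.x4 l hl
      have h2 := nrm_nonneg x
      linarith)
    (fun hk => by
      have h1 := h.t20 hk
      have h2 := hm0 0 hk
      linarith) h.xt h.cross
  obtain ⟨κ, ha, hb1, hb2, hc, hd, he, hf, hg, hh, hi⟩ := exists_relab (lam := lam) (f := f)
    (B := Ball 0 rho) (x := x) (t := t) (m := m) (om := om) (k := k) h.lam0 h.lam1 h.f0 h.f1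
    hm64 h.mm h.om0 h.lamg h.nb hC
  -- the norms of the gate vertices
  have hv : ∀ l < k, m l ≤ nrm (v l) ∧ nrm (v l) ≤ 2 * m l := by
    intro l hl
    have h1 := hC.ann l hl (hC.vT l hl)
    have h2 : m l ≤ nrm (v l - 0) ∧ nrm (v l - 0) ≤ 2 * m l := h1
    rw [sub_zero] at h2
    exact h2
  have hp : ∀ l < k, m l - 1 ≤ nrm (p l) ∧ nrm (p l) ≤ 2 * m l + 1 := by
    intro l hl
    have h1 := hv l hl
    have h2 := nrm_adj0 (hC.vp l hl)
    constructor <;> linarith [h1.1, h1.2, h2.1, h2.2]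
  have hz : ∀ l < k, m l - 1 ≤ nrm (z l) ∧ nrm (z l) ≤ 2 * m l + 1 := by
    intro l hl
    have h1 := hv l hl
    have h2 := nrm_adj0 (hC.vz l hl)
    constructor <;> linarith [h1.1, h1.2, h2.1, h2.2]
  have hpO : ∀ l < k, p l ∈ Ol (Op 0 f) T k := by
    intro l hl
    by_cases h1 : l + 1 < k
    · exact (hC.pz l h1).left
    · have h2 : l = k - 1 := by omega
      rw [h2]
      exact (hC.px (by omega)).left
  have hzO : ∀ l < k, z l ∈ Ol (Op 0 f) T k := by
    intro l hl
    rcases Nat.eq_zero_or_pos l with h0 | h0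
    · rw [h0]
      exact (hC.tz (by omega)).right.1
    · obtain ⟨j, rfl⟩ : ∃ j, l = j + 1 := ⟨l - 1, by omega⟩
      exact (hC.pz j hl).right
  have hOlO : Ol (Op 0 f) T k ⊆ Op 0 f := fun u hu => hu.1
  have hball : ∀ l < k, ∀ u, nrm u ≤ 3 * m l → u ∈ Ball 0 rho := by
    intro l hl u hu
    have h1 := h.rho0 (by omega)
    have h2 := hml0 l hl
    have h3 := hm0 0 (by omega)
    change nrm (u - 0) ≤ rho
    rw [sub_zero]
    linarith
  have hbB : ∀ l < k, ∀ y, Conn (Ol (Op 0 f) T k) (p l) y → 3 * mi < nrm y := by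
    intro l hl y hy
    have h1 : Conn (Op 0 f ∩ Ball 0 rho) (p l) y := by
      refine hy.in_comp.mono fun w hw => ?_
      exact ⟨hOlO (comp_subset hw), hball l hl w (hC.bd l hl w hw).le⟩
    have h2 : p l ∈ comp (Op 0 f ∩ Ball 0 rho) x :=
      comp_adj (hC.sub l hl (hC.vT l hl)) h1.left (hC.vp l hl)
    have h3 : Conn (Op 0 f ∩ Ball 0 rho) x (p l) := h2
    exact h.low y (h3.trans h1)
  have hrem : ∀ u ∈ Op 0 f, u ∉ Op 0 (relab κ lam f) → Conn (Op 0 f ∩ Ball 0 rho) x u := by
    intro u hu hu'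
    rw [hc] at hu'
    have h1 : ∃ j < k, u ∈ T j := by
      by_contra hcon
      push Not at hcon
      exact hu' ⟨hu, hcon⟩
    obtain ⟨j, hj, hj'⟩ := h1
    exact hC.sub j hj hj'
  have hlow' : Low lam f ⊆ Ol (Op 0 f) T k := by
    rw [← hc, ← hb1]
    exact lowOp h.lam0
  have key : ∀ l < k, (¬ Conn {u | relab κ lam f u < relab κ lam f (v l)} (p l) (z l)) ∧
      ∀ y, Conn {u | relab κ lam f u < relab κ lam f (v l)} (p l) y →
        lo < nrm y ∧ nrm y < 10 * m l := by
    intro l hl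
    set f' := relab κ lam f with hf'
    set H : Set V := {u | 0 < f' u ∧ f' u < f' (v l) ∧ mi < 2 * nrm u ∧ nrm u ≤ 16 * m l} with hH
    have hgl := he l hl
    have hml := hm64 l hl
    have hml' := h.m64 l hl
    have homl := h.om0 l hl
    have hHlam : ∀ u ∈ H, f' u < lam u / 4 ∧ 0 < lam u := by
      intro u hu
      obtain ⟨h1, h2, h3, h4⟩ := hu
      have h5 := h.lamb l hl u h3 h4
      constructor <;> linarith [hgl.1, hgl.2]
    have hU : Ol (Op 0 f) T k ∪ H ⊆ Upp lam f := by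
      rintro u (hu | hu)
      · exact hOU (hOlO hu)
      · have h1 := hHlam u hu
        rw [← hb2]
        change f' u ≤ - lam u ∨ f' u < 2 * lam u
        right
        linarith [h1.1, h1.2]
    have hHM : ∀ u ∈ H, ¬ Mx (Low lam f) (Upp lam f) u := by
      intro u hu hM
      have h1 := hHlam u hu
      obtain ⟨h2, h3, h4, h5⟩ := hu
      have h6 : u ∈ Upp lam f := hU (Or.inr ⟨h2, h3, h4, h5⟩)
      have h7 : u ∉ Low lam f := by
        intro h8
        rw [← hb1] at h8
        have h9 : f' u ≤ - lam u := h8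
        linarith [h1.2]
      rcases hd u ⟨h6, h7, hM⟩ h2 with h8 | ⟨j, hj, h8⟩
      · linarith [h1.1, h1.2]
      · rcases lt_trichotomy j l with h9 | h9 | h9
        · have h10 := hmc j l h9 hl
          have h11 := (hv j hj).1
          rw [← h8] at h11
          linarith
        · rw [h8, h9] at h3
          exact lt_irrefl _ h3
        · have h10 := hoc l j h9 hj
          have h11 := (he j hj).1
          rw [← h8] at h11
          linarith [hgl.2]
    have h48 : ∀ u ∈ H, 48 ≤ nrm u := by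
      rintro u ⟨-, -, h3, -⟩
      omega
    have hdis : ∀ u ∈ H, u ∉ Ol (Op 0 f) T k := by
      rintro u ⟨h1, -, -, -⟩ h2
      rw [← hc] at h2
      have h3 : f' u ≤ 0 := h2
      linarith
    have hsx : ∀ u ∈ H, ∃ a, Conn (Ol (Op 0 f) T k) (p l) a ∧ dd u ≤ nrm (a - u) := by
      rintro u ⟨-, -, h3, h4⟩
      unfold dd
      by_cases h5 : 2 * nrm u ≤ m l
      · refine ⟨p l, Conn.refl (hpO l hl), ?_⟩
        have h6 := (hp l hl).1
        have h7 := nrm_sub_ge (p l) u
        omega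
      · by_cases h6 : l + 1 < k
        · refine ⟨z (l + 1), hC.pz l h6, ?_⟩
          have h7 := (hz (l + 1) h6).2
          have h8 := h.mm l h6
          have h9 := nrm_sub_ge' (z (l + 1)) u
          have h10 := hm64 (l + 1) h6
          omega
        · have h7 : l = k - 1 := by omega
          refine ⟨x, ?_, ?_⟩
          · rw [h7]
            exact hC.px (by omega)
          · have h8 := h.x4 l hl
            have h9 := nrm_sub_ge' x u
            omega
    have hsz : ∀ u ∈ H, ∃ a, Conn (Ol (Op 0 f) T k) (z l) a ∧ dd u ≤ nrm (a - u) := by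
      rintro u ⟨-, -, h3, h4⟩
      unfold dd
      rcases Nat.eq_zero_or_pos l with h5 | h5
      · subst h5
        refine ⟨t, ((hC.tz hl).mono Set.inter_subset_left).symm, ?_⟩
        have h6 := h.t20 hl
        have h7 := nrm_sub_ge t u
        omega
      · obtain ⟨j, rfl⟩ : ∃ j, l = j + 1 := ⟨l - 1, by omega⟩
        refine ⟨p j, (hC.pz j hl).symm, ?_⟩
        have h6 := (hp j (by omega)).1
        have h7 := h.mm j hl
        have h8 := nrm_sub_ge (p j) u
        omega
    have hout := conf_out hml hlow' hU hHM h48 hdis (hpO l hl) hsx (hC.bd l hl)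
      (fun u hu => hu.2.2.2)
    have hin := conf_in hmi hlow' hU hHM h48 hdis (hpO l hl) hsx (hbB l hl)
    have hsep := conf_sep hlow' hU hHM h48 (hpO l hl) (hzO l hl) (hC.sep l hl) hsx hsz
    have hpath : ∀ y, Conn {u | f' u < f' (v l)} (p l) y →
        Conn (Ol (Op 0 f) T k ∪ H) (p l) y := by
      intro y hy
      obtain ⟨hp0, hr⟩ := hy
      induction hr with
      | refl => exact Conn.refl (Or.inl (hpO l hl))
      | @tail b c _ hbc ih =>
        have h1 := hout b ih
        have h2 := hin b ih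
        have h3 := nrm_adj0 hbc.1
        have h4 : f' c < f' (v l) := hbc.2
        have h5 : c ∈ Ol (Op 0 f) T k ∪ H := by
          by_cases h6 : f' c ≤ 0
          · left
            rw [← hc]
            exact h6
          · right
            push Not at h6
            exact ⟨h6, h4, by omega, by omega⟩
        exact ih.trans (Conn.of_adj ih.right h5 hbc.1)
    refine ⟨fun h1 => hsep (hpath _ h1), fun y hy => ?_⟩
    have h1 := hpath y hy
    have h2 := hin y h1
    have h3 := hout y h1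
    constructor <;> omega
  refine ⟨κ, v, p, z, ha, hb1, hb2, ?_, hrem, ?_, hd, hg, hi, ?_,
    fun l hl => hC.sub l hl (hC.vT l hl), ?_⟩
  · rw [hc]
    exact hOlO
  · intro u h0 h1
    rcases hh u h0 h1 with ⟨l, hl, hT⟩ | ⟨l, hl, hA, hfu⟩
    · exact hC.sub l hl hT
    · have h2 := hC.sub l hl (hC.vT l hl)
      have h3 := nrm_adj0 hA
      have h4 := (hv l hl).2
      have h5 := hm64 l hl
      have h6 : u ∈ Op 0 f ∩ Ball 0 rho := ⟨hfu, hball l hl u (by linarith [h3.2])⟩
      exact comp_adj h2 h6 hA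
  · intro u h0 h1
    rcases hh u h0 h1 with ⟨l, hl, hT⟩ | ⟨l, hl, hA, hfu⟩
    · have h2 := hC.ann l hl hT
      have h3 : m l ≤ nrm (u - 0) ∧ nrm (u - 0) ≤ 2 * m l := h2
      rw [sub_zero] at h3
      exact ⟨l, hl, by omega, by omega⟩
    · have h3 := nrm_adj0 hA
      have h4 := hv l hl
      exact ⟨l, hl, by omega, by omega⟩
  · have hOp : ∀ u, u ∈ Ol (Op 0 f) T k → relab κ lam f u ≤ 0 := by
      intro u hu
      rw [← hc] at hu
      exact hu
    exact
      { vp := hC.vp
        vz := hC.vz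
        nv := hv
        gl := he
        low := hf
        p0 := fun l hl => hOp _ (hpO l hl)
        z0 := fun l hl => hOp _ (hzO l hl)
        pz := by rw [hc]; exact hC.pz
        px := by rw [hc]; exact hC.px
        tz := by rw [hc]; exact hC.tz
        bd := by
          rw [hc]
          intro l hl y hy
          have h1 := hbB l hl y hy
          exact ⟨by omega, hC.bd l hl y hy⟩
        sp := by rw [hc]; exact hC.sp
        sep := fun l hl => (key l hl).1
        bd' := fun l hl => (key l hl).2 }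

end Pool.Agent.MSTG
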