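import Pool.Agent.MSTG.Defs
import Pool.Agent.TriPerc.MixG
import Mathlib.Data.Set.Card.Arithmetic

/-! # The gain, G11: the profile

(problem MP_e1ab72_pr, part (G); helper50)

`R j` are the radii of the blocks (block `j`: `R (j + 1) < nrm u ≤ R j`), `W j` the windows. `I` is a finite set of ITEMS (gates and zones); the
item `i` is active on the blocks `i, ..., c i`. `prof R W I c u` is the largest window of the active items at `u`. `mg R j = R j / 32`: the gate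
or zone of the item `j` is `Ann 0 (mg R j) (2 * mg R j)`.

* `Scl R W n`: the hypotheses on radii and windows for the blocks `0, ..., n`.
* `Its I c n`: the hypotheses on the items.
* `prof_eq`, `prof_ge`, `prof_le`, `prof_cases`.
* `NV R W i j w`: the vertices of the block `j` with a label in the window of `i` (twice) and mixed four arms for the window of the block
  `j + 1` (twice). `as_sub`: `As ⊆ ⋃ i ∈ I, ⋃ j ∈ [i, c i], NV i j`.
* `FN lam f`: `As` and the neighbours of its vertices. `fn_card`: its number of elements is at most `7 ∑ ∑ |NV i j|`.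
* `GdO`, `GdB`: the local conditions for a gate. `GSt`: the static part of `GHyp` (`GSt.ghyp`), a property of the classes (`GSt.congr`);
  `gst_of`: it follows from the local conditions. -/

set_option autoImplicit false

namespace Pool.Agent.MSTG

open Pool.Agent.TriPerc Pool.Agent.MST Set

/-- The radius of the gate or zone of the block `j`. -/
def mg (R : ℕ → ℤ) (j : ℕ) : ℤ := R j / 32

/-- The profile: the largest window of the active items. -/
noncomputable def prof (R : ℕ → ℤ) (W : ℕ → ℝ) (I : Finset ℕ) (c : ℕ → ℕ) (u : V) : ℝ :=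
  (I.filter fun i => R (c i + 1) < nrm u ∧ nrm u ≤ R i).fold max 0 W

/-- The hypotheses on radii and windows. -/
structure Scl (R : ℕ → ℤ) (W : ℕ → ℝ) (n : ℕ) : Prop where
  r0 : ∀ j ≤ n, 8192 ≤ R j
  rr : ∀ j < n, 8192 * R (j + 1) ≤ R j
  w0 : ∀ j ≤ n, 0 < W j
  ww : ∀ j < n, 8 * W j ≤ W (j + 1)
  w1 : ∀ j ≤ n, W j < 1 / 4

/-- The hypotheses on the items. -/
structure Its (I : Finset ℕ) (c : ℕ → ℕ) (n : ℕ) : Prop where
  ic : ∀ i ∈ I, i ≤ c i
  cn : ∀ i ∈ I, c i + 2 ≤ n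

/-- The vertices of the block `j` which count for the item `i`. -/
def NV (R : ℕ → ℤ) (W : ℕ → ℝ) (i j : ℕ) (w : Lab) : Set V :=
  {u | R (j + 1) < nrm u ∧ nrm u ≤ R j ∧ |w u - 1 / 2| < 2 * W i ∧
    w ∈ MxG (1 / 2 - 2 * W (j + 1)) (1 / 2 + 2 * W (j + 1)) u 2 (dd u)}

/-- The vertices of `As` and their neighbours. -/
def FN (lam : V → ℝ) (f : Lab) : Set V :=
  {u | u ∈ As (Low lam f) (Upp lam f) ∨ ∃ y ∈ As (Low lam f) (Upp lam f), Adj u y}

/-- The item `i` has no crossing of low labels. -/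
def GdO (R : ℕ → ℤ) (W : ℕ → ℝ) (i : ℕ) : Set Lab :=
  {w | ¬ Arm (Op (1 / 2 - W i) w) 0 (mg R i) (2 * mg R i)}

/-- The item `i` has no two adjacent vertices with labels in the window, one of them with mixed four arms. -/
def GdB (R : ℕ → ℤ) (W : ℕ → ℝ) (i : ℕ) : Set Lab :=
  {w | ∀ u y, mg R i ≤ nrm u → nrm u ≤ 2 * mg R i → Adj u y → |w u - 1 / 2| < 2 * W i →
    |w y - 1 / 2| < 2 * W i → w ∉ MxG (1 / 2 - 2 * W (i + 1)) (1 / 2 + 2 * W (i + 1)) u 2 (dd u)}

/-- The item `i` has no crossing of high labels. -/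
def GdC (R : ℕ → ℤ) (W : ℕ → ℝ) (i : ℕ) : Set Lab :=
  {w | ¬ Arm (Cl (1 / 2 + W i) w) 0 (mg R i) (2 * mg R i)}

variable {R : ℕ → ℤ} {W : ℕ → ℝ} {n : ℕ} {I : Finset ℕ} {c : ℕ → ℕ} {u : V}

/-! ## Radii and windows -/

theorem Scl.anti (h : Scl R W n) {i j : ℕ} (hij : i < j) (hj : j ≤ n) : 8192 * R j ≤ R i := by
  induction j, (Nat.succ_le_of_lt hij : i + 1 ≤ j) using Nat.le_induction with
  | base => exact h.rr i (by omega)
  | succ j hj' ih =>
    have h1 := ih (by omega) (by omega)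
    have h2 := h.rr j (by omega)
    have h3 := h.r0 (j + 1) hj
    omega

theorem Scl.anti' (h : Scl R W n) {i j : ℕ} (hij : i ≤ j) (hj : j ≤ n) : R j ≤ R i := by
  rcases Nat.eq_or_lt_of_le hij with h1 | h1
  · rw [h1]
  · have h2 := h.anti h1 hj
    have h3 := h.r0 j hj
    omega

theorem Scl.mono (h : Scl R W n) {i j : ℕ} (hij : i < j) (hj : j ≤ n) : 8 * W i ≤ W j := by
  induction j, (Nat.succ_le_of_lt hij : i + 1 ≤ j) using Nat.le_induction with
  | base => exact h.ww i (by omega)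
  | succ j hj' ih =>
    have h1 := ih (by omega) (by omega)
    have h2 := h.ww j (by omega)
    have h3 := h.w0 j (by omega)
    linarith

theorem Scl.mono' (h : Scl R W n) {i j : ℕ} (hij : i ≤ j) (hj : j ≤ n) : W i ≤ W j := by
  rcases Nat.eq_or_lt_of_le hij with h1 | h1
  · rw [h1]
  · have h2 := h.mono h1 hj
    have h3 := h.w0 i (by omega)
    linarith

/-- The block of a vertex. -/
theorem Scl.blk (_ : Scl R W n) {i d : ℕ} (hid : i ≤ d) (hd : d + 1 ≤ n) (h1 : R (d + 1) < nrm u)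
    (h2 : nrm u ≤ R i) : ∃ j, i ≤ j ∧ j ≤ d ∧ R (j + 1) < nrm u ∧ nrm u ≤ R j := by
  induction d, hid using Nat.le_induction with
  | base => exact ⟨i, le_rfl, le_rfl, h1, h2⟩
  | succ d hd' ih =>
    by_cases h3 : nrm u ≤ R (d + 1)
    · exact ⟨d + 1, by omega, le_rfl, h1, h3⟩
    · obtain ⟨j, j1, j2, j3, j4⟩ := ih (by omega) (not_le.1 h3)
      exact ⟨j, j1, by omega, j3, j4⟩

/-! ## The profile -/

theorem prof_nonneg (R : ℕ → ℤ) (W : ℕ → ℝ) (I : Finset ℕ) (c : ℕ → ℕ) (u : V) :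
    0 ≤ prof R W I c u := by
  unfold prof
  rw [Finset.le_fold_max]
  exact Or.inl le_rfl

theorem prof_ge {i : ℕ} (hi : i ∈ I) (h1 : R (c i + 1) < nrm u) (h2 : nrm u ≤ R i) :
    W i ≤ prof R W I c u := by
  unfold prof
  rw [Finset.le_fold_max]
  exact Or.inr ⟨i, Finset.mem_filter.2 ⟨hi, h1, h2⟩, le_rfl⟩

theorem prof_le {a : ℝ} (ha : 0 ≤ a)
    (h : ∀ i ∈ I, R (c i + 1) < nrm u → nrm u ≤ R i → W i ≤ a) : prof R W I c u ≤ a := by
  unfold prof
  rw [Finset.fold_max_le]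
  refine ⟨ha, fun i hi => ?_⟩
  obtain ⟨h1, h2, h3⟩ := Finset.mem_filter.1 hi
  exact h i h1 h2 h3

theorem prof_lt {a : ℝ} (ha : 0 < a) (h : ∀ i ∈ I, W i < a) : prof R W I c u < a := by
  unfold prof
  rw [Finset.fold_max_lt]
  exact ⟨ha, fun i hi => h i (Finset.mem_filter.1 hi).1⟩

theorem prof_cases (R : ℕ → ℤ) (W : ℕ → ℝ) (I : Finset ℕ) (c : ℕ → ℕ) (u : V) :
    prof R W I c u = 0 ∨ ∃ i ∈ I, R (c i + 1) < nrm u ∧ nrm u ≤ R i ∧ prof R W I c u = W i := by
  have h0 := prof_nonneg R W I c u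
  have h1 : prof R W I c u ≤ prof R W I c u := le_rfl
  nth_rewrite 2 [prof] at h1
  rw [Finset.le_fold_max] at h1
  rcases h1 with h1 | ⟨i, hi, h1⟩
  · exact Or.inl (le_antisymm h1 h0)
  · obtain ⟨h2, h3, h4⟩ := Finset.mem_filter.1 hi
    exact Or.inr ⟨i, h2, h3, h4, le_antisymm h1 (prof_ge h2 h3 h4)⟩

theorem prof_eq (h : Scl R W n) (hI : Its I c n) {i : ℕ} (hi : i ∈ I) (h1 : R (i + 1) < nrm u)
    (h2 : nrm u ≤ R i) : prof R W I c u = W i := by
  have a1 := hI.ic i hi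
  have a2 := hI.cn i hi
  refine le_antisymm (prof_le (h.w0 i (by omega)).le fun i' hi' _ h3 => ?_) (prof_ge hi ?_ h2)
  · have a3 := hI.ic i' hi'
    have a4 := hI.cn i' hi'
    refine h.mono' ?_ (by omega)
    by_contra h4
    have := h.anti' (by omega : i + 1 ≤ i') (by omega)
    omega
  · have := h.anti' (by omega : i + 1 ≤ c i + 1) (by omega)
    omega

/-- Outside of the block `j + 2` the profile is at most the window of the block `j + 1`. -/
theorem prof_blk (h : Scl R W n) (hI : Its I c n) {j : ℕ} (hj : j + 2 ≤ n)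
    (h1 : R (j + 2) < nrm u) : prof R W I c u ≤ W (j + 1) := by
  refine prof_le (h.w0 _ (by omega)).le fun i hi _ h3 => ?_
  have a3 := hI.ic i hi
  have a4 := hI.cn i hi
  refine h.mono' ?_ (by omega)
  by_contra h4
  have := h.anti' (by omega : j + 2 ≤ i) (by omega)
  omega

/-! ## Mixed arms -/

/-- `Mx` is local and monotone. -/
theorem mx_loc {Lo Up Lo' Up' : Set V} {v : V} (hL : ∀ x ∈ Ann v 2 (dd v), x ∈ Lo' → x ∈ Lo)
    (hU : ∀ x ∈ Ann v 2 (dd v), x ∈ Up → x ∈ Up') (hLU : Lo' ⊆ Up') (h : Mx Lo Up v) :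
    Mx Lo' Up' v := by
  obtain ⟨G, h1, h2, h3⟩ := h
  refine ⟨cut G (Ann v 2 (dd v)) ⊔ EG Lo', le_sup_right, sup_le ?_ (eg_mono hLU),
    (fg_congr fun x hx y hy => ?_).1 h3⟩
  · rintro x y ⟨k1, k2, k3⟩
    obtain ⟨k4, k5, k6⟩ := h2 k1
    exact ⟨k4, hU x k2 k5, hU y k3 k6⟩
  · rw [SimpleGraph.sup_adj]
    constructor
    · intro k
      exact Or.inl ⟨k, hx, hy⟩
    · rintro (k | k)
      · exact k.1
      · exact h1 ⟨k.1, hL x hx k.2.1, hL y hy k.2.2⟩

theorem low_upp {lam : V → ℝ} {f : Lab} : Low lam f ⊆ Upp lam f := fun _ h => Or.inl h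

private theorem tri (a u : V) : nrm u ≤ nrm (a - u) + nrm a := by
  have h := nrm_add (-(a - u)) a
  rwa [nrm_neg, neg_sub, sub_add_cancel] at h

/-- The vertices near a vertex of the block `j` are outside of the block `j + 2`. -/
theorem near_blk (h : Scl R W n) {j : ℕ} (hj : j + 2 ≤ n) (h1 : R (j + 1) < nrm u) {x : V}
    (hx : x ∈ Ann u 2 (dd u)) : R (j + 2) < nrm x := by
  have h2 := tri x u
  have h3 := h.anti (by omega : j + 1 < j + 2) hj
  have h4 := h.r0 (j + 2) hj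
  have h5 : nrm (x - u) ≤ dd u := hx.2
  unfold dd at h5
  omega

theorem mx_mxg (h : Scl R W n) (hI : Its I c n) {j : ℕ} (hj : j + 2 ≤ n)
    (h1 : R (j + 1) < nrm u) {w : Lab}
    (hM : Mx (Low (prof R W I c) fun v => w v - 1 / 2) (Upp (prof R W I c) fun v => w v - 1 / 2) u) :
    w ∈ MxG (1 / 2 - 2 * W (j + 1)) (1 / 2 + 2 * W (j + 1)) u 2 (dd u) := by
  have h0 := h.w0 (j + 1) (by omega)
  refine mx_loc (fun x hx h2 => ?_) (fun x hx h2 => ?_) (op_mono (by linarith) w) hM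
  · have h3 := prof_blk h hI hj (near_blk h hj h1 hx)
    have h4 : w x ≤ 1 / 2 - 2 * W (j + 1) := h2
    change w x - 1 / 2 ≤ - prof R W I c x
    linarith
  · have h3 := prof_blk h hI hj (near_blk h hj h1 hx)
    have h5 := prof_nonneg R W I c x
    have h4 : w x - 1 / 2 ≤ - prof R W I c x ∨ w x - 1 / 2 < 2 * prof R W I c x := h2
    change w x ≤ 1 / 2 + 2 * W (j + 1)
    rcases h4 with h4 | h4 <;> linarith

theorem as_cl {lam : V → ℝ} {f : Lab} (hu : u ∈ As (Low lam f) (Upp lam f)) :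
    - lam u < f u ∧ f u < 2 * lam u := by
  obtain ⟨h1, h2, -⟩ := hu
  have h3 : ¬ f u ≤ - lam u := h2
  exact ⟨not_le.1 h3, h1.resolve_left h3⟩

theorem as_sub (h : Scl R W n) (hI : Its I c n) {w : Lab}
    (hu : u ∈ As (Low (prof R W I c) fun v => w v - 1 / 2)
      (Upp (prof R W I c) fun v => w v - 1 / 2)) :
    ∃ i ∈ I, ∃ j, i ≤ j ∧ j ≤ c i ∧ u ∈ NV R W i j w := by
  obtain ⟨h1, h2⟩ := as_cl hu
  rcases prof_cases R W I c u with h3 | ⟨i, hi, h3, h4, h5⟩
  · rw [h3] at h1 h2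
    linarith
  · have a1 := hI.ic i hi
    have a2 := hI.cn i hi
    obtain ⟨j, j1, j2, j3, j4⟩ := h.blk a1 (by omega) h3 h4
    rw [h5] at h1 h2
    refine ⟨i, hi, j, j1, j2, j3, j4, ?_, mx_mxg h hI (by omega) j3 hu.2.2⟩
    have := h.w0 i (by omega)
    rw [abs_lt]
    constructor <;> linarith

theorem nv_fin (R : ℕ → ℤ) (W : ℕ → ℝ) (i j : ℕ) (w : Lab) : (NV R W i j w).Finite := by
  refine (finite_ball 0 (R j)).subset fun v hv => ?_
  have := hv.2.1
  change nrm (v - 0) ≤ R j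
  rwa [sub_zero]

theorem as_fin (h : Scl R W n) (hI : Its I c n) (w : Lab) :
    (As (Low (prof R W I c) fun v => w v - 1 / 2) (Upp (prof R W I c) fun v => w v - 1 / 2)).Finite := by
  refine Set.Finite.subset (s := ⋃ i ∈ I, ⋃ j ∈ Finset.Icc i (c i), NV R W i j w) ?_ fun u hu => ?_
  · refine I.finite_toSet.biUnion fun i _ => ?_
    exact (Finset.Icc i (c i)).finite_toSet.biUnion fun j _ => nv_fin R W i j w
  · obtain ⟨i, hi, j, j1, j2, j3⟩ := as_sub h hI hu
    simp only [mem_iUnion]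
    exact ⟨i, hi, j, Finset.mem_Icc.2 ⟨j1, j2⟩, j3⟩

theorem as_card (h : Scl R W n) (hI : Its I c n) (w : Lab) :
    (As (Low (prof R W I c) fun v => w v - 1 / 2) (Upp (prof R W I c) fun v => w v - 1 / 2)).ncard ≤
      ∑ i ∈ I, ∑ j ∈ Finset.Icc i (c i), (NV R W i j w).ncard := by
  have hf : ∀ i, (⋃ j ∈ Finset.Icc i (c i), NV R W i j w).Finite := fun i =>
    (Finset.Icc i (c i)).finite_toSet.biUnion fun j _ => nv_fin R W i j w
  have h1 : As (Low (prof R W I c) fun v => w v - 1 / 2) (Upp (prof R W I c) fun v => w v - 1 / 2) ⊆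
      ⋃ i ∈ I, ⋃ j ∈ Finset.Icc i (c i), NV R W i j w := fun u hu => by
    obtain ⟨i, hi, j, j1, j2, j3⟩ := as_sub h hI hu
    simp only [mem_iUnion]
    exact ⟨i, hi, j, Finset.mem_Icc.2 ⟨j1, j2⟩, j3⟩
  refine (Set.ncard_le_ncard h1 (I.finite_toSet.biUnion fun i _ => hf i)).trans ?_
  refine (Finset.set_ncard_biUnion_le I _).trans (Finset.sum_le_sum fun i _ => ?_)
  exact Finset.set_ncard_biUnion_le _ _

/-! ## The neighbours -/

/-- The vertex and its neighbours. -/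
def nb7 (v : V) : Finset V :=
  {v, (v.1 + 1, v.2), (v.1, v.2 + 1), (v.1 - 1, v.2 + 1), (v.1 - 1, v.2), (v.1, v.2 - 1),
    (v.1 + 1, v.2 - 1)}

theorem nb7_card (v : V) : (nb7 v).card ≤ 7 := by
  unfold nb7
  refine (Finset.card_insert_le _ _).trans ?_
  have := Finset.card_le_six (a := ((v.1 + 1, v.2) : V)) (b := (v.1, v.2 + 1))
    (c := (v.1 - 1, v.2 + 1)) (d := (v.1 - 1, v.2)) (e := (v.1, v.2 - 1)) (f := (v.1 + 1, v.2 - 1))
  omega

theorem mem_nb7 {v x : V} (h : Adj v x) : x ∈ nb7 v := by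
  unfold nb7
  simp only [Finset.mem_insert, Finset.mem_singleton, Prod.ext_iff]
  rcases h with h | h | h | h | h | h
  · exact Or.inr (Or.inl h)
  · exact Or.inr (Or.inr (Or.inl h))
  · exact Or.inr (Or.inr (Or.inr (Or.inl h)))
  · exact Or.inr (Or.inr (Or.inr (Or.inr (Or.inl h))))
  · exact Or.inr (Or.inr (Or.inr (Or.inr (Or.inr (Or.inl h)))))
  · exact Or.inr (Or.inr (Or.inr (Or.inr (Or.inr (Or.inr h)))))

theorem fn_sub {lam : V → ℝ} {f : Lab} :
    FN lam f ⊆ ⋃ y ∈ As (Low lam f) (Upp lam f), (nb7 y : Set V) := by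
  intro u hu
  simp only [mem_iUnion, exists_prop]
  rcases hu with hu | ⟨y, hy, hyu⟩
  · exact ⟨u, hu, by unfold nb7; simp⟩
  · exact ⟨y, hy, mem_nb7 hyu.symm⟩

theorem fn_card {lam : V → ℝ} {f : Lab} (hfin : (As (Low lam f) (Upp lam f)).Finite) :
    (FN lam f).Finite ∧ (FN lam f).ncard ≤ 7 * (As (Low lam f) (Upp lam f)).ncard := by
  have h1 : (⋃ y ∈ As (Low lam f) (Upp lam f), (nb7 y : Set V)).Finite :=
    hfin.biUnion fun y _ => (nb7 y).finite_toSet
  refine ⟨h1.subset fn_sub, (Set.ncard_le_ncard fn_sub h1).trans ?_⟩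
  obtain ⟨s, hs⟩ : ∃ s : Finset V, (s : Set V) = As (Low lam f) (Upp lam f) :=
    ⟨hfin.toFinset, hfin.coe_toFinset⟩
  rw [← hs, Set.ncard_coe_finset]
  have h2 : (⋃ y ∈ (s : Set V), (nb7 y : Set V)) = ⋃ y ∈ s, (nb7 y : Set V) := rfl
  rw [h2]
  refine (Finset.set_ncard_biUnion_le s _).trans ?_
  refine (Finset.sum_le_card_nsmul s _ 7 fun y _ => ?_).trans (by rw [smul_eq_mul, mul_comm])
  rw [Set.ncard_coe_finset]
  exact nb7_card y

/-! ## The hypotheses of the deterministic theorem -/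

/-- The static part of `GHyp`. -/
structure GSt (lam : V → ℝ) (f : Lab) (mi : ℤ) (m : ℕ → ℤ) (om : ℕ → ℝ) (k : ℕ) : Prop where
  lam0 : ∀ u, 0 ≤ lam u
  lam1 : ∀ u, lam u < 1 / 4
  mi0 : 128 ≤ mi
  m64 : ∀ l < k, 64 * mi ≤ m l
  mm : ∀ l, l + 1 < k → 64 * m (l + 1) ≤ m l
  om0 : ∀ l < k, 0 < om l
  omm : ∀ l, l + 1 < k → 8 * om l ≤ om (l + 1)
  lamg : ∀ l < k, ∀ u, m l - 1 ≤ nrm u → nrm u ≤ 2 * m l + 1 → lam u = om l
  lamb : ∀ l < k, ∀ u, mi < 2 * nrm u → nrm u ≤ 16 * m l → om l ≤ lam u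
  cross : ∀ l < k, ¬ Arm (Low lam f) 0 (m l) (2 * m l)
  nb : ∀ l < k, ∀ u ∈ As (Low lam f) (Upp lam f), m l ≤ nrm u → nrm u ≤ 2 * m l →
    ∀ y, Adj u y → y ∈ Upp lam f → y ∈ Low lam f

/-- The static part is a property of the classes. -/
theorem GSt.congr {lam : V → ℝ} {f F : Lab} {mi : ℤ} {m : ℕ → ℤ} {om : ℕ → ℝ} {k : ℕ}
    (h : GSt lam f mi m om k) (hL : Low lam F = Low lam f) (hU : Upp lam F = Upp lam f) :
    GSt lam F mi m om k :=
  ⟨h.lam0, h.lam1, h.mi0, h.m64, h.mm, h.om0, h.omm, h.lamg, h.lamb, by rw [hL]; exact h.cross,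
    by rw [hL, hU]; exact h.nb⟩

theorem GSt.ghyp {lam : V → ℝ} {f : Lab} {rho mi : ℤ} {x t : V} {m : ℕ → ℤ} {om : ℕ → ℝ} {k : ℕ}
    (h : GSt lam f mi m om k) (f0 : ∀ u, -1 / 2 ≤ f u) (f1 : ∀ u, f u ≤ 1 / 2)
    (rho0 : 0 < k → 20 * m 0 ≤ rho) (x4 : ∀ l < k, 4 * nrm x ≤ m l) (t20 : 0 < k → 20 * m 0 ≤ nrm t)
    (xt : Conn (Op 0 f ∩ Ball 0 rho) x t)
    (low : ∀ y, Conn (Op 0 f ∩ Ball 0 rho) x y → 3 * mi < nrm y) : GHyp lam f rho mi x t m om k :=
  { lam0 := h.lam0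
    lam1 := h.lam1
    f0 := f0
    f1 := f1
    mi0 := h.mi0
    m64 := h.m64
    mm := h.mm
    rho0 := rho0
    om0 := h.om0
    omm := h.omm
    lamg := h.lamg
    lamb := h.lamb
    cross := h.cross
    nb := h.nb
    x4 := x4
    t20 := t20
    xt := xt
    low := low }

/-- The static part from good gates: the gates are the items `s 0 < s 1 < ...`, all active up to the block `i0`. -/
theorem gst_of (h : Scl R W n) (hI : Its I c n) {s : ℕ → ℕ} {k i0 : ℕ}
    (hs : ∀ l < k, s l ∈ I ∧ c (s l) = i0 ∧ s l < i0) (hss : ∀ l, l + 1 < k → s l < s (l + 1))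
    {w : Lab} (hi0 : i0 + 2 ≤ n) (hO : ∀ l < k, w ∈ GdO R W (s l))
    (hB : ∀ l < k, w ∈ GdB R W (s l)) :
    GSt (prof R W I c) (fun v => w v - 1 / 2) (2 * R (i0 + 1)) (fun l => mg R (s l))
      (fun l => W (s l)) k := by
  have hN : ∀ l < k, s l + 2 ≤ n := fun l hl => by
    have := hs l hl
    omega
  have hR : ∀ l < k, 8192 * R (s l + 1) ≤ R (s l) ∧ 8192 ≤ R (s l) ∧ 8192 ≤ R (s l + 1) :=
    fun l hl => ⟨h.rr _ (by have := hN l hl; omega), h.r0 _ (by have := hN l hl; omega),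
      h.r0 _ (by have := hN l hl; omega)⟩
  have hR0 : ∀ l < k, 8192 * R i0 ≤ R (s l) := fun l hl => by
    have := hs l hl
    exact h.anti this.2.2 (by omega)
  have hi1 := h.rr i0 (by omega)
  have hi2 := h.r0 i0 (by omega)
  have hi3 := h.r0 (i0 + 1) (by omega)
  have hlamg : ∀ l < k, ∀ u, mg R (s l) - 1 ≤ nrm u → nrm u ≤ 2 * mg R (s l) + 1 →
      prof R W I c u = W (s l) := by
    intro l hl u h1 h2
    have h3 := hR l hl
    unfold mg at h1 h2
    exact prof_eq h hI (hs l hl).1 (by omega) (by omega)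
  refine ⟨prof_nonneg R W I c, fun u => prof_lt (by norm_num) fun i hi => h.w1 i ?_,
    ?_, ?_, ?_, fun l hl => h.w0 _ (by have := hN l hl; omega), ?_, hlamg, ?_, ?_, ?_⟩
  · have := hI.ic i hi
    have := hI.cn i hi
    omega
  · omega
  · intro l hl
    have h1 := hR0 l hl
    have h2 := hR l hl
    unfold mg
    omega
  · intro l hl
    have h1 := hss l hl
    have h2 := h.anti h1 (by have := hN _ hl; omega)
    have h3 := hR _ hl
    unfold mg
    omega
  · intro l hl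
    exact h.mono (hss l hl) (by have := hN _ hl; omega)
  · intro l hl u h1 h2
    obtain ⟨a1, a2, a3⟩ := hs l hl
    have h3 := hR l hl
    refine prof_ge a1 ?_ ?_
    · rw [a2]
      omega
    · unfold mg at h2
      omega
  · intro l hl hA
    have h1 := hO l hl
    apply h1
    obtain ⟨a, ha, b, hb, hab⟩ := hA
    refine ⟨a, ha, b, hb, hab.mono ?_⟩
    rintro v ⟨hv1, hv2⟩
    refine ⟨?_, hv2⟩
    have hv3 : mg R (s l) ≤ nrm (v - 0) ∧ nrm (v - 0) ≤ 2 * mg R (s l) := hv2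
    rw [sub_zero] at hv3
    have hv4 := hlamg l hl v (by omega) (by omega)
    have hv5 : w v - 1 / 2 ≤ - prof R W I c v := hv1
    rw [hv4] at hv5
    change w v ≤ 1 / 2 - W (s l)
    linarith
  · intro l hl u hu h1 h2 y huy hy
    by_contra hyL
    have hyn := nrm_adj huy 0
    rw [sub_zero, sub_zero, abs_le] at hyn
    have hu4 := hlamg l hl u (by omega) (by omega)
    have hy4 := hlamg l hl y (by omega) (by omega)
    obtain ⟨hu1, hu2⟩ := as_cl hu
    have hy1 : ¬ (w y - 1 / 2 ≤ - prof R W I c y) := hyL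
    have hy2 : w y - 1 / 2 ≤ - prof R W I c y ∨ w y - 1 / 2 < 2 * prof R W I c y := hy
    have hy3 := hy2.resolve_left hy1
    rw [not_le] at hy1
    rw [hy4] at hy1 hy3
    rw [hu4] at hu1 hu2
    have h3 := hR l hl
    have h0 := h.w0 (s l) (by have := hN l hl; omega)
    refine hB l hl u y h1 h2 huy ?_ ?_ (mx_mxg h hI (hN l hl) ?_ hu.2.2)
    · rw [abs_lt]
      constructor <;> linarith
    · rw [abs_lt]
      constructor <;> linarith
    · unfold mg at h1
      omega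

end Pool.Agent.MSTG
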