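import Pool.Agent.MSTG.ChL
import Pool.Agent.MSTG.Gdet
import Pool.Agent.MSTG.Prof

/-! # The gain, G13: the whole relabelling

(problem MP_e1ab72_pr, parts (G) and (S); helper50)

The relabelling is the composition of three steps: `smap` (1: raised, 2 and 3: lowered), the step `rmap` of part (G), and `tmap` (1: lowered).
`RS` is the set of the raised vertices, `L6`, `L2` the sets of the vertices lowered in the first step, `UU` the set of the vertices lowered in
the last step (`Sts`: all of them in `As`, disjoint, outside of the gates).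
* `cmap i l x`: the composition; `cmap_aff`: it is affine, with the slope `csl i`, at least `1 / 96`.
* `step1`: the first step.
* `gain_comp`: the properties `GOut` of the final configuration. -/

set_option autoImplicit false

namespace Pool.Agent.MSTG

open Pool.Agent.TriPerc Pool.Agent.MST Set

/-- The maps of the first step. -/
noncomputable def smap (a : Fin 4) (l x : ℝ) : ℝ :=
  if a = 1 then 3 * l / 2 + x / 2
  else if a = 2 then -l + (x + l) / 6
  else if a = 3 then -l + x / 2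
  else x

/-- The maps of the last step. -/
noncomputable def tmap (b : Fin 2) (l x : ℝ) : ℝ := if b = 1 then -l + x / 2 else x

/-- The composition of the three steps. -/
noncomputable def cmap (i : Fin 4 × Fin 6 × Fin 2) (l x : ℝ) : ℝ :=
  tmap i.2.2 l (rmap i.2.1 l (smap i.1 l x))

/-- The slope of `smap`. -/
noncomputable def ssl (a : Fin 4) : ℝ := if a = 1 then 1 / 2 else if a = 2 then 1 / 6 else
  if a = 3 then 1 / 2 else 1

/-- The slope of `rmap`. -/
noncomputable def rsl (c : Fin 6) : ℝ := if c = 1 then 1 / 2 else if c = 2 then 1 / 2 else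
  if c = 3 then 1 / 8 else if c = 4 then 1 / 4 else if c = 5 then 1 / 4 else 1

/-- The slope of `tmap`. -/
noncomputable def tsl (b : Fin 2) : ℝ := if b = 1 then 1 / 2 else 1

/-- The slope of `cmap`. -/
noncomputable def csl (i : Fin 4 × Fin 6 × Fin 2) : ℝ := tsl i.2.2 * (rsl i.2.1 * ssl i.1)

theorem smap_aff (a : Fin 4) (l x y : ℝ) : smap a l x = smap a l y + ssl a * (x - y) := by
  unfold smap ssl
  split_ifs <;> ring

theorem rmap_aff (c : Fin 6) (l x y : ℝ) : rmap c l x = rmap c l y + rsl c * (x - y) := by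
  unfold rmap rsl
  split_ifs <;> ring

theorem tmap_aff (b : Fin 2) (l x y : ℝ) : tmap b l x = tmap b l y + tsl b * (x - y) := by
  unfold tmap tsl
  split_ifs <;> ring

/-- The composition is affine. -/
theorem cmap_aff (i : Fin 4 × Fin 6 × Fin 2) (l x y : ℝ) :
    cmap i l x = cmap i l y + csl i * (x - y) := by
  unfold cmap csl
  rw [tmap_aff i.2.2 l (rmap i.2.1 l (smap i.1 l x)) (rmap i.2.1 l (smap i.1 l y)),
    rmap_aff i.2.1 l (smap i.1 l x) (smap i.1 l y), smap_aff i.1 l x y]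
  ring

theorem ssl_ge (a : Fin 4) : 1 / 6 ≤ ssl a := by
  unfold ssl
  split_ifs <;> norm_num

theorem rsl_ge (c : Fin 6) : 1 / 8 ≤ rsl c := by
  unfold rsl
  split_ifs <;> norm_num

theorem tsl_ge (b : Fin 2) : 1 / 2 ≤ tsl b := by
  unfold tsl
  split_ifs <;> norm_num

theorem csl_ge (i : Fin 4 × Fin 6 × Fin 2) : 1 / 96 ≤ csl i := by
  have h1 := ssl_ge i.1
  have h2 := rsl_ge i.2.1
  have h3 := tsl_ge i.2.2
  have h4 : 1 / 8 * (1 / 6) ≤ rsl i.2.1 * ssl i.1 :=
    mul_le_mul h2 h1 (by norm_num) (by linarith)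
  have h5 : 1 / 2 * (1 / 8 * (1 / 6)) ≤ tsl i.2.2 * (rsl i.2.1 * ssl i.1) :=
    mul_le_mul h3 h4 (by norm_num) (by linarith)
  unfold csl
  linarith

theorem cmap_zero (l x : ℝ) : cmap (0, 0, 0) l x = x := by
  unfold cmap
  rfl

/-- The indices of the first step. -/
noncomputable def k1 (RS L6 L2 : Set V) (u : V) : Fin 4 := by
  classical
  exact if u ∈ RS then 1 else if u ∈ L6 then 2 else if u ∈ L2 then 3 else 0

/-- The indices of the last step. -/
noncomputable def k3 (UU : Set V) (u : V) : Fin 2 := by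
  classical
  exact if u ∈ UU then 1 else 0

/-- The first step. -/
noncomputable def step1 (RS L6 L2 : Set V) (lam : V → ℝ) (f : Lab) : Lab :=
  fun u => smap (k1 RS L6 L2 u) (lam u) (f u)

/-- The sets of the relabelled vertices outside of the gates. -/
structure Sts (lam : V → ℝ) (f : Lab) (m : ℕ → ℤ) (k : ℕ) (RS L6 L2 UU : Set V) : Prop where
  rs : ∀ u ∈ RS, u ∈ As (Low lam f) (Upp lam f) ∧ f u ≤ 0
  l6 : ∀ u ∈ L6, u ∈ As (Low lam f) (Upp lam f)
  l2 : ∀ u ∈ L2, u ∈ As (Low lam f) (Upp lam f) ∧ 0 < f u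
  uu : ∀ u ∈ UU, u ∈ As (Low lam f) (Upp lam f) ∧ 0 < f u
  rs6 : ∀ u ∈ RS, u ∉ L6
  l62 : ∀ u ∈ L6, u ∉ L2
  l6u : ∀ u ∈ L6, u ∉ UU
  l2u : ∀ u ∈ L2, u ∉ UU
  offr : ∀ u ∈ RS, ∀ l < k, nrm u < m l - 1 ∨ 2 * m l + 1 < nrm u
  off6 : ∀ u ∈ L6, ∀ l < k, nrm u < m l - 1 ∨ 2 * m l + 1 < nrm u
  off2 : ∀ u ∈ L2, ∀ l < k, nrm u < m l - 1 ∨ 2 * m l + 1 < nrm u
  offu : ∀ u ∈ UU, ∀ l < k, nrm u < m l - 1 ∨ 2 * m l + 1 < nrm u
  far : ∀ u ∈ UU, 10 * m 0 + 1 < nrm u

/-- The open set after the first step. -/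
def Op1 (f : Lab) (RS L6 L2 : Set V) : Set V := {u | (u ∈ Op 0 f ∧ u ∉ RS) ∨ u ∈ L6 ∨ u ∈ L2}

/-- The properties of the final configuration `F`. -/
structure GOut (lam : V → ℝ) (f F : Lab) (rho lo : ℤ) (x t : V) (m : ℕ → ℤ) (om : ℕ → ℝ) (k : ℕ)
    (RS L6 L2 UU : Set V) : Prop where
  low : Low lam F = Low lam f
  upp : Upp lam F = Upp lam f
  rng : ∀ u, -1 / 2 ≤ F u ∧ F u ≤ 1 / 2
  op : ∀ u, u ∈ Op 0 F → u ∈ Op1 f RS L6 L2 ∨ u ∈ UU
  po : ∀ u, u ∈ Op1 f RS L6 L2 → u ∉ Op 0 F →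
    Conn (Op1 f RS L6 L2 ∩ Ball 0 rho) x u ∧ ∃ l < k, m l - 1 ≤ nrm u ∧ nrm u ≤ 2 * m l + 1
  opu : ∀ u ∈ UU, u ∈ Op 0 F
  op6 : ∀ u ∈ L6, u ∈ Op 0 F
  op2 : ∀ u ∈ L2, u ∈ Op 0 F
  rs0 : ∀ u ∈ RS, 0 < F u
  same : ∀ u ∈ Op 0 f, u ∉ RS → u ∉ L6 → F u ≠ f u →
    Conn (Op1 f RS L6 L2 ∩ Ball 0 rho) x u ∧ ∃ l < k, m l - 1 ≤ nrm u ∧ nrm u ≤ 2 * m l + 1
  l6 : ∀ u ∈ L6, F u < - lam u / 2
  le6 : ∀ u ∈ L6, F u ≤ f u
  chain : ∃ v p z, Chain F rho lo x t m om k v p z ∧
    ∀ l < k, Conn (Op1 f RS L6 L2 ∩ Ball 0 rho) x (v l)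

private theorem rm0' (l x : ℝ) : rmap 0 l x = x := by
  unfold rmap
  rfl

private theorem rm1' (l x : ℝ) : rmap 1 l x = l + x / 2 := by
  unfold rmap
  rfl

section Step1

variable {lam : V → ℝ} {f : Lab} {m : ℕ → ℤ} {k : ℕ} {RS L6 L2 UU : Set V}

private theorem s_rs {u : V} (hu : u ∈ RS) :
    step1 RS L6 L2 lam f u = 3 * lam u / 2 + f u / 2 := by
  unfold step1 smap k1
  rw [if_pos hu, if_pos rfl]

private theorem s_l6 {u : V} (h0 : u ∉ RS) (hu : u ∈ L6) :
    step1 RS L6 L2 lam f u = - lam u + (f u + lam u) / 6 := by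
  unfold step1 smap k1
  rw [if_neg h0, if_pos hu, if_neg (by decide), if_pos rfl]

private theorem s_l2 {u : V} (h0 : u ∉ RS) (h1 : u ∉ L6) (hu : u ∈ L2) :
    step1 RS L6 L2 lam f u = - lam u + f u / 2 := by
  unfold step1 smap k1
  rw [if_neg h0, if_neg h1, if_pos hu, if_neg (by decide), if_neg (by decide), if_pos rfl]

private theorem s_id {u : V} (h0 : u ∉ RS) (h1 : u ∉ L6) (h2 : u ∉ L2) :
    step1 RS L6 L2 lam f u = f u := by
  unfold step1 smap k1
  rw [if_neg h0, if_neg h1, if_neg h2, if_neg (by decide), if_neg (by decide), if_neg (by decide)]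

/-- The cases of the first step. -/
private theorem s_cases (hS : Sts lam f m k RS L6 L2 UU) (u : V) :
    (u ∈ RS ∧ step1 RS L6 L2 lam f u = 3 * lam u / 2 + f u / 2 ∧ - lam u < f u ∧ f u ≤ 0) ∨
    (u ∈ L6 ∧ step1 RS L6 L2 lam f u = - lam u + (f u + lam u) / 6 ∧ - lam u < f u ∧
      f u < 2 * lam u) ∨
    (u ∈ L2 ∧ step1 RS L6 L2 lam f u = - lam u + f u / 2 ∧ 0 < f u ∧ f u < 2 * lam u) ∨
    (u ∉ RS ∧ u ∉ L6 ∧ u ∉ L2 ∧ step1 RS L6 L2 lam f u = f u) := by
  by_cases h0 : u ∈ RS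
  · obtain ⟨h1, h2⟩ := hS.rs u h0
    exact Or.inl ⟨h0, s_rs h0, (as_cl h1).1, h2⟩
  · by_cases h1 : u ∈ L6
    · obtain ⟨h2, h3⟩ := as_cl (hS.l6 u h1)
      exact Or.inr (Or.inl ⟨h1, s_l6 h0 h1, h2, h3⟩)
    · by_cases h2 : u ∈ L2
      · obtain ⟨h3, h4⟩ := hS.l2 u h2
        exact Or.inr (Or.inr (Or.inl ⟨h2, s_l2 h0 h1 h2, h4, (as_cl h3).2⟩))
      · exact Or.inr (Or.inr (Or.inr ⟨h0, h1, h2, s_id h0 h1 h2⟩))

theorem step1_low (hS : Sts lam f m k RS L6 L2 UU) :
    Low lam (step1 RS L6 L2 lam f) = Low lam f := by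
  ext u
  change step1 RS L6 L2 lam f u ≤ - lam u ↔ f u ≤ - lam u
  rcases s_cases hS u with ⟨-, h1, h2, h3⟩ | ⟨-, h1, h2, h3⟩ | ⟨-, h1, h2, h3⟩ | ⟨-, -, -, h1⟩
  · rw [h1]
    constructor <;> intro h <;> linarith
  · rw [h1]
    constructor <;> intro h <;> linarith
  · rw [h1]
    constructor <;> intro h <;> linarith
  · rw [h1]

theorem step1_upp (hS : Sts lam f m k RS L6 L2 UU) :
    Upp lam (step1 RS L6 L2 lam f) = Upp lam f := by
  ext u
  change (step1 RS L6 L2 lam f u ≤ - lam u ∨ step1 RS L6 L2 lam f u < 2 * lam u) ↔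
    (f u ≤ - lam u ∨ f u < 2 * lam u)
  rcases s_cases hS u with ⟨-, h1, h2, h3⟩ | ⟨-, h1, h2, h3⟩ | ⟨-, h1, h2, h3⟩ | ⟨-, -, -, h1⟩
  · rw [h1]
    constructor <;> intro _ <;> right <;> linarith
  · rw [h1]
    constructor <;> intro _ <;> right <;> linarith
  · rw [h1]
    constructor <;> intro _ <;> right <;> linarith
  · rw [h1]

theorem step1_rng (hS : Sts lam f m k RS L6 L2 UU) (hl1 : ∀ u, lam u < 1 / 4)
    (hf : ∀ u, -1 / 2 ≤ f u ∧ f u ≤ 1 / 2) (u : V) :
    -1 / 2 ≤ step1 RS L6 L2 lam f u ∧ step1 RS L6 L2 lam f u ≤ 1 / 2 := by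
  have g1 := hl1 u
  have g2 := hf u
  rcases s_cases hS u with ⟨-, h1, h2, h3⟩ | ⟨-, h1, h2, h3⟩ | ⟨-, h1, h2, h3⟩ | ⟨-, -, -, h1⟩
  · rw [h1]
    constructor <;> linarith
  · rw [h1]
    constructor <;> linarith
  · rw [h1]
    constructor <;> linarith
  · rw [h1]
    exact g2

theorem step1_op (hS : Sts lam f m k RS L6 L2 UU) :
    Op 0 (step1 RS L6 L2 lam f) = Op1 f RS L6 L2 := by
  ext u
  change step1 RS L6 L2 lam f u ≤ 0 ↔ (f u ≤ 0 ∧ u ∉ RS) ∨ u ∈ L6 ∨ u ∈ L2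
  rcases s_cases hS u with ⟨h0, h1, h2, h3⟩ | ⟨h0, h1, h2, h3⟩ | ⟨h0, h1, h2, h3⟩ | ⟨a, b, c, h1⟩
  · rw [h1]
    constructor
    · intro h
      linarith
    · rintro (h | h | h)
      · exact absurd h0 h.2
      · exact absurd h (hS.rs6 u h0)
      · have := (hS.l2 u h).2
        linarith
  · rw [h1]
    exact ⟨fun _ => Or.inr (Or.inl h0), fun _ => by linarith⟩
  · rw [h1]
    exact ⟨fun _ => Or.inr (Or.inr h0), fun _ => by linarith⟩
  · rw [h1]
    constructor
    · exact fun h => Or.inl ⟨h, a⟩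
    · rintro (h | h | h)
      · exact h.1
      · exact absurd h b
      · exact absurd h c

end Step1

/-- The whole relabelling. -/
theorem gain_comp {lam : V → ℝ} {f : Lab} {rho mi lo : ℤ} {x t : V} {m : ℕ → ℤ} {om : ℕ → ℝ}
    {k : ℕ} {RS L6 L2 UU : Set V} (hG : GSt lam f mi m om k) (hS : Sts lam f m k RS L6 L2 UU)
    (hf : ∀ u, -1 / 2 ≤ f u ∧ f u ≤ 1 / 2) (hlo : 2 * lo ≤ mi)
    (rho0 : 0 < k → 20 * m 0 ≤ rho) (x4 : ∀ l < k, 4 * nrm x ≤ m l) (t20 : 0 < k → 20 * m 0 ≤ nrm t)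
    (xt : Conn (Op1 f RS L6 L2 ∩ Ball 0 rho) x t)
    (low : ∀ y, Conn (Op1 f RS L6 L2 ∩ Ball 0 rho) x y → 3 * mi < nrm y) :
    ∃ κ : V → Fin 4 × Fin 6 × Fin 2,
      (∀ u, κ u ≠ (0, 0, 0) → u ∈ FN lam f) ∧
      FN lam (fun u => cmap (κ u) (lam u) (f u)) = FN lam f ∧
      GOut lam f (fun u => cmap (κ u) (lam u) (f u)) rho lo x t m om k RS L6 L2 UU := by
  obtain ⟨F1, hF1⟩ : ∃ F1, F1 = step1 RS L6 L2 lam f := ⟨_, rfl⟩
  have e1 : Low lam F1 = Low lam f := by rw [hF1]; exact step1_low hS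
  have e2 : Upp lam F1 = Upp lam f := by rw [hF1]; exact step1_upp hS
  have e3 : Op 0 F1 = Op1 f RS L6 L2 := by rw [hF1]; exact step1_op hS
  have e4 : ∀ u, -1 / 2 ≤ F1 u ∧ F1 u ≤ 1 / 2 := by
    rw [hF1]
    exact step1_rng hS hG.lam1 hf
  have hH : GHyp lam F1 rho mi x t m om k :=
    (hG.congr e1 e2).ghyp (fun u => (e4 u).1) (fun u => (e4 u).2) rho0 x4 t20 (by rw [e3]; exact xt)
      (by rw [e3]; exact low)
  obtain ⟨κ, v, p, z, ha, hb1, hb2, hc, hd, he, hh, hr, hi, hj, hvx, hch⟩ := gain_det hH hlo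
  rw [e3] at hvx
  rw [e1, e2] at ha hh
  rw [e1] at hb1
  rw [e2] at hb2
  rw [e3] at hc hd he
  obtain ⟨F2, hF2⟩ : ∃ F2, F2 = relab κ lam F1 := ⟨_, rfl⟩
  rw [← hF2] at hb1 hb2 hc hd hh hr hch
  have f2 : ∀ u, F2 u = rmap (κ u) (lam u) (F1 u) := fun u => by rw [hF2]; rfl
  -- off the gates
  have off : ∀ u, (∀ l < k, nrm u < m l - 1 ∨ 2 * m l + 1 < nrm u) → κ u = 0 ∨ κ u = 1 := by
    intro u hu
    by_contra hcon
    rw [not_or] at hcon
    obtain ⟨l, hl, h1, h2⟩ := hj u hcon.1 hcon.2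
    rcases hu l hl with h3 | h3 <;> omega
  have cls : ∀ u, F1 u ≤ 0 → κ u ≠ 1 := fun u h1 h2 => by
    have := hi u h2
    linarith
  -- positive labels stay positive
  have pos : ∀ u, 0 < F1 u → 0 < F2 u := by
    intro u hu
    by_cases h0 : κ u = 0
    · rw [f2, h0, rm0']
      exact hu
    · by_cases h1 : κ u = 1
      · rw [f2, h1, rm1']
        have := hG.lam0 u
        linarith
      · have h2 := (he u h0 h1).right.1
        rw [← e3] at h2
        have h3 : F1 u ≤ 0 := h2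
        linarith
  -- the first step
  have sUU : ∀ u ∈ UU, u ∉ RS ∧ u ∉ L6 ∧ u ∉ L2 := by
    intro u hu
    refine ⟨fun h => ?_, fun h => hS.l6u u h hu, fun h => hS.l2u u h hu⟩
    have h1 := (hS.rs u h).2
    have h2 := (hS.uu u hu).2
    linarith
  have uF1 : ∀ u ∈ UU, F1 u = f u := fun u hu => by
    rw [hF1]
    exact s_id (sUU u hu).1 (sUU u hu).2.1 (sUU u hu).2.2
  have uF2 : ∀ u ∈ UU, 0 < F2 u ∧ F2 u < 2 * lam u ∧ 0 < lam u := by
    intro u hu
    have h1 : 0 < F2 u := pos u (by rw [uF1 u hu]; exact (hS.uu u hu).2)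
    have h2 : u ∈ Upp lam F2 := by
      rw [hb2]
      exact (hS.uu u hu).1.1
    have h3 := hG.lam0 u
    have h4 : F2 u ≤ - lam u ∨ F2 u < 2 * lam u := h2
    have h5 := h4.resolve_left (by linarith)
    exact ⟨h1, h5, by linarith⟩
  -- the final configuration
  obtain ⟨F, hF⟩ : ∃ F : Lab, F = fun u => cmap (k1 RS L6 L2 u, κ u, k3 UU u) (lam u) (f u) :=
    ⟨_, rfl⟩
  have fF : ∀ u, F u = tmap (k3 UU u) (lam u) (F2 u) := fun u => by
    rw [hF, f2, hF1]
    rfl
  have fU : ∀ u ∈ UU, F u = - lam u + F2 u / 2 := fun u hu => by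
    rw [fF]
    unfold k3 tmap
    rw [if_pos hu, if_pos rfl]
  have fN : ∀ u, u ∉ UU → F u = F2 u := fun u hu => by
    rw [fF]
    unfold k3 tmap
    rw [if_neg hu, if_neg (by decide)]
  have c1 : Low lam F = Low lam f := by
    rw [← hb1]
    ext u
    change F u ≤ - lam u ↔ F2 u ≤ - lam u
    by_cases hu : u ∈ UU
    · obtain ⟨h1, h2, h3⟩ := uF2 u hu
      rw [fU u hu]
      constructor <;> intro h <;> linarith
    · rw [fN u hu]
  have c2 : Upp lam F = Upp lam f := by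
    rw [← hb2]
    ext u
    change (F u ≤ - lam u ∨ F u < 2 * lam u) ↔ (F2 u ≤ - lam u ∨ F2 u < 2 * lam u)
    by_cases hu : u ∈ UU
    · obtain ⟨h1, h2, h3⟩ := uF2 u hu
      rw [fU u hu]
      constructor <;> intro _ <;> right <;> linarith
    · rw [fN u hu]
  have key : ∀ u ∈ Op1 f RS L6 L2, F2 u ≠ F1 u →
      Conn (Op1 f RS L6 L2 ∩ Ball 0 rho) x u ∧ ∃ l < k, m l - 1 ≤ nrm u ∧ nrm u ≤ 2 * m l + 1 := by
    intro u hu h1
    have h2 : F1 u ≤ 0 := by
      rw [← e3] at hu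
      exact hu
    have h3 : κ u ≠ 0 := fun h => h1 (by rw [f2, h, rm0'])
    exact ⟨he u h3 (cls u h2), hj u h3 (cls u h2)⟩
  have c6 : ∀ u ∈ L6, F u < - lam u / 2 ∧ F u ≤ f u := by
    intro u hu
    have h0 : u ∉ RS := fun h => hS.rs6 u h hu
    have h1 := as_cl (hS.l6 u hu)
    have h2 : F1 u = - lam u + (f u + lam u) / 6 := by
      rw [hF1]
      exact s_l6 h0 hu
    have h3 : F2 u = F1 u := by
      rcases off u (hS.off6 u hu) with h3 | h3
      · rw [f2, h3, rm0']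
      · exact absurd h3 (cls u (by rw [h2]; linarith))
    rw [fN u (hS.l6u u hu), h3, h2]
    constructor <;> linarith
  have c4 : ∀ u ∈ L2, F u ≤ 0 := by
    intro u hu
    have h0 : u ∉ RS := fun h => by
      have h1 := (hS.rs u h).2
      have h2 := (hS.l2 u hu).2
      linarith
    have h0' : u ∉ L6 := fun h => hS.l62 u h hu
    have h1 := as_cl (hS.l2 u hu).1
    have h2 : F1 u = - lam u + f u / 2 := by
      rw [hF1]
      exact s_l2 h0 h0' hu
    have h3 : F2 u = F1 u := by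
      rcases off u (hS.off2 u hu) with h3 | h3
      · rw [f2, h3, rm0']
      · exact absurd h3 (cls u (by rw [h2]; linarith))
    rw [fN u (hS.l2u u hu), h3, h2]
    linarith
  have cU : ∀ u ∈ UU, F u ≤ 0 := by
    intro u hu
    obtain ⟨h1, h2, h3⟩ := uF2 u hu
    rw [fU u hu]
    linarith
  refine ⟨fun u => (k1 RS L6 L2 u, κ u, k3 UU u), ?_, ?_, ?_⟩
  · intro u hu
    by_cases h1 : u ∈ RS
    · exact Or.inl (hS.rs u h1).1
    by_cases h2 : u ∈ L6
    · exact Or.inl (hS.l6 u h2)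
    by_cases h3 : u ∈ L2
    · exact Or.inl (hS.l2 u h3).1
    by_cases h4 : u ∈ UU
    · exact Or.inl (hS.uu u h4).1
    refine ha u fun h5 => hu ?_
    have h6 : k1 RS L6 L2 u = 0 := by
      unfold k1
      rw [if_neg h1, if_neg h2, if_neg h3]
    have h7 : k3 UU u = 0 := by
      unfold k3
      rw [if_neg h4]
    change (k1 RS L6 L2 u, κ u, k3 UU u) = (0, 0, 0)
    rw [h5, h6, h7]
  · rw [← hF]
    unfold FN
    rw [c1, c2]
  · rw [← hF]
    refine
      { low := c1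
        upp := c2
        rng := ?_
        op := ?_
        po := ?_
        opu := cU
        op6 := fun u hu => ?_
        op2 := c4
        rs0 := ?_
        same := ?_
        l6 := fun u hu => (c6 u hu).1
        le6 := fun u hu => (c6 u hu).2
        chain := ⟨v, p, z, chain_far hch ?_ ?_ ?_, hvx⟩ }
    · intro u
      by_cases hu : u ∈ UU
      · obtain ⟨h1, h2, h3⟩ := uF2 u hu
        have h4 := hG.lam1 u
        rw [fU u hu]
        constructor <;> linarith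
      · rw [fN u hu]
        exact hr u
    · intro u hu
      by_cases h1 : u ∈ UU
      · exact Or.inr h1
      · have h2 : F u ≤ 0 := hu
        rw [fN u h1] at h2
        exact Or.inl (hc h2)
    · intro u hu h1
      have h2 : u ∉ UU := fun h => h1 (cU u h)
      refine key u hu fun h3 => h1 ?_
      have h4 : F1 u ≤ 0 := by
        rw [← e3] at hu
        exact hu
      change F u ≤ 0
      rw [fN u h2, h3]
      exact h4
    · have h1 := (c6 u hu).1
      have h2 := hG.lam0 u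
      change F u ≤ 0
      linarith
    · intro u hu
      have h1 := hS.rs u hu
      have h2 : F1 u = 3 * lam u / 2 + f u / 2 := by
        rw [hF1]
        exact s_rs hu
      have h3 : u ∉ UU := fun h => (sUU u h).1 hu
      have h4 := (as_cl h1.1).1
      rw [fN u h3]
      refine pos u ?_
      rw [h2]
      linarith
    · intro u hu h1 h2 h3
      have h4 : f u ≤ 0 := hu
      have h5 : u ∉ UU := fun h => by
        have := (hS.uu u h).2
        linarith
      have h6 : u ∉ L2 := fun h => by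
        have := (hS.l2 u h).2
        linarith
      have h7 : F1 u = f u := by
        rw [hF1]
        exact s_id h1 h2 h6
      refine key u (Or.inl ⟨hu, h1⟩) fun h8 => h3 ?_
      rw [fN u h5, h8, h7]
    · intro l hl
      have hm0 : ∀ l < k, 64 ≤ m l := fun l hl => by
        have := hG.m64 l hl
        have := hG.mi0
        omega
      have hmono : ∀ l < k, m l ≤ m 0 := by
        intro l
        induction l with
        | zero => exact fun _ => le_rfl
        | succ l ih =>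
          intro hl
          have h1 := ih (by omega)
          have h2 := hG.mm l hl
          have h3 := hm0 (l + 1) hl
          omega
      exact ⟨by have := hm0 l hl; omega, hmono l hl⟩
    · intro u hu
      refine fN u fun h => ?_
      have := hS.far u h
      omega
    · intro u hu
      by_cases h1 : u ∈ UU
      · exact cU u h1
      · have h2 : F2 u ≤ 0 := hu
        change F u ≤ 0
        rw [fN u h1]
        exact h2

end Pool.Agent.MSTG
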