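import Pool.Agent.MST.Defs
import Pool.Agent.TriPerc.FourG

/-! # The gain, G1: the switching lemma and minimal cuts

(problem MP_e1ab72_pr, part (G); architect helper50; proofs helper91)

PROOFS.
* `hit`: if `x`, `y` are joined in `insert u S` but not in `S`, and `x, y ∈ S`, then `u` has neighbours `p`, `q` with `Conn S x p`, `Conn S y q`.
  By symmetry it is enough to find `p`. Apply `Conn.exit` to the path with `A = comp S x`: there are `a ∈ A`, `b ∉ A`, `Adj a b`, with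
  `b ∈ insert u S` (`Conn.left` of the remaining path); `b ∈ S` would give `b ∈ A` (`comp_adj`), so `b = u`, and `p = a`.
* `switch`: `Conn.finset` gives a finite connected set `K ⊆ S1` with `x, y ∈ K`. Among the subsets `F` of `K` with `¬ Conn (S0 ∪ F) x y` (the empty
  set is one of them) take one with the largest number of elements, `S' = S0 ∪ F`. `K ⊆ S'` is impossible (`IsConn K`), so there is `u ∈ K`
  outside `S'`. By maximality (`insert u F`) `x`, `y` are joined in `insert u S'`. `hit`.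
* `mincut`: among the subsets `T` of the finite set `C` with `∀ o ∈ Out, ¬ Conn (X \ T) x o` (`C` is one of them) take one with the smallest
  number of elements. Let `u ∈ T`. `T \ {u}` does not cut: `Conn (X \ (T \ {u})) x o` for some `o ∈ Out`; `X \ (T \ {u}) ⊆ insert u (X \ T)`;
  `x ∉ C`, `o ∉ C` (`hO`), so `x, o ∈ X \ T`, and `u ∈ X` (otherwise `X \ (T \ {u}) = X \ T`, contradiction). `hit`.
* `fg_two`: `p ~ a` and `q ~ b` in `S`, not `p ~ q`, `p`, `q` neighbours of `u`, `a`, `b` at distance at least `d` from `u`: `fg_of_reach` with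
  `G = EG S`, `D = univ`, `n = 2`, `m = d` (`cut_eg`, `reach_eg`; `EG S ≤ EG univ` by `eg_mono`; the neighbours of `u` have distance at most
  `1` by `nrm_adj` with `nrm (u - u) = 0`). -/

set_option autoImplicit false

namespace Pool.Agent.MSTG

open Pool.Agent.TriPerc Pool.Agent.MST Set

private theorem hit_half {S : Set V} {x y u : V} (hx : x ∈ S) (h0 : ¬ Conn S x y)
    (h1 : Conn (insert u S) x y) : ∃ p, Adj u p ∧ Conn S x p := by
  have hx' : x ∈ comp S x := Conn.refl hx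
  obtain ⟨a, b, ha, hb, hab, -, h3⟩ := h1.exit (A := comp S x) hx' h0
  have hbS : b ∈ insert u S := h3.left
  rcases hbS with rfl | hbS
  · exact ⟨a, hab.symm, ha⟩
  · exact absurd (comp_adj ha hbS hab) hb

theorem hit {S : Set V} {x y u : V} (hx : x ∈ S) (hy : y ∈ S) (h0 : ¬ Conn S x y)
    (h1 : Conn (insert u S) x y) :
    (∃ p, Adj u p ∧ Conn S x p) ∧ ∃ q, Adj u q ∧ Conn S y q :=
  ⟨hit_half hx h0 h1, hit_half hy (fun h => h0 h.symm) h1.symm⟩

/-- The switching lemma. -/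
theorem switch {S0 S1 : Set V} {x y : V} (h01 : S0 ⊆ S1) (hx : x ∈ S0) (hy : y ∈ S0)
    (h0 : ¬ Conn S0 x y) (h1 : Conn S1 x y) :
    ∃ S' u p q, S0 ⊆ S' ∧ S' ⊆ S1 ∧ u ∈ S1 ∧ u ∉ S' ∧ ¬ Conn S' x y ∧
      Adj u p ∧ Conn S' x p ∧ Adj u q ∧ Conn S' y q := by
  classical
  obtain ⟨K, hK, hxK, hyK, hKc⟩ := h1.finset
  have hne : (K.powerset.filter fun F : Finset V => ¬ Conn (S0 ∪ (F : Set V)) x y).Nonempty := by
    refine ⟨∅, ?_⟩
    rw [Finset.mem_filter, Finset.coe_empty, Set.union_empty]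
    exact ⟨Finset.empty_mem_powerset _, h0⟩
  obtain ⟨F, hF, hmax⟩ := Finset.exists_max_image _ Finset.card hne
  rw [Finset.mem_filter, Finset.mem_powerset] at hF
  obtain ⟨hFK, hF⟩ := hF
  have hnot : ¬ (K : Set V) ⊆ S0 ∪ (F : Set V) := fun h => hF ((hKc x hxK y hyK).mono h)
  obtain ⟨u, huK, hu⟩ := Set.not_subset.1 hnot
  have h2 : Conn (insert u (S0 ∪ (F : Set V))) x y := by
    by_contra hcon
    have h3 : insert u F ∈ K.powerset.filter
        fun F : Finset V => ¬ Conn (S0 ∪ (F : Set V)) x y := by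
      rw [Finset.mem_filter, Finset.mem_powerset]
      refine ⟨Finset.insert_subset huK hFK, ?_⟩
      rwa [Finset.coe_insert, Set.union_insert]
    have h4 := hmax _ h3
    rw [Finset.card_insert_of_notMem (fun h => hu (Or.inr h))] at h4
    omega
  obtain ⟨⟨p, hp, hp'⟩, q, hq, hq'⟩ := hit (Or.inl hx) (Or.inl hy) hF h2
  exact ⟨S0 ∪ F, u, p, q, Set.subset_union_left,
    Set.union_subset h01 ((Finset.coe_subset.2 hFK).trans hK), hK huK, hu, hF, hp, hp', hq, hq'⟩

/-- Minimal cuts between a vertex and a set. -/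
theorem mincut {X C Out : Set V} {x : V} (hC : C.Finite) (hx : x ∈ X) (hxC : x ∉ C)
    (hO : Disjoint C Out) (hcut : ∀ o ∈ Out, ¬ Conn (X \ C) x o) :
    ∃ T ⊆ C, (∀ o ∈ Out, ¬ Conn (X \ T) x o) ∧ ∀ u ∈ T, u ∈ X ∧
      (∃ p, Adj u p ∧ Conn (X \ T) x p) ∧ ∃ q, Adj u q ∧ ∃ o ∈ Out, Conn (X \ T) o q := by
  classical
  obtain ⟨C', rfl⟩ : ∃ C' : Finset V, (C' : Set V) = C := ⟨hC.toFinset, hC.coe_toFinset⟩
  have hne : (C'.powerset.filter
      fun T : Finset V => ∀ o ∈ Out, ¬ Conn (X \ (T : Set V)) x o).Nonempty :=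
    ⟨C', Finset.mem_filter.2 ⟨Finset.mem_powerset_self _, hcut⟩⟩
  obtain ⟨T, hT, hmin⟩ := Finset.exists_min_image _ Finset.card hne
  rw [Finset.mem_filter, Finset.mem_powerset] at hT
  obtain ⟨hTC, hT⟩ := hT
  refine ⟨T, Finset.coe_subset.2 hTC, hT, fun u hu => ?_⟩
  have hu' : u ∈ T := hu
  have h1 : ∃ o ∈ Out, Conn (X \ ((T.erase u : Finset V) : Set V)) x o := by
    by_contra hcon
    push Not at hcon
    have h2 := hmin (T.erase u) (Finset.mem_filter.2
      ⟨Finset.mem_powerset.2 ((Finset.erase_subset _ _).trans hTC), hcon⟩)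
    rw [Finset.card_erase_of_mem hu'] at h2
    have h3 := Finset.card_pos.2 ⟨u, hu'⟩
    omega
  obtain ⟨o, ho, h2⟩ := h1
  have hsub : X \ ((T.erase u : Finset V) : Set V) ⊆ insert u (X \ (T : Set V)) := by
    rintro v ⟨hv, hv'⟩
    by_cases hvu : v = u
    · exact Or.inl hvu
    · exact Or.inr ⟨hv, fun hvT => hv' (Finset.mem_coe.2 (Finset.mem_erase.2 ⟨hvu, hvT⟩))⟩
  have hx2 : x ∈ X \ (T : Set V) := ⟨hx, fun h => hxC (hTC h)⟩
  have ho2 : o ∈ X \ (T : Set V) :=
    ⟨h2.right.1, fun h => Set.disjoint_left.1 hO (Finset.mem_coe.2 (hTC h)) ho⟩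
  have h3 := hT o ho
  obtain ⟨⟨p, hp, hp'⟩, q, hq, hq'⟩ := hit hx2 ho2 h3 (h2.mono hsub)
  refine ⟨?_, ⟨p, hp, hp'⟩, q, hq, o, ho, hq'⟩
  by_contra huX
  refine h3 (h2.mono ?_)
  rintro v ⟨hv, hv'⟩
  refine ⟨hv, fun hvT => hv' (Finset.mem_coe.2 (Finset.mem_erase.2 ⟨?_, hvT⟩))⟩
  rintro rfl
  exact huX hv

private theorem adj_one {u p : V} (h : Adj u p) : nrm (p - u) ≤ 2 := by
  have h1 := (abs_le.1 (nrm_adj h u)).2
  rw [sub_self, nrm_zero_iff.2 rfl] at h1
  omega

theorem fg_two {S : Set V} {u p q a b : V} {d : ℤ} (hp : Adj u p) (hq : Adj u q)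
    (h : ¬ Conn S p q) (hpa : Conn S p a) (hqb : Conn S q b) (ha : d ≤ nrm (a - u))
    (hb : d ≤ nrm (b - u)) (hd : 3 ≤ d) : FourG (EG S) u 2 d := by
  have e : cut (EG S) Set.univ = EG S := by
    rw [cut_eg, Set.inter_univ]
  refine fg_of_reach (D := Set.univ) (eg_mono (Set.subset_univ _)) ?_ ?_ ?_ (adj_one hp) ha
    (adj_one hq) hb (by omega) (Set.subset_univ _)
  · rw [e]
    exact (reach_eg hpa.left).2 hpa
  · rw [e]
    exact (reach_eg hqb.left).2 hqb
  · rw [e]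
    intro hr
    exact h ((reach_eg hpa.left).1 hr)

end Pool.Agent.MSTG
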