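import Pool.Agent.MSTG.Defs
import Pool.Agent.MSTG.Swi

/-! # The gain, G5: confinement

(problem MP_e1ab72_pr, part (G); architect helper50)

`O` is the open set of the final configuration, `H` a set of further vertices (labels between `0`
and the level of a gate), none of them with mixed four arms.
If `u` is a switching vertex or a vertex of a minimal cut, then it would have four arms: `fg_two`
gives `FourG (EG S') u 2 (dd u)` with `Lo ⊆ O ⊆ S' ⊆ O ∪ H ⊆ Up`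
(`eg_mono`), so `Mx Lo Up u` with `G = EG S'` (`3 ≤ dd u` because `48 ≤ nrm u`).

PROOFS.
* `conf_sep`: `switch` with `S0 = O`, `S1 = O ∪ H` gives `S'`, `u ∈ H` (`u ∉ S' ⊇ O`), `p`, `q`. By
`hx`, `hy` there are `a`, `b` far from `u` with `Conn O x a`,
  `Conn O y b`; so `p ~ x ~ a`, `q ~ y ~ b` in `S'`, and `p ~ q` would give `x ~ y`. Hence
`Mx Lo Up u`, contradiction.
* `conf_out`: suppose `Conn (O ∪ H) x y`, `10 m ≤ nrm y`. Let `Z = {u ∈ H | u ∈ Ann 0 (4 m) (8 m)}`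
(finite: `finite_ann`), `S = (O ∪ H) \ Z`.
  Case 1: there is `o` with `10 m ≤ nrm o` and `Conn S x o`. `Conn.in_comp` and `arm_of_conn`
(centre `0`, `nrm x < 3 m`) give a crossing of `Ann 0 (4 m) (8 m)` in
  `comp S x`: points `a1`, `a2` with `nrm a1 ≤ 4 m`, `8 m ≤ nrm a2`,
`Conn (comp S x ∩ Ann ..) a1 a2`. In this annulus `S` is contained in `O`, so `Conn O a1 a2`; and
  `Conn (O ∪ H) x a1`. `¬ Conn O x a1` because `4 m ≤ nrm a1` (`hb`). `conf_sep` for `x`, `a1`: the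
spread of `a1`: if `nrm u ≤ 6 m` then
  `nrm (a2 - u) ≥ 8 m - nrm u ≥ 2 m ≥ dd u`; if `6 m < nrm u ≤ 16 m` then
`nrm (a1 - u) ≥ nrm u - 4 m ≥ 2 m ≥ dd u`. Contradiction.
  Case 2: otherwise `mincut` with `X = O ∪ H`, `C = Z`, `Out = {o | 10 m ≤ nrm o}` (`x ∉ Z` since
`x ∈ O`, `hd`) gives `T ⊆ Z`. `T` is not empty (`y`). Let `u ∈ T`; `p`, `q`, `o`
  as in `mincut`. `fg_two` with `S = (O ∪ H) \ T ⊇ O`, `a = x` (`nrm (x - u) ≥ 4 m - 3 m ≥ dd u`,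
as `nrm u ≤ 8 m`), `b = o` (`≥ 2 m`). `p ~ q` would give `x ~ o`. So `Mx Lo Up u`,
  contradiction.
* `conf_in`: the same with `Ann 0 m' (2 m')`, `Out = {o | 2 nrm o ≤ m' + 2}`. Case 1: `a1`, `a2`
with `nrm a1 ≤ m'`, `2 m' ≤ nrm a2` (use `arm_of_conn` for the reversed path
  from `o` to `x`, `3 m' < nrm x`); `¬ Conn O x a1` because `nrm a1 ≤ m'`; spread of `a1`: if
`2 nrm u ≤ 3 m'` then `nrm (a2 - u) ≥ 2 m' - nrm u ≥ m' / 2 ≥ dd u`, otherwise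
  `nrm (a1 - u) ≥ nrm u - m' ≥ nrm u / 3 ≥ dd u`. Case 2: `nrm (x - u) ≥ 3 m' - 2 m'`,
`nrm (u - o) ≥ m' - (m' + 2) / 2 ≥ dd u` (`nrm u ≤ 2 m'`, `128 ≤ m'`). -/

set_option autoImplicit false

namespace Pool.Agent.MSTG

open Pool.Agent.TriPerc Pool.Agent.MST Set

variable {Lo Up O H : Set V} {x y : V}

private theorem tri1 (a u : V) : nrm a ≤ nrm (a - u) + nrm u := by
  have h := nrm_add (a - u) u
  rwa [sub_add_cancel] at h

private theorem tri2 (a u : V) : nrm u ≤ nrm (a - u) + nrm a := by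
  have h := nrm_add (-(a - u)) a
  rwa [nrm_neg, neg_sub, sub_add_cancel] at h

private theorem dd_ge {u : V} (h : 48 ≤ nrm u) : 3 ≤ dd u := by
  unfold dd
  omega

theorem conf_sep (hLO : Lo ⊆ O) (hU : O ∪ H ⊆ Up) (hH : ∀ u ∈ H, ¬ Mx Lo Up u)
    (h48 : ∀ u ∈ H, 48 ≤ nrm u) (hxO : x ∈ O) (hyO : y ∈ O) (h0 : ¬ Conn O x y)
    (hx : ∀ u ∈ H, ∃ a, Conn O x a ∧ dd u ≤ nrm (a - u))
    (hy : ∀ u ∈ H, ∃ a, Conn O y a ∧ dd u ≤ nrm (a - u)) : ¬ Conn (O ∪ H) x y := by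
  intro h1
  obtain ⟨S', u, p, q, h2, h3, h4, h5, h6, h7, h8, h9, h10⟩ :=
    switch subset_union_left hxO hyO h0 h1
  have hu : u ∈ H := h4.resolve_left fun h => h5 (h2 h)
  obtain ⟨a, ha, ha'⟩ := hx u hu
  obtain ⟨b, hb, hb'⟩ := hy u hu
  refine hH u hu ⟨EG S', eg_mono (hLO.trans h2), eg_mono (h3.trans hU), ?_⟩
  refine fg_two h7 h9 (fun h => h6 (h8.trans (h.trans h10.symm)))
    (h8.symm.trans (ha.mono h2)) (h10.symm.trans (hb.mono h2)) ha' hb' (dd_ge (h48 u hu))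

/-- The case of a cut. -/
private theorem cut_case {Z Out : Set V} (hZ : Z.Finite) (hZH : Z ⊆ H) (hLO : Lo ⊆ O)
    (hU : O ∪ H ⊆ Up) (hH : ∀ u ∈ H, ¬ Mx Lo Up u) (h48 : ∀ u ∈ H, 48 ≤ nrm u)
    (hd : ∀ u ∈ H, u ∉ O) (hxO : x ∈ O) (hO : Disjoint Z Out)
    (hcut : ∀ o ∈ Out, ¬ Conn ((O ∪ H) \ Z) x o) (hxu : ∀ u ∈ Z, dd u ≤ nrm (x - u))
    (hou : ∀ u ∈ Z, ∀ o ∈ Out, dd u ≤ nrm (o - u)) : ∀ y ∈ Out, ¬ Conn (O ∪ H) x y := by
  intro y hy hxy
  obtain ⟨T, hT, hT1, hT2⟩ := mincut (X := O ∪ H) hZ (Or.inl hxO)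
    (fun h => hd x (hZH h) hxO) hO hcut
  have hne : T.Nonempty := by
    by_contra hne
    rw [not_nonempty_iff_eq_empty] at hne
    apply hT1 y hy
    rw [hne, sdiff_empty]
    exact hxy
  obtain ⟨u, hu⟩ := hne
  obtain ⟨-, ⟨p, hp, hxp⟩, q, hq, o, ho, hoq⟩ := hT2 u hu
  have hOS : O ⊆ (O ∪ H) \ T := fun v hv => ⟨Or.inl hv, fun h => hd v (hZH (hT h)) hv⟩
  refine hH u (hZH (hT hu)) ⟨EG ((O ∪ H) \ T), eg_mono (hLO.trans hOS),
    eg_mono (sdiff_subset.trans hU), ?_⟩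
  exact fg_two hp hq (fun h => hT1 o ho (hxp.trans (h.trans hoq.symm))) hxp.symm hoq.symm
    (hxu u (hT hu)) (hou u (hT hu) o ho) (dd_ge (h48 u (hZH (hT hu))))

theorem conf_out {m : ℤ} (hm : 64 ≤ m) (hLO : Lo ⊆ O) (hU : O ∪ H ⊆ Up)
    (hH : ∀ u ∈ H, ¬ Mx Lo Up u) (h48 : ∀ u ∈ H, 48 ≤ nrm u) (hd : ∀ u ∈ H, u ∉ O)
    (hxO : x ∈ O) (hx : ∀ u ∈ H, ∃ a, Conn O x a ∧ dd u ≤ nrm (a - u))
    (hb : ∀ y, Conn O x y → nrm y < 3 * m) (h16 : ∀ u ∈ H, nrm u ≤ 16 * m) :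
    ∀ y, Conn (O ∪ H) x y → nrm y < 10 * m := by
  intro y hy
  by_contra hny
  rw [not_lt] at hny
  have hx3 := hb x (Conn.refl hxO)
  have e0 : ∀ v : V, v - 0 = v := fun v => sub_zero v
  by_cases hc : ∃ o, 10 * m ≤ nrm o ∧ Conn ((O ∪ H) \ {u | u ∈ H ∧ u ∈ Ann 0 (4 * m) (8 * m)}) x o
  · obtain ⟨o, ho, hxo⟩ := hc
    have harm := arm_of_conn (z := 0) (n := 4 * m) (m := 8 * m) hxo.in_comp
      (by rw [e0]; omega) (by rw [e0]; omega) (by omega)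
    obtain ⟨a1, ha1, a2, ha2, hc⟩ := harm
    have ha1' : nrm (a1 - 0) ≤ 4 * m := ha1
    have ha2' : 8 * m ≤ nrm (a2 - 0) := ha2
    have ha1'' : 4 * m ≤ nrm (a1 - 0) := hc.left.2.1
    rw [e0] at ha1' ha2' ha1''
    have hcO : Conn O a1 a2 := hc.mono fun w hw => by
      have h1 := comp_subset hw.1
      rcases h1.1 with h2 | h2
      · exact h2
      · exact absurd ⟨h2, hw.2⟩ h1.2
    have hxa : Conn ((O ∪ H) \ {u | u ∈ H ∧ u ∈ Ann 0 (4 * m) (8 * m)}) x a1 := hc.left.1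
    refine conf_sep hLO hU hH h48 hxO hcO.left ?_ hx ?_ (hxa.mono sdiff_subset)
    · intro h
      have := hb a1 h
      omega
    · intro u hu
      by_cases h6 : nrm u ≤ 6 * m
      · refine ⟨a2, hcO, ?_⟩
        have := tri1 a2 u
        unfold dd
        omega
      · refine ⟨a1, Conn.refl hcO.left, ?_⟩
        have := tri2 a1 u
        have := h16 u hu
        unfold dd
        omega
  · push Not at hc
    refine cut_case (Z := {u | u ∈ H ∧ u ∈ Ann 0 (4 * m) (8 * m)}) (Out := {o | 10 * m ≤ nrm o})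
      ((finite_ann 0 (4 * m) (8 * m)).subset fun u hu => hu.2) (fun u hu => hu.1) hLO hU hH h48
      hd hxO ?_ (fun o ho => hc o ho) ?_ ?_ y hny hy
    · rw [Set.disjoint_left]
      intro u hu ho
      have h1 : nrm (u - 0) ≤ 8 * m := hu.2.2
      have h2 : 10 * m ≤ nrm u := ho
      rw [e0] at h1
      omega
    · intro u hu
      have h1 : nrm (u - 0) ≤ 8 * m := hu.2.2
      have h2 : 4 * m ≤ nrm (u - 0) := hu.2.1
      rw [e0] at h1 h2
      have := tri2 x u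
      unfold dd
      omega
    · intro u hu o ho
      have h1 : nrm (u - 0) ≤ 8 * m := hu.2.2
      have h2 : 10 * m ≤ nrm o := ho
      rw [e0] at h1
      have := tri1 o u
      unfold dd
      omega

theorem conf_in {m' : ℤ} (hm : 128 ≤ m') (hLO : Lo ⊆ O) (hU : O ∪ H ⊆ Up)
    (hH : ∀ u ∈ H, ¬ Mx Lo Up u) (h48 : ∀ u ∈ H, 48 ≤ nrm u) (hd : ∀ u ∈ H, u ∉ O)
    (hxO : x ∈ O) (hx : ∀ u ∈ H, ∃ a, Conn O x a ∧ dd u ≤ nrm (a - u))
    (hb : ∀ y, Conn O x y → 3 * m' < nrm y) :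
    ∀ y, Conn (O ∪ H) x y → m' + 2 < 2 * nrm y := by
  intro y hy
  by_contra hny
  rw [not_lt] at hny
  have hx3 := hb x (Conn.refl hxO)
  have e0 : ∀ v : V, v - 0 = v := fun v => sub_zero v
  by_cases hc : ∃ o, 2 * nrm o ≤ m' + 2 ∧
      Conn ((O ∪ H) \ {u | u ∈ H ∧ u ∈ Ann 0 m' (2 * m')}) x o
  · obtain ⟨o, ho, hxo⟩ := hc
    have harm := arm_of_conn (z := 0) (n := m') (m := 2 * m') hxo.in_comp.symm
      (by rw [e0]; omega) (by rw [e0]; omega) (by omega)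
    obtain ⟨a1, ha1, a2, ha2, hc⟩ := harm
    have ha1' : nrm (a1 - 0) ≤ m' := ha1
    have ha2' : 2 * m' ≤ nrm (a2 - 0) := ha2
    rw [e0] at ha1' ha2'
    have hcO : Conn O a1 a2 := hc.mono fun w hw => by
      have h1 := comp_subset hw.1
      rcases h1.1 with h2 | h2
      · exact h2
      · exact absurd ⟨h2, hw.2⟩ h1.2
    have hxa : Conn ((O ∪ H) \ {u | u ∈ H ∧ u ∈ Ann 0 m' (2 * m')}) x a1 := hc.left.1
    refine conf_sep hLO hU hH h48 hxO hcO.left ?_ hx ?_ (hxa.mono sdiff_subset)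
    · intro h
      have := hb a1 h
      omega
    · intro u hu
      have hu0 := h48 u hu
      by_cases h6 : 2 * nrm u ≤ 3 * m'
      · refine ⟨a2, hcO, ?_⟩
        have := tri1 a2 u
        unfold dd
        omega
      · refine ⟨a1, Conn.refl hcO.left, ?_⟩
        have := tri2 a1 u
        unfold dd
        omega
  · push Not at hc
    refine cut_case (Z := {u | u ∈ H ∧ u ∈ Ann 0 m' (2 * m')})
      (Out := {o | 2 * nrm o ≤ m' + 2})
      ((finite_ann 0 m' (2 * m')).subset fun u hu => hu.2) (fun u hu => hu.1) hLO hU hH h48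
      hd hxO ?_ (fun o ho => hc o ho) ?_ ?_ y hny hy
    · rw [Set.disjoint_left]
      intro u hu ho
      have h1 : m' ≤ nrm (u - 0) := hu.2.1
      have h2 : 2 * nrm u ≤ m' + 2 := ho
      rw [e0] at h1
      omega
    · intro u hu
      have h1 : nrm (u - 0) ≤ 2 * m' := hu.2.2
      rw [e0] at h1
      have := tri1 x u
      unfold dd
      omega
    · intro u hu o ho
      have h1 : m' ≤ nrm (u - 0) := hu.2.1
      have h2 : 2 * nrm o ≤ m' + 2 := ho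
      rw [e0] at h1
      have := tri2 o u
      unfold dd
      omega

end Pool.Agent.MSTG
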