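import Pool.Agent.MSTG.Defs
import Pool.Agent.MSTG.Swi

/-! # The gain, G2: one cut

(problem MP_e1ab72_pr, part (G); architect helper50)

`O` is an open set between `Lo` and `Up`; `X = comp (O ∩ B) x` is the component of the inner end `x`, `t ∈ X` is a vertex outside of the gate.
`Lo` has no crossing of the gate `Ann 0 m (2 m)`.

PROOF of `one_cut`. Let `X = comp (O ∩ B) x`, `C = {u ∈ X | u ∈ Ann 0 m (2 m), u ∉ Lo}` (finite: `finite_ann`),
`Out = {o | 3 m ≤ nrm o}`. `C` cuts: a path in `X \ C` from `x` to `o ∈ Out` contains a crossing of `Ann 0 m (2 m)` in `X \ C`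
(`arm_of_conn` with the centre `0`), and `(X \ C) ∩ Ann 0 m (2 m) ⊆ Lo`, so `Arm Lo 0 m (2 m)` (`Arm` is `Join (S ∩ Ann ..)`; `Join.mono`),
contradiction. `mincut` gives `T`.
(1) If `Conn (O \ T) x y` then `nrm y < 3 m` and `Conn (X \ T) x y`. For the bound: otherwise `Conn.exit` with `A = {w | nrm w < 3 m}` gives
`a ∈ A`, `b ∉ A`, `Adj a b`, `Conn ((O \ T) ∩ A) x a`, `b ∈ O \ T`; `nrm b ≤ nrm a + 1 ≤ 3 m` (`nrm_adj` with `z = 0`, `sub_zero`), so
`A ∪ {b} ⊆ B` (`hB`), and `Conn ((O ∩ B) \ T) x b`; all vertices of a path in `O ∩ B` from `x` are in `X`, so `Conn (X \ T) x b` with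
`b ∈ Out`, contradiction (general lemma: if `Conn (S \ T) x y`, `S = O ∩ B`, then `Conn (comp S x \ T) x y`: induction on the path, as
`Conn.in_comp`). Then `Conn (O \ T) x y` implies that the whole path has norm `< 3 m` (apply the bound to the vertices of the path: induction),
so it is a path in `(O ∩ B) \ T`.
(2) `v`, `p`, `z`: `Conn X t x` (`Conn.in_comp`, symmetry). If `Conn (X \ T) t x` then `nrm t < 3 m` by (1), but `4 m ≤ nrm t`. `Conn.exit` with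
`A = comp (X \ T) t` gives `a ∈ A`, `b ∉ A`, `Adj a b`, `b ∈ X`; `b ∈ T` (otherwise `b ∈ A` by `comp_adj`). `v = b`, `z = a`, and `p` from the
statement of `mincut` for `v`. (`t ∉ T` because `T ⊆ Ann 0 m (2 m)`.)
(3) `T ⊆ As Lo Up`: let `u ∈ T`; `u ∈ X ⊆ O ⊆ Up`, `u ∉ Lo`. `G = EG (O \ T)`: `EG Lo ≤ G` (`T` is disjoint from `Lo`), `G ≤ EG Up`. `mincut` gives
`p'`, `q'`, `o`; `fg_two` with `S = O \ T`, `a = x` (`nrm (x - u) ≥ nrm u - nrm x ≥ m / 2 ≥ dd u`, since `nrm u ≤ 2 m`), `b = o`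
(`nrm (o - u) ≥ m ≥ dd u`), `d = dd u ≥ 3` (`nrm u ≥ m ≥ 64`); `p' ~ q'` in `O \ T` would give `Conn (O \ T) x o`, contradiction to (1). -/

set_option autoImplicit false

namespace Pool.Agent.MSTG

open Pool.Agent.TriPerc Pool.Agent.MST Set

private theorem nsub (u x : V) : nrm u - nrm x ≤ nrm (x - u) := by
  have h1 := nrm_add (u - x) x
  rw [sub_add_cancel] at h1
  have h2 : nrm (x - u) = nrm (u - x) := by
    rw [← nrm_neg, neg_sub]
  omega

private theorem mem_ann {v : V} {a b : ℤ} : v ∈ Ann 0 a b ↔ a ≤ nrm v ∧ nrm v ≤ b := by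
  change (a ≤ nrm (v - 0) ∧ nrm (v - 0) ≤ b) ↔ _
  rw [sub_zero]

private theorem to_comp {S T : Set V} {x y : V} (h : Conn (S \ T) x y) :
    Conn (comp S x \ T) x y := by
  refine h.in_comp.mono fun v hv => ?_
  have h1 : Conn (S \ T) x v := hv
  exact ⟨h1.mono Set.sdiff_subset, h1.right.2⟩

theorem one_cut {Lo Up O B : Set V} {x t : V} {m : ℤ} (hm : 64 ≤ m) (hLO : Lo ⊆ O) (hOU : O ⊆ Up)
    (hB : {w : V | nrm w ≤ 4 * m} ⊆ B) (hx : 2 * nrm x ≤ m) (ht : 4 * m ≤ nrm t)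
    (hxt : Conn (O ∩ B) x t) (hA : ¬ Arm Lo 0 m (2 * m)) :
    ∃ (T : Set V) (v p z : V), T.Finite ∧ T ⊆ O ∩ B ∧ T ⊆ As Lo Up ∧ T ⊆ Ann 0 m (2 * m) ∧
      T ⊆ comp (O ∩ B) x ∧ v ∈ T ∧ Adj v p ∧ Adj v z ∧ Conn (O \ T) x p ∧ Conn ((O ∩ B) \ T) t z ∧
      ∀ y, Conn (O \ T) x y → nrm y < 3 * m := by
  have hx0 := nrm_nonneg x
  obtain ⟨X, hX⟩ : ∃ X : Set V, X = comp (O ∩ B) x := ⟨_, rfl⟩
  have hXsub : X ⊆ O ∩ B := hX ▸ comp_subset
  have hxX : x ∈ X := by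
    rw [hX]
    exact Conn.refl hxt.left
  obtain ⟨C, hC⟩ : ∃ C : Set V, C = {u | u ∈ X ∧ u ∈ Ann 0 m (2 * m) ∧ u ∉ Lo} := ⟨_, rfl⟩
  have hCX : C ⊆ X := fun u hu => by
    rw [hC] at hu
    exact hu.1
  have hCA : ∀ u ∈ C, m ≤ nrm u ∧ nrm u ≤ 2 * m := fun u hu => by
    rw [hC] at hu
    exact mem_ann.1 hu.2.1
  have hCL : ∀ u ∈ C, u ∉ Lo := fun u hu => by
    rw [hC] at hu
    exact hu.2.2
  obtain ⟨T, hTC, hTcut, hTu⟩ := mincut (X := X) (C := C) (Out := {o : V | 3 * m ≤ nrm o})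
    (x := x) ((finite_ann 0 m (2 * m)).subset fun u hu => mem_ann.2 (hCA u hu)) hxX
    (fun h => by
      have := (hCA x h).1
      omega)
    (Set.disjoint_left.2 fun u hu hu' => by
      have h1 := (hCA u hu).2
      have h2 : 3 * m ≤ nrm u := hu'
      omega)
    (fun o ho hcon => by
      have ho' : 3 * m ≤ nrm o := ho
      refine hA ?_
      have h1 : Arm (X \ C) 0 m (2 * m) :=
        arm_of_conn hcon (by rw [sub_zero]; omega) (by rw [sub_zero]; omega) (by omega)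
      refine Join.mono h1 ?_ Subset.rfl Subset.rfl
      rintro v ⟨⟨hv1, hv2⟩, hv3⟩
      refine ⟨?_, hv3⟩
      by_contra hvL
      exact hv2 (by rw [hC]; exact ⟨hv1, hv3, hvL⟩))
  have hTX : T ⊆ X := hTC.trans hCX
  -- (1)
  have hin : ∀ y, Conn ((O ∩ B) \ T) x y → Conn (X \ T) x y := fun y hy => by
    rw [hX]
    exact to_comp hy
  have hbd : ∀ y, Conn (O \ T) x y → nrm y < 3 * m := by
    intro y hy
    by_contra hcon
    obtain ⟨a, b, ha, hb, hab, h2, h3⟩ := hy.exit (A := {w : V | nrm w < 3 * m})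
      (by change nrm x < 3 * m; omega) hcon
    have ha' : nrm a < 3 * m := ha
    have hb' : ¬ nrm b < 3 * m := hb
    have h4 := (abs_le.1 (nrm_adj hab 0)).2
    rw [sub_zero, sub_zero] at h4
    have h5 : Conn ((O ∩ B) \ T) x a := h2.mono (by
      rintro v ⟨⟨hv1, hv2⟩, hv3⟩
      have hv3' : nrm v < 3 * m := hv3
      exact ⟨⟨hv1, hB (by change nrm v ≤ 4 * m; omega)⟩, hv2⟩)
    have h6 : b ∈ (O ∩ B) \ T :=
      ⟨⟨h3.left.1, hB (by change nrm b ≤ 4 * m; omega)⟩, h3.left.2⟩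
    exact hTcut b (by change 3 * m ≤ nrm b; omega)
      (hin b (h5.trans (Conn.of_adj h5.right h6 hab)))
  -- (2)
  have htX : t ∈ X := by
    rw [hX]
    exact hxt
  have htT : t ∉ T := fun h => by
    have := (hCA t (hTC h)).2
    omega
  have h1 : Conn X t x := by
    rw [hX]
    exact hxt.in_comp.symm
  have h2 : x ∉ comp (X \ T) t := by
    intro hcon
    have hcon' : Conn (X \ T) t x := hcon
    exact hTcut t (by change 3 * m ≤ nrm t; omega) hcon'.symm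
  obtain ⟨a, b, ha, hb, hab, -, h3⟩ := h1.exit (A := comp (X \ T) t)
    (Conn.refl (⟨htX, htT⟩ : t ∈ X \ T)) h2
  have hbT : b ∈ T := by
    by_contra hbT
    exact hb (comp_adj ha ⟨h3.left, hbT⟩ hab)
  have ha' : Conn (X \ T) t a := ha
  obtain ⟨-, ⟨p, hp, hp'⟩, -⟩ := hTu b hbT
  have hsub1 : X \ T ⊆ O \ T := fun v hv => ⟨(hXsub hv.1).1, hv.2⟩
  refine ⟨T, b, p, a, (finite_ann 0 m (2 * m)).subset fun u hu => mem_ann.2 (hCA u (hTC hu)),
    hTX.trans hXsub, ?_, fun u hu => mem_ann.2 (hCA u (hTC hu)), hX ▸ hTX, hbT, hp, hab.symm,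
    hp'.mono hsub1, ha'.mono fun v hv => ⟨hXsub hv.1, hv.2⟩, hbd⟩
  -- (3)
  intro u hu
  obtain ⟨huX, ⟨p', hp1, hp2⟩, q', hq1, o, ho, hq2⟩ := hTu u hu
  have ho' : 3 * m ≤ nrm o := ho
  have hua := hCA u (hTC hu)
  refine ⟨hOU (hXsub huX).1, hCL u (hTC hu), EG (O \ T),
    eg_mono fun v hv => ⟨hLO hv, fun h => hCL v (hTC h) hv⟩,
    eg_mono fun v hv => hOU hv.1, ?_⟩
  have e1 := nsub u x
  have e2 : nrm o - nrm u ≤ nrm (o - u) := by
    have h4 := nrm_add (o - u) u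
    rw [sub_add_cancel] at h4
    omega
  refine fg_two hp1 hq1 ?_ (hp2.symm.mono hsub1) (hq2.symm.mono hsub1) ?_ ?_ ?_
  · intro hcon
    have := hbd o (((hp2.mono hsub1).trans hcon).trans (hq2.symm.mono hsub1))
    omega
  · unfold dd
    omega
  · unfold dd
    omega
  · unfold dd
    omega

end Pool.Agent.MSTG
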