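import Pool.Agent.MSTG.Defs

/-! # The gain, G8: the gates are determined by the configuration

(problem MP_e1ab72_pr, part (G); architect helper50)

PROOF of `chain_unique`. For `a ≤ k` let `y a = x` if `a = k` and `y a = z a` if `a < k`; `y' a'`
in the same way. CLAIM: for `a ≤ k`, `a' ≤ k'` with
`Conn (Op 0 f) (y a) (y' a')`: `a = a'` and `v l = v' l` for all `l < a`. Induction on `a + a'`.
Note: if `0 < a` then `y a` is joined to `p (a-1)` in `Op 0 f` (`px`, `pz`), so its component
has norms `< 3 m (a-1)` (`bd`); if `a = 0` then `y a = z 0` is joined to `t` in `Op 0 f` and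
`10 m' 0 ≤ nrm t`. So if one of `a`, `a'` is `0`, both are.
Let `0 < a`, `0 < a'`, `b = a - 1`, `b' = a' - 1`, `g = f (v b)`, `g' = f (v' b')`, both positive.
`p b ~ p' b'` in `Op 0 f`.
(1) `g = g'`: suppose `g < g'`. Let `K' = comp {u | f u < g'} (p' b')`; it contains `p b` (`Op 0 f
⊆ {f < g'}`), `v b` (`f (v b) = g < g'`), `z b` (`f ≤ 0`); then, by induction downwards,
`p l`, `v l`, `z l` for all `l ≤ b`: `z (l+1) ~ p l` in `Op 0 f`, `f (v l) ≤ om l / 4 < om b / 8 <
g` for `l < b` (`8 om l ≤ om b`); finally `t ∈ K'` (`tz`), but `bd'` says `nrm t < 10 m' b' ≤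
10 m' 0`.
The case `g' < g` by symmetry.
(2) So `v b = v' b'` (`hf`). `p b` is joined to `y a`, `p' b'` to `y' a'`, so `p b ~ p' b'` in `Op
0 f`; `z b` is not joined to `p b` in `Op 0 f` (`sep`), the same for `z' b'`, `p' b'`. The pairs
`{p b, z b}`, `{p' b', z' b'}` are equal: if `p' b'` is neither `p b` nor `z b` then `f (p b) < f
(p' b')`, `f (z b) < f (p' b')` (`low`); by `low` for the second chain `p b` and `z b` must be in
`{p' b', z' b'}`, hence both equal to `z' b'`, but `p b ≠ z b`. The same for `z' b'`. If `p b = z'
b'` then `z' b' ~ p' b'`, contradiction. So `p b = p' b'`, `z b = z' b'`.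
(3) If `b = 0` or not: the claim for `b`, `b'` (`y b = z b = z' b' = y' b'`) gives `b = b'` and `v
l = v' l` for `l < b`.
The theorem is the claim for `a = k`, `a' = k'`. -/

set_option autoImplicit false

namespace Pool.Agent.MSTG

open Pool.Agent.TriPerc Pool.Agent.MST Set

private theorem mmono {m : ℕ → ℤ} {k : ℕ} (hm : ∀ l < k, 64 ≤ m l)
    (hmm : ∀ l, l + 1 < k → 64 * m (l + 1) ≤ m l) : ∀ l < k, m l ≤ m 0 := by
  intro l
  induction l with
  | zero => intro _; exact le_rfl
  | succ l ih =>
    intro hl
    have h1 := ih (by omega)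
    have h2 := hmm l hl
    have h3 := hm (l + 1) hl
    linarith

private theorem omono {om : ℕ → ℝ} {k : ℕ} (hom : ∀ l < k, 0 < om l)
    (homm : ∀ l, l + 1 < k → 8 * om l ≤ om (l + 1)) :
    ∀ j l, l + (j + 1) < k → 8 * om l ≤ om (l + (j + 1)) := by
  intro j
  induction j with
  | zero => intro l hl; exact homm l hl
  | succ j ih =>
    intro l hl
    have h1 := ih l (by omega)
    have h2 := homm (l + (j + 1)) (by omega)
    have h3 := hom (l + (j + 1)) (by omega)
    have h4 : l + (j + 1 + 1) = l + (j + 1) + 1 := by omega
    rw [h4]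
    linarith

private theorem gap {f : Lab} {rho lo rho' lo' : ℤ} {x t x' t' : V} {m m' : ℕ → ℤ} {om om' : ℕ → ℝ}
    {k k' : ℕ} {v p z v' p' z' : ℕ → V}
    (h : Chain f rho lo x t m om k v p z) (h' : Chain f rho' lo' x' t' m' om' k' v' p' z')
    (hm' : ∀ l < k', 64 ≤ m' l) (hmm' : ∀ l, l + 1 < k' → 64 * m' (l + 1) ≤ m' l)
    (hom : ∀ l < k, 0 < om l) (homm : ∀ l, l + 1 < k → 8 * om l ≤ om (l + 1))
    (hom' : ∀ l < k', 0 < om' l)
    (ht : 10 * m' 0 ≤ nrm t) {b b' : ℕ} (hb : b < k) (hb' : b' < k')
    (hc : Conn (Op 0 f) (p' b') (p b)) (hlt : f (v b) < f (v' b')) : False := by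
  have hg0 : 0 < f (v' b') := by
    have h1 := (h'.gl b' hb').1
    have h2 := hom' b' hb'
    linarith
  have hsub : Op 0 f ⊆ {u | f u < f (v' b')} := by
    intro u hu
    have hu' : f u ≤ 0 := hu
    show f u < f (v' b')
    linarith
  have key : ∀ j l, l + j = b → Conn {u | f u < f (v' b')} (p' b') (z l) := by
    intro j
    induction j with
    | zero =>
      intro l hl
      have hl' : l = b := by omega
      subst hl'
      have h1 : Conn {u | f u < f (v' b')} (p' b') (p l) := hc.mono hsub
      have h2 : Conn {u | f u < f (v' b')} (p l) (v l) :=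
        Conn.of_adj h1.right hlt (h.vp l hb).symm
      have h3 : Conn {u | f u < f (v' b')} (v l) (z l) :=
        Conn.of_adj hlt (hsub (h.z0 l hb)) (h.vz l hb)
      exact (h1.trans h2).trans h3
    | succ j ih =>
      intro l hl
      have h0 := ih (l + 1) (by omega)
      have hlk : l < k := by omega
      have h1 : Conn {u | f u < f (v' b')} (p' b') (p l) :=
        h0.trans ((h.pz l (by omega)).mono hsub).symm
      have hvl : f (v l) < f (v' b') := by
        have e1 := (h.gl l hlk).2
        have e2 := omono hom homm j l (by omega)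
        rw [hl] at e2
        have e3 := (h.gl b hb).1
        have e4 := hom l hlk
        linarith
      have h2 : Conn {u | f u < f (v' b')} (p l) (v l) :=
        Conn.of_adj h1.right hvl (h.vp l hlk).symm
      have h3 : Conn {u | f u < f (v' b')} (v l) (z l) :=
        Conn.of_adj hvl (hsub (h.z0 l hlk)) (h.vz l hlk)
      exact (h1.trans h2).trans h3
  have h0 := key b 0 (by omega)
  have h1 : Conn (Op 0 f) t (z 0) := (h.tz (by omega)).mono Set.inter_subset_left
  have h2 := h0.trans (h1.mono hsub).symm
  have h3 := (h'.bd' b' hb' t h2).2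
  have h4 := mmono hm' hmm' b' hb'
  linarith

theorem chain_unique {f : Lab} {rho lo rho' lo' : ℤ} {x t x' t' : V} {m m' : ℕ → ℤ} {om om' : ℕ → ℝ}
    {k k' : ℕ} {v p z v' p' z' : ℕ → V} (hf : Function.Injective f)
    (h : Chain f rho lo x t m om k v p z) (h' : Chain f rho' lo' x' t' m' om' k' v' p' z')
    (hk : 0 < k) (hk' : 0 < k') (hx : Conn (Op 0 f) x x')
    (hm : ∀ l < k, 64 ≤ m l) (hmm : ∀ l, l + 1 < k → 64 * m (l + 1) ≤ m l)
    (hm' : ∀ l < k', 64 ≤ m' l) (hmm' : ∀ l, l + 1 < k' → 64 * m' (l + 1) ≤ m' l)
    (hom : ∀ l < k, 0 < om l) (homm : ∀ l, l + 1 < k → 8 * om l ≤ om (l + 1))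
    (hom' : ∀ l < k', 0 < om' l) (homm' : ∀ l, l + 1 < k' → 8 * om' l ≤ om' (l + 1))
    (ht : 10 * m' 0 ≤ nrm t) (ht' : 10 * m 0 ≤ nrm t') :
    k = k' ∧ ∀ l < k, v l = v' l := by
  have key : ∀ a a' : ℕ, a ≤ k → a' ≤ k' →
      Conn (Op 0 f) (if a = k then x else z a) (if a' = k' then x' else z' a') →
      a = a' ∧ ∀ l < a, v l = v' l := by
    intro a
    induction a with
    | zero =>
      intro a' _ ha' hc
      have e1 : ¬ (0 = k) := by omega
      rw [if_neg e1] at hc
      rcases a' with _ | b'
      · exact ⟨rfl, fun l hl => absurd hl (by omega)⟩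
      · exfalso
        have hb' : b' < k' := by omega
        have h1 : Conn (Op 0 f) (p' b') (if b' + 1 = k' then x' else z' (b' + 1)) := by
          split_ifs with e2
          · have h2 := h'.px hk'
            have e3 : k' - 1 = b' := by omega
            rwa [e3] at h2
          · exact h'.pz b' (by omega)
        have h2 : Conn (Op 0 f) t (z 0) := (h.tz hk).mono Set.inter_subset_left
        have h3 := (h'.bd b' hb' t ((h1.trans hc.symm).trans h2.symm)).2
        have h4 := mmono hm' hmm' b' hb'
        have h5 := hm' b' hb'
        linarith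
    | succ b ih =>
      intro a' ha ha' hc
      have hb : b < k := by omega
      have hp : Conn (Op 0 f) (p b) (if b + 1 = k then x else z (b + 1)) := by
        split_ifs with e2
        · have h2 := h.px hk
          have e3 : k - 1 = b := by omega
          rwa [e3] at h2
        · exact h.pz b (by omega)
      rcases a' with _ | b'
      · exfalso
        have e1 : ¬ (0 = k') := by omega
        rw [if_neg e1] at hc
        have h2 : Conn (Op 0 f) t' (z' 0) := (h'.tz hk').mono Set.inter_subset_left
        have h3 := (h.bd b hb t' ((hp.trans hc).trans h2.symm)).2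
        have h4 := mmono hm hmm b hb
        have h5 := hm b hb
        linarith
      · have hb' : b' < k' := by omega
        have hp' : Conn (Op 0 f) (p' b') (if b' + 1 = k' then x' else z' (b' + 1)) := by
          split_ifs with e2
          · have h2 := h'.px hk'
            have e3 : k' - 1 = b' := by omega
            rwa [e3] at h2
          · exact h'.pz b' (by omega)
        have hpp : Conn (Op 0 f) (p b) (p' b') := (hp.trans hc).trans hp'.symm
        have hg : f (v b) = f (v' b') := by
          rcases lt_trichotomy (f (v b)) (f (v' b')) with h1 | h1 | h1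
          · exact (gap h h' hm' hmm' hom homm hom' ht hb hb' hpp.symm h1).elim
          · exact h1
          · exact (gap h' h hm hmm hom' homm' hom ht' hb' hb hpp h1).elim
        have hv : v b = v' b' := hf hg
        have hg0 : 0 < f (v b) := by
          have h1 := (h.gl b hb).1
          have h2 := hom b hb
          linarith
        have hsub : Op 0 f ⊆ {u | f u < f (v b)} := by
          intro u hu
          have hu' : f u ≤ 0 := hu
          show f u < f (v b)
          linarith
        have hsep : ¬ Conn (Op 0 f) (p b) (z b) := fun h1 => h.sep b hb (h1.mono hsub)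
        have hpz : p b ≠ z b := by
          intro h1
          apply hsep
          rw [← h1]
          exact Conn.refl (h.p0 b hb)
        have apb : Adj (v' b') (p b) := hv ▸ h.vp b hb
        have azb : Adj (v' b') (z b) := hv ▸ h.vz b hb
        have apb' : Adj (v b) (p' b') := hv.symm ▸ h'.vp b' hb'
        have azb' : Adj (v b) (z' b') := hv.symm ▸ h'.vz b' hb'
        have q1 : p' b' = p b ∨ p' b' = z b := by
          by_contra hcon
          rw [not_or] at hcon
          obtain ⟨l1, l2⟩ := h.low b hb (p' b') apb' hcon.1 hcon.2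
          have r1 : p b = z' b' := by
            by_contra hne
            have := (h'.low b' hb' (p b) apb (fun e => hcon.1 e.symm) hne).1
            linarith
          have r2 : z b = z' b' := by
            by_contra hne
            have := (h'.low b' hb' (z b) azb (fun e => hcon.2 e.symm) hne).1
            linarith
          exact hpz (r1.trans r2.symm)
        have q2 : z' b' = p b ∨ z' b' = z b := by
          by_contra hcon
          rw [not_or] at hcon
          obtain ⟨l1, l2⟩ := h.low b hb (z' b') azb' hcon.1 hcon.2
          have r1 : p b = p' b' := by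
            by_contra hne
            have := (h'.low b' hb' (p b) apb hne (fun e => hcon.1 e.symm)).2
            linarith
          have r2 : z b = p' b' := by
            by_contra hne
            have := (h'.low b' hb' (z b) azb hne (fun e => hcon.2 e.symm)).2
            linarith
          exact hpz (r1.trans r2.symm)
        have q3 : p' b' = p b := by
          rcases q1 with q1 | q1
          · exact q1
          · exact absurd (q1 ▸ hpp) hsep
        have q4 : z' b' = z b := by
          rcases q2 with q2 | q2
          · exfalso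
            have h1 : ¬ Conn (Op 0 f) (p' b') (z' b') := by
              intro h1
              have h2 := h'.sep b' hb'
              rw [← hg] at h2
              exact h2 (h1.mono hsub)
            apply h1
            rw [q2, q3]
            exact Conn.refl (h.p0 b hb)
          · exact q2
        have e1 : ¬ (b = k) := by omega
        have e2 : ¬ (b' = k') := by omega
        have h1 := ih b' (by omega) (by omega) (by
          rw [if_neg e1, if_neg e2, q4]
          exact Conn.refl (h.z0 b hb))
        refine ⟨by omega, fun l hl => ?_⟩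
        rcases Nat.lt_succ_iff_lt_or_eq.1 hl with h2 | h2
        · exact h1.2 l h2
        · rw [h2]
          rw [← h1.1] at hv
          exact hv
  have h1 := key k k' le_rfl le_rfl (by rw [if_pos rfl, if_pos rfl]; exact hx)
  exact ⟨h1.1, h1.2⟩

end Pool.Agent.MSTG
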