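import Pool.Agent.MST.Defs
import Pool.Agent.TriPerc.FourG

/-! # The gain by relabelling: definitions

(problem MP_e1ab72_pr, part (G); architect helper50; no sorry in this file. Text: /team-store/MST_Gain_helper50.md)

Labels are SHIFTED: `f v` is the label minus `1/2`, so the critical level is `0`. The PROFILE `lam : V → ℝ` (nonnegative) divides the labels
of `v` into three classes: `f v ≤ - lam v` (class -1, set `Low`), `- lam v < f v < 2 lam v` (class 0), `2 lam v ≤ f v` (class 1); `Upp` is the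
set of the vertices of the classes -1 and 0. If `lam v = 0` then the class 0 is empty.

* `dd v = nrm v / 16`: the length of the arms at `v`. `Mx Lo Up v`: some graph between `EG Lo` and `EG Up` has four arms in `Ann v 2 (dd v)`.
  `As Lo Up`: the vertices between `Lo` and `Up` with four arms. They depend on the classes only.
* `rmap c l x`: the affine maps of the relabelling: `1`: `(0, 2 l) → (l, 2 l)`; `2`: `(-l, 0] → (l, 3 l / 2]`; `3`: `(-l, 0] → (l / 8, l / 4]`;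
  `4`: lowest quarter of the class -1; `5`: highest quarter of the class -1; `0`: the identity.
* `CutSys`: cuts `T 0, ..., T (k-1)` of an open component at the gates `Ann 0 (m l) (2 (m l))` (`l = 0` is the outermost gate).
* `Chain`: the result for the relabelled configuration: the gates `v l` with the labels in `(om l / 8, om l / 4]`, on the inner side `p l`, on
  the outer side `z l`. -/

set_option autoImplicit false

namespace Pool.Agent.MSTG

open Pool.Agent.TriPerc Pool.Agent.MST Set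

/-- The length of the arms at `v`. -/
def dd (v : V) : ℤ := nrm v / 16

/-- Mixed four arms at `v` between the sets `Lo` and `Up`. -/
def Mx (Lo Up : Set V) (v : V) : Prop :=
  ∃ G : SimpleGraph V, EG Lo ≤ G ∧ G ≤ EG Up ∧ FourG G v 2 (dd v)

/-- The vertices between `Lo` and `Up` with mixed four arms. -/
def As (Lo Up : Set V) : Set V := {v | v ∈ Up ∧ v ∉ Lo ∧ Mx Lo Up v}

/-- The vertices of the class -1. -/
def Low (lam : V → ℝ) (f : Lab) : Set V := {v | f v ≤ - lam v}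

/-- The vertices of the classes -1 and 0. -/
def Upp (lam : V → ℝ) (f : Lab) : Set V := {v | f v ≤ - lam v ∨ f v < 2 * lam v}

/-- The affine maps of the relabelling. -/
noncomputable def rmap (c : Fin 6) (l x : ℝ) : ℝ :=
  if c = 1 then l + x / 2
  else if c = 2 then 3 * l / 2 + x / 2
  else if c = 3 then l / 4 + x / 8
  else if c = 4 then -1 / 2 + (x + 1 / 2) / 4
  else if c = 5 then -l + (x + l) / 4
  else x

/-- The open set after the removal of the first `l` cuts. -/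
def Ol (O : Set V) (T : ℕ → Set V) (l : ℕ) : Set V := {v | v ∈ O ∧ ∀ j < l, v ∉ T j}

/-- The system of cuts. `O` is the set of the open vertices, `B` the ball, `x` the inner end and `t` the outer end. -/
structure CutSys (Lo Up O B : Set V) (x t : V) (m : ℕ → ℤ) (k : ℕ) (T : ℕ → Set V)
    (v p z : ℕ → V) : Prop where
  fin : ∀ l < k, (T l).Finite
  sub : ∀ l < k, T l ⊆ comp (O ∩ B) x
  as : ∀ l < k, T l ⊆ As Lo Up
  ann : ∀ l < k, T l ⊆ Ann 0 (m l) (2 * m l)
  vT : ∀ l < k, v l ∈ T l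
  vp : ∀ l < k, Adj (v l) (p l)
  vz : ∀ l < k, Adj (v l) (z l)
  pz : ∀ l, l + 1 < k → Conn (Ol O T k) (p l) (z (l + 1))
  px : 0 < k → Conn (Ol O T k) (p (k - 1)) x
  tz : 0 < k → Conn (Ol O T k ∩ B) t (z 0)
  bd : ∀ l < k, ∀ y, Conn (Ol O T k) (p l) y → nrm y < 3 * m l
  sep : ∀ l < k, ¬ Conn (Ol O T k) (p l) (z l)
  sp : ∀ l < k, ∀ j < k, l ≠ j → ¬ Conn (Ol O T k) (p l) (p j)

/-- The chain of gates of the final configuration `f`. -/
structure Chain (f : Lab) (rho lo : ℤ) (x t : V) (m : ℕ → ℤ) (om : ℕ → ℝ) (k : ℕ)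
    (v p z : ℕ → V) : Prop where
  vp : ∀ l < k, Adj (v l) (p l)
  vz : ∀ l < k, Adj (v l) (z l)
  nv : ∀ l < k, m l ≤ nrm (v l) ∧ nrm (v l) ≤ 2 * m l
  gl : ∀ l < k, om l / 8 < f (v l) ∧ f (v l) ≤ om l / 4
  low : ∀ l < k, ∀ u, Adj (v l) u → u ≠ p l → u ≠ z l → f (p l) < f u ∧ f (z l) < f u
  p0 : ∀ l < k, f (p l) ≤ 0
  z0 : ∀ l < k, f (z l) ≤ 0
  pz : ∀ l, l + 1 < k → Conn (Op 0 f) (p l) (z (l + 1))
  px : 0 < k → Conn (Op 0 f) (p (k - 1)) x
  tz : 0 < k → Conn (Op 0 f ∩ Ball 0 rho) t (z 0)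
  bd : ∀ l < k, ∀ y, Conn (Op 0 f) (p l) y → lo < nrm y ∧ nrm y < 3 * m l
  sp : ∀ l < k, ∀ j < k, l ≠ j → ¬ Conn (Op 0 f) (p l) (p j)
  sep : ∀ l < k, ¬ Conn {u | f u < f (v l)} (p l) (z l)
  bd' : ∀ l < k, ∀ y, Conn {u | f u < f (v l)} (p l) y → lo < nrm y ∧ nrm y < 10 * m l

/-- The relabelled configuration. -/
noncomputable def relab (κ : V → Fin 6) (lam : V → ℝ) (f : Lab) : Lab :=
  fun u => rmap (κ u) (lam u) (f u)

/-- The hypotheses of the deterministic theorem of part (G): the gates are `Ann 0 (m l) (2 (m l))`, `l < k`, with the windows `om l`; `mi` is a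
radius inside of the open component `comp (Op 0 f ∩ Ball 0 rho) x`, `t` its outer end. -/
structure GHyp (lam : V → ℝ) (f : Lab) (rho mi : ℤ) (x t : V) (m : ℕ → ℤ) (om : ℕ → ℝ)
    (k : ℕ) : Prop where
  lam0 : ∀ u, 0 ≤ lam u
  lam1 : ∀ u, lam u < 1 / 4
  f0 : ∀ u, -1 / 2 ≤ f u
  f1 : ∀ u, f u ≤ 1 / 2
  mi0 : 128 ≤ mi
  m64 : ∀ l < k, 64 * mi ≤ m l
  mm : ∀ l, l + 1 < k → 64 * m (l + 1) ≤ m l
  rho0 : 0 < k → 20 * m 0 ≤ rho
  om0 : ∀ l < k, 0 < om l
  omm : ∀ l, l + 1 < k → 8 * om l ≤ om (l + 1)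
  lamg : ∀ l < k, ∀ u, m l - 1 ≤ nrm u → nrm u ≤ 2 * m l + 1 → lam u = om l
  lamb : ∀ l < k, ∀ u, mi < 2 * nrm u → nrm u ≤ 16 * m l → om l ≤ lam u
  cross : ∀ l < k, ¬ Arm (Low lam f) 0 (m l) (2 * m l)
  nb : ∀ l < k, ∀ u ∈ As (Low lam f) (Upp lam f), m l ≤ nrm u → nrm u ≤ 2 * m l →
    ∀ y, Adj u y → y ∈ Upp lam f → y ∈ Low lam f
  x4 : ∀ l < k, 4 * nrm x ≤ m l
  t20 : 0 < k → 20 * m 0 ≤ nrm t
  xt : Conn (Op 0 f ∩ Ball 0 rho) x t
  low : ∀ y, Conn (Op 0 f ∩ Ball 0 rho) x y → 3 * mi < nrm y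

end Pool.Agent.MSTG
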