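import Pool.Agent.MSTG.Prof

/-! # The gain, G10: measurability of the events of part (G)

(problem MP_e1ab72_pr, part (G); helper50)

`MS S`: the random set `S w` is measurable (`{w | v ∈ S w}` is measurable for every vertex `v`).
* `MS.conn`: connection events are measurable.
* `meas_chain`: for fixed data `{w | Chain (w - c) ...}` is measurable; `meas_chains`: the union over all vertices and sequences.
* `meas_loc`: an event which depends only on two random sets in a finite set of vertices is measurable; `meas_fn`: `{w | FN lam (w - c) = s}`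
  (`FN`: the set `As` and the neighbours of its vertices). -/

set_option autoImplicit false

namespace Pool.Agent.MSTG

open Pool.Agent.TriPerc Pool.Agent.MST MeasureTheory Set

/-- A measurable random set. -/
def MS (S : Lab → Set V) : Prop := ∀ v, MeasurableSet {w | v ∈ S w}

theorem MS.conn {S : Lab → Set V} (h : MS S) (x y : V) : MeasurableSet {w | Conn (S w) x y} := by
  have e : {w | Conn (S w) x y} = ⋃ K : Finset V, ⋃ _ : x ∈ K ∧ y ∈ K ∧ IsConn (K : Set V),
      ⋂ v ∈ K, {w | v ∈ S w} := by
    ext w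
    simp only [mem_ofPred_eq, mem_iUnion, mem_iInter, exists_prop]
    constructor
    · intro hc
      obtain ⟨K, hK, hx, hy, hKc⟩ := hc.finset
      exact ⟨K, ⟨hx, hy, hKc⟩, fun v hv => hK hv⟩
    · rintro ⟨K, ⟨hx, hy, hKc⟩, hK⟩
      exact (hKc x hx y hy).mono fun v hv => hK v hv
  rw [e]
  refine MeasurableSet.iUnion fun K => MeasurableSet.iUnion fun _ => ?_
  exact Finset.measurableSet_biInter K fun v _ => h v

theorem MS.inter {S : Lab → Set V} (h : MS S) (B : Set V) : MS fun w => S w ∩ B := by
  intro v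
  by_cases hv : v ∈ B
  · have e : {w | v ∈ S w ∩ B} = {w | v ∈ S w} := by
      ext w
      exact ⟨fun h => h.1, fun h => ⟨h, hv⟩⟩
    rw [e]
    exact h v
  · have e : {w | v ∈ S w ∩ B} = ∅ := by
      ext w
      exact ⟨fun h => absurd h.2 hv, fun h => h.elim⟩
    rw [e]
    exact MeasurableSet.empty

theorem meas_co (c : ℝ) (v : V) : Measurable fun w : Lab => w v - c := by
  have h : Measurable fun w : Lab => w v := measurable_pi_apply v
  exact h.sub_const c

theorem ms_op (c : ℝ) : MS fun w => Op 0 fun v => w v - c := by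
  intro v
  exact measurableSet_le (meas_co c v) measurable_const

theorem ms_lt (c : ℝ) (z : V) : MS fun w => {u | w u - c < w z - c} := by
  intro v
  exact measurableSet_lt (meas_co c v) (meas_co c z)

/-- For fixed data the event `Chain` is measurable. -/
theorem meas_chain (c : ℝ) (rho lo : ℤ) (x t : V) (m : ℕ → ℤ) (om : ℕ → ℝ) (k : ℕ)
    (v p z : ℕ → V) :
    MeasurableSet {w : Lab | Chain (fun u => w u - c) rho lo x t m om k v p z} := by
  have e : {w : Lab | Chain (fun u => w u - c) rho lo x t m om k v p z} =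
      {w | (∀ l < k, Adj (v l) (p l))} ∩ ({w | (∀ l < k, Adj (v l) (z l))} ∩
      ({w | ∀ l < k, m l ≤ nrm (v l) ∧ nrm (v l) ≤ 2 * m l} ∩
      ((⋂ l, ⋂ _ : l < k, {w | om l / 8 < w (v l) - c} ∩ {w | w (v l) - c ≤ om l / 4}) ∩
      ((⋂ l, ⋂ _ : l < k, ⋂ u, ⋂ _ : Adj (v l) u, ⋂ _ : u ≠ p l, ⋂ _ : u ≠ z l,
        {w | w (p l) - c < w u - c} ∩ {w | w (z l) - c < w u - c}) ∩
      ((⋂ l, ⋂ _ : l < k, {w | w (p l) - c ≤ 0}) ∩
      ((⋂ l, ⋂ _ : l < k, {w | w (z l) - c ≤ 0}) ∩
      ((⋂ l, ⋂ _ : l + 1 < k, {w | Conn (Op 0 fun u => w u - c) (p l) (z (l + 1))}) ∩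
      ((⋂ _ : 0 < k, {w | Conn (Op 0 fun u => w u - c) (p (k - 1)) x}) ∩
      ((⋂ _ : 0 < k, {w | Conn ((Op 0 fun u => w u - c) ∩ Ball 0 rho) t (z 0)}) ∩
      ((⋂ l, ⋂ _ : l < k, ⋂ y, ⋂ _ : ¬ (lo < nrm y ∧ nrm y < 3 * m l),
        {w | Conn (Op 0 fun u => w u - c) (p l) y}ᶜ) ∩
      ((⋂ l, ⋂ _ : l < k, ⋂ j, ⋂ _ : j < k, ⋂ _ : l ≠ j,
        {w | Conn (Op 0 fun u => w u - c) (p l) (p j)}ᶜ) ∩
      ((⋂ l, ⋂ _ : l < k, {w | Conn {u | w u - c < w (v l) - c} (p l) (z l)}ᶜ) ∩
      (⋂ l, ⋂ _ : l < k, ⋂ y, ⋂ _ : ¬ (lo < nrm y ∧ nrm y < 10 * m l),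
        {w | Conn {u | w u - c < w (v l) - c} (p l) y}ᶜ))))))))))))) := by
    ext w
    simp only [mem_inter_iff, mem_iInter, mem_ofPred_eq, mem_compl_iff]
    constructor
    · intro h
      refine ⟨h.vp, h.vz, h.nv, h.gl, h.low, h.p0, h.z0, h.pz, h.px, h.tz, ?_, h.sp, h.sep, ?_⟩
      · intro l hl y hy hc
        exact hy (h.bd l hl y hc)
      · intro l hl y hy hc
        exact hy (h.bd' l hl y hc)
    · rintro ⟨h1, h2, h3, h4, h5, h6, h7, h8, h9, h10, h11, h12, h13, h14⟩
      exact
        { vp := h1
          vz := h2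
          nv := h3
          gl := h4
          low := h5
          p0 := h6
          z0 := h7
          pz := h8
          px := h9
          tz := h10
          bd := fun l hl y hc => by
            by_contra hy
            exact h11 l hl y hy hc
          sp := h12
          sep := h13
          bd' := fun l hl y hc => by
            by_contra hy
            exact h14 l hl y hy hc }
  rw [e]
  have hop := ms_op c
  refine (MeasurableSet.const _).inter ((MeasurableSet.const _).inter
    ((MeasurableSet.const _).inter (MeasurableSet.inter ?_ (MeasurableSet.inter ?_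
    (MeasurableSet.inter ?_ (MeasurableSet.inter ?_ (MeasurableSet.inter ?_
    (MeasurableSet.inter ?_ (MeasurableSet.inter ?_ (MeasurableSet.inter ?_
    (MeasurableSet.inter ?_ (MeasurableSet.inter ?_ ?_))))))))))))
  · exact MeasurableSet.iInter fun l => MeasurableSet.iInter fun _ =>
      (measurableSet_lt measurable_const (meas_co c _)).inter
        (measurableSet_le (meas_co c _) measurable_const)
  · exact MeasurableSet.iInter fun l => MeasurableSet.iInter fun _ => MeasurableSet.iInter fun u =>
      MeasurableSet.iInter fun _ => MeasurableSet.iInter fun _ => MeasurableSet.iInter fun _ =>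
      (measurableSet_lt (meas_co c _) (meas_co c _)).inter
        (measurableSet_lt (meas_co c _) (meas_co c _))
  · exact MeasurableSet.iInter fun l => MeasurableSet.iInter fun _ =>
      measurableSet_le (meas_co c _) measurable_const
  · exact MeasurableSet.iInter fun l => MeasurableSet.iInter fun _ =>
      measurableSet_le (meas_co c _) measurable_const
  · exact MeasurableSet.iInter fun l => MeasurableSet.iInter fun _ => hop.conn _ _
  · exact MeasurableSet.iInter fun _ => hop.conn _ _
  · exact MeasurableSet.iInter fun _ => (hop.inter (Ball 0 rho)).conn _ _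
  · exact MeasurableSet.iInter fun l => MeasurableSet.iInter fun _ => MeasurableSet.iInter fun y =>
      MeasurableSet.iInter fun _ => (hop.conn _ _).compl
  · exact MeasurableSet.iInter fun l => MeasurableSet.iInter fun _ => MeasurableSet.iInter fun j =>
      MeasurableSet.iInter fun _ => MeasurableSet.iInter fun _ => (hop.conn _ _).compl
  · exact MeasurableSet.iInter fun l => MeasurableSet.iInter fun _ =>
      ((ms_lt c (v l)).conn _ _).compl
  · exact MeasurableSet.iInter fun l => MeasurableSet.iInter fun _ => MeasurableSet.iInter fun y =>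
      MeasurableSet.iInter fun _ => ((ms_lt c (v l)).conn _ _).compl

/-- `Chain` depends on the first `k` terms only. -/
theorem chain_congr {f : Lab} {rho lo : ℤ} {x t : V} {m : ℕ → ℤ} {om : ℕ → ℝ} {k : ℕ}
    {v p z v' p' z' : ℕ → V} (h : Chain f rho lo x t m om k v p z) (hv : ∀ l < k, v' l = v l)
    (hp : ∀ l < k, p' l = p l) (hz : ∀ l < k, z' l = z l) :
    Chain f rho lo x t m om k v' p' z' :=
  { vp := fun l hl => by
      rw [hv l hl, hp l hl]
      exact h.vp l hl
    vz := fun l hl => by
      rw [hv l hl, hz l hl]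
      exact h.vz l hl
    nv := fun l hl => by
      rw [hv l hl]
      exact h.nv l hl
    gl := fun l hl => by
      rw [hv l hl]
      exact h.gl l hl
    low := fun l hl => by
      rw [hv l hl, hp l hl, hz l hl]
      exact h.low l hl
    p0 := fun l hl => by
      rw [hp l hl]
      exact h.p0 l hl
    z0 := fun l hl => by
      rw [hz l hl]
      exact h.z0 l hl
    pz := fun l hl => by
      rw [hp l (by omega), hz (l + 1) hl]
      exact h.pz l hl
    px := fun hk => by
      rw [hp (k - 1) (by omega)]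
      exact h.px hk
    tz := fun hk => by
      rw [hz 0 hk]
      exact h.tz hk
    bd := fun l hl => by
      rw [hp l hl]
      exact h.bd l hl
    sp := fun l hl j hj => by
      rw [hp l hl, hp j hj]
      exact h.sp l hl j hj
    sep := fun l hl => by
      rw [hv l hl, hp l hl, hz l hl]
      exact h.sep l hl
    bd' := fun l hl => by
      rw [hv l hl, hp l hl]
      exact h.bd' l hl }

private theorem v_countable (k : ℕ) : Countable (Fin k → V) := inferInstance

/-- The union over all vertices and sequences. -/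
theorem meas_chains (c : ℝ) (rho lo : ℤ) (m : ℕ → ℤ) (om : ℕ → ℝ) (k : ℕ) (Q : V → V → Prop) :
    MeasurableSet {w : Lab | ∃ (x t : V) (v p z : ℕ → V), Q x t ∧
      Chain (fun u => w u - c) rho lo x t m om k v p z} := by
  obtain ⟨ex, hex⟩ : ∃ ex : (Fin k → V) → ℕ → V, ex = fun g l => if h : l < k then g ⟨l, h⟩ else 0 :=
    ⟨_, rfl⟩
  have hex' : ∀ (g : ℕ → V), ∀ l < k, ex (fun i => g i) l = g l := by
    intro g l hl
    rw [hex]
    exact dif_pos hl
  have e : {w : Lab | ∃ (x t : V) (v p z : ℕ → V), Q x t ∧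
      Chain (fun u => w u - c) rho lo x t m om k v p z} =
      ⋃ x : V, ⋃ t : V, ⋃ v : Fin k → V, ⋃ p : Fin k → V, ⋃ z : Fin k → V, ⋃ _ : Q x t,
        {w | Chain (fun u => w u - c) rho lo x t m om k (ex v) (ex p) (ex z)} := by
    ext w
    simp only [mem_iUnion, mem_ofPred_eq, exists_prop]
    constructor
    · rintro ⟨x, t, v, p, z, hQ, h⟩
      exact ⟨x, t, fun i => v i, fun i => p i, fun i => z i, hQ,
        chain_congr h (hex' v) (hex' p) (hex' z)⟩
    · rintro ⟨x, t, v, p, z, hQ, h⟩
      exact ⟨x, t, _, _, _, hQ, h⟩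
  rw [e]
  exact MeasurableSet.iUnion fun x => MeasurableSet.iUnion fun t => MeasurableSet.iUnion fun v =>
    MeasurableSet.iUnion fun p => MeasurableSet.iUnion fun z => MeasurableSet.iUnion fun _ =>
      meas_chain c rho lo x t m om k _ _ _

/-! ## Local events -/

theorem MS.iff {S : Lab → Set V} (h : MS S) (v : V) (q : Prop) :
    MeasurableSet {w | v ∈ S w ↔ q} := by
  by_cases hq : q
  · have e : {w | v ∈ S w ↔ q} = {w | v ∈ S w} := by
      ext w
      simp [hq]
    rw [e]
    exact h v
  · have e : {w | v ∈ S w ↔ q} = {w | v ∈ S w}ᶜ := by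
      ext w
      simp [hq]
    rw [e]
    exact (h v).compl

theorem MS.eq {S : Lab → Set V} (h : MS S) (A : Set V) : MeasurableSet {w | S w = A} := by
  have e : {w | S w = A} = ⋂ v : V, {w | v ∈ S w ↔ v ∈ A} := by
    ext w
    simp only [mem_iInter, mem_ofPred_eq]
    exact Set.ext_iff
  rw [e]
  exact MeasurableSet.iInter fun v => h.iff v _

/-- An event which depends on two measurable random sets in a finite set of vertices. -/
theorem meas_loc {S1 S2 : Lab → Set V} (h1 : MS S1) (h2 : MS S2) {D : Set V} (hD : D.Finite)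
    (p : Set V → Set V → Prop) : MeasurableSet {w | p (S1 w ∩ D) (S2 w ∩ D)} := by
  have e : {w | p (S1 w ∩ D) (S2 w ∩ D)} = ⋃ A : Finset V, ⋃ B : Finset V,
      ⋃ _ : p A B, {w | S1 w ∩ D = A} ∩ {w | S2 w ∩ D = B} := by
    ext w
    simp only [mem_iUnion, mem_ofPred_eq, exists_prop, mem_inter_iff]
    constructor
    · intro h
      have f1 : (S1 w ∩ D).Finite := hD.subset inter_subset_right
      have f2 : (S2 w ∩ D).Finite := hD.subset inter_subset_right
      refine ⟨f1.toFinset, f2.toFinset, ?_, f1.coe_toFinset.symm, f2.coe_toFinset.symm⟩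
      rw [f1.coe_toFinset, f2.coe_toFinset]
      exact h
    · rintro ⟨A, B, h, h3, h4⟩
      rw [h3, h4]
      exact h
  rw [e]
  exact MeasurableSet.iUnion fun A => MeasurableSet.iUnion fun B => MeasurableSet.iUnion fun _ =>
    ((h1.inter D).eq _).inter ((h2.inter D).eq _)

theorem ms_low (lam : V → ℝ) (c : ℝ) : MS fun w => Low lam fun v => w v - c := fun v =>
  measurableSet_le (meas_co c v) measurable_const

theorem ms_upp (lam : V → ℝ) (c : ℝ) : MS fun w => Upp lam fun v => w v - c := by
  intro v
  have e : {w : Lab | v ∈ Upp lam fun v => w v - c} =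
      {w | w v - c ≤ - lam v} ∪ {w | w v - c < 2 * lam v} := rfl
  rw [e]
  exact (measurableSet_le (meas_co c v) measurable_const).union
    (measurableSet_lt (meas_co c v) measurable_const)

theorem meas_mx (lam : V → ℝ) (c : ℝ) (u : V) :
    MeasurableSet {w : Lab | Mx (Low lam fun v => w v - c) (Upp lam fun v => w v - c) u} := by
  have e : {w : Lab | Mx (Low lam fun v => w v - c) (Upp lam fun v => w v - c) u} =
      {w : Lab | Mx ((Low lam fun v => w v - c) ∩ Ann u 2 (dd u))
        ((Upp lam fun v => w v - c) ∩ Ann u 2 (dd u)) u} := by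
    ext w
    constructor
    · intro h
      refine mx_loc (fun x _ h2 => h2.1) (fun x hx h2 => ⟨h2, hx⟩) ?_ h
      exact inter_subset_inter_left _ low_upp
    · intro h
      have h1 : Mx ((Low lam fun v => w v - c) ∩ Ann u 2 (dd u))
        ((Upp lam fun v => w v - c) ∩ Ann u 2 (dd u)) u := h
      refine mx_loc (Lo := (Low lam fun v => w v - c) ∩ Ann u 2 (dd u))
        (Up := (Upp lam fun v => w v - c) ∩ Ann u 2 (dd u)) ?_ ?_ low_upp h1
      · exact fun x hx h2 => And.intro h2 hx
      · exact fun x _ h2 => h2.1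
  rw [e]
  exact meas_loc (ms_low lam c) (ms_upp lam c) (finite_ann u 2 (dd u)) fun A B => Mx A B u

theorem ms_as (lam : V → ℝ) (c : ℝ) :
    MS fun w => As (Low lam fun v => w v - c) (Upp lam fun v => w v - c) := by
  intro u
  have e : {w : Lab | u ∈ As (Low lam fun v => w v - c) (Upp lam fun v => w v - c)} =
      {w | u ∈ Upp lam fun v => w v - c} ∩ ({w | u ∈ Low lam fun v => w v - c}ᶜ ∩
        {w | Mx (Low lam fun v => w v - c) (Upp lam fun v => w v - c) u}) := by
    ext w
    exact Iff.rfl
  rw [e]
  exact (ms_upp lam c u).inter ((ms_low lam c u).compl.inter (meas_mx lam c u))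

theorem ms_fn (lam : V → ℝ) (c : ℝ) : MS fun w => FN lam fun v => w v - c := by
  intro u
  have e : {w : Lab | u ∈ FN lam fun v => w v - c} =
      {w | u ∈ As (Low lam fun v => w v - c) (Upp lam fun v => w v - c)} ∪
        ⋃ y : V, ⋃ _ : Adj u y,
          {w | y ∈ As (Low lam fun v => w v - c) (Upp lam fun v => w v - c)} := by
    ext w
    simp only [mem_union, mem_iUnion, mem_ofPred_eq, exists_prop]
    constructor
    · rintro (h | ⟨y, h1, h2⟩)
      · exact Or.inl h
      · exact Or.inr ⟨y, h2, h1⟩
    · rintro (h | ⟨y, h1, h2⟩)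
      · exact Or.inl h
      · exact Or.inr ⟨y, h2, h1⟩
  rw [e]
  exact (ms_as lam c u).union (MeasurableSet.iUnion fun y => MeasurableSet.iUnion fun _ =>
    ms_as lam c y)

theorem meas_fn (lam : V → ℝ) (c : ℝ) (s : Finset V) :
    MeasurableSet {w : Lab | FN lam (fun v => w v - c) = (s : Set V)} :=
  (ms_fn lam c).eq _

end Pool.Agent.MSTG
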