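import Pool.Agent.TriPerc.Meas

/-! # The gain, G9: the relabelling lemma (measure)

(problem MP_e1ab72_pr, part (G); architect helper50)

PROOFS.
* `chg_one`: one vertex. `P {w | Function.update w v (a * w v + b) ∈ B, 0 ≤ a * w v + b ≤ 1} ≤ (1 / c) * P B`: by `mp_update` (the law of `Function.update w v x` under `P.prod unif` is `P`) and
  Tonelli the left side is the integral over `w` of `unif {x | update w v (a x + b) ∈ B, 0 ≤ a x + b ≤ 1}` (update twice = update once), which is at most
  `(1 / a) unif {y | update w v y ∈ B}`: for a measurable `C ⊆ ℝ`: `volume {x | a x + b ∈ C ∩ Icc 0 1} = (1 / a) volume (C ∩ Icc 0 1)` (`Real.volume_preimage_mul_left` or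
  `MeasureTheory.Measure.addHaar_preimage_smul`, and translation).
* `chg_fin`: finite set `s`: induction on `s`, `chg_one`.
* `relabel_measure`: let `Φ s κ w` be the configuration `fun v => α (κ v) v * w v + β (κ v) v`, for `κ` with `κ v = i0` outside the finite set `s`. Up to a null set
  `E ⊆ ⋃ over s (card ≤ M), κ : functions which are i0 outside s, of {w | Φ κ w ∈ E' ∩ {F = s}, values in [0,1]}` (`s = F w`); there are countably many `s` and at most `q ^ card s` functions `κ` for each
  `s`. `chg_fin` gives `P E ≤ ∑ over s (q / c) ^ M * P (E' ∩ {w | F w = s})`, and these sets are measurable and disjoint, so the sum is at most `(q / c) ^ M * P E'`. (`1 ≤ q / c`.) -/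

set_option autoImplicit false

namespace Pool.Agent.MSTG

open Pool.Agent.TriPerc MeasureTheory Set
open scoped ENNReal

private theorem meas_ev (v : V) (a b : ℝ) : Measurable fun w : Lab => a * w v + b := by
  have h : Measurable fun w : Lab => w v := measurable_pi_apply v
  exact (h.const_mul a).add_const b

private theorem meas_upd (v : V) (a b : ℝ) :
    Measurable fun w : Lab => Function.update w v (a * w v + b) := by
  classical
  refine measurable_pi_iff.2 fun u => ?_
  by_cases h : u = v
  · subst h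
    simp only [Function.update_self]
    exact meas_ev u a b
  · simp only [Function.update_of_ne h]
    exact measurable_pi_apply u

private theorem meas_aff (v : V) (a b : ℝ) :
    MeasurableSet {w : Lab | 0 ≤ a * w v + b ∧ a * w v + b ≤ 1} := by
  have h1 := meas_ev v a b
  exact (measurableSet_le measurable_const h1).inter (measurableSet_le h1 measurable_const)

private theorem vol_aff {a b : ℝ} (ha : 0 < a) (D : Set ℝ) :
    volume {x : ℝ | a * x + b ∈ D} = ENNReal.ofReal (1 / a) * volume D := by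
  have h1 := Real.volume_preimage_mul_left ha.ne' ((fun x => x + b) ⁻¹' D)
  have h2 := measure_preimage_add_right (volume : Measure ℝ) b D
  rw [h2, abs_of_pos (inv_pos.2 ha), ← one_div] at h1
  exact h1

theorem chg_one {a b c : ℝ} (hc : 0 < c) (hca : c ≤ a) (v : V) {B : Set Lab}
    (hB : MeasurableSet B) :
    P {w | Function.update w v (a * w v + b) ∈ B ∧ 0 ≤ a * w v + b ∧ a * w v + b ≤ 1} ≤
      ENNReal.ofReal (1 / c) * P B := by
  have ha : 0 < a := hc.trans_le hca
  have hA : MeasurableSet {w : Lab | Function.update w v (a * w v + b) ∈ B ∧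
      0 ≤ a * w v + b ∧ a * w v + b ≤ 1} := (meas_upd v a b hB).inter (meas_aff v a b)
  have hm := mp_update v
  rw [← hm.measure_preimage hA.nullMeasurableSet, ← hm.measure_preimage hB.nullMeasurableSet,
    Measure.prod_apply (hm.measurable hA), Measure.prod_apply (hm.measurable hB),
    ← lintegral_const_mul _ (measurable_measure_prodMk_left (hm.measurable hB))]
  refine lintegral_mono fun w => ?_
  have h1 : (Prod.mk w ⁻¹' ((fun z : Lab × ℝ => Function.update z.1 v z.2) ⁻¹'
      {w : Lab | Function.update w v (a * w v + b) ∈ B ∧ 0 ≤ a * w v + b ∧ a * w v + b ≤ 1})) =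
      {x : ℝ | a * x + b ∈ {y : ℝ | Function.update w v y ∈ B} ∩ Icc 0 1} := by
    ext x
    show (Function.update (Function.update w v x) v (a * Function.update w v x v + b) ∈ B ∧
      0 ≤ a * Function.update w v x v + b ∧ a * Function.update w v x v + b ≤ 1) ↔
      (Function.update w v (a * x + b) ∈ B ∧ 0 ≤ a * x + b ∧ a * x + b ≤ 1)
    rw [Function.update_idem, Function.update_self]
  have h2 : (Prod.mk w ⁻¹' ((fun z : Lab × ℝ => Function.update z.1 v z.2) ⁻¹' B)) =
      {y : ℝ | Function.update w v y ∈ B} := rfl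
  have hC : MeasurableSet {y : ℝ | Function.update w v y ∈ B} := by
    rw [← h2]
    exact measurable_prodMk_left (hm.measurable hB)
  rw [h1, h2]
  calc unif {x : ℝ | a * x + b ∈ {y : ℝ | Function.update w v y ∈ B} ∩ Icc 0 1}
      ≤ volume {x : ℝ | a * x + b ∈ {y : ℝ | Function.update w v y ∈ B} ∩ Icc 0 1} :=
        Measure.restrict_apply_le _ _
    _ = ENNReal.ofReal (1 / a) * volume ({y : ℝ | Function.update w v y ∈ B} ∩ Icc 0 1) :=
        vol_aff ha _
    _ = ENNReal.ofReal (1 / a) * unif {y : ℝ | Function.update w v y ∈ B} := by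
        rw [unif, Measure.restrict_apply hC]
    _ ≤ ENNReal.ofReal (1 / c) * unif {y : ℝ | Function.update w v y ∈ B} :=
        mul_le_mul_left (ENNReal.ofReal_le_ofReal (one_div_le_one_div_of_le hc hca)) _

open Classical in
/-- the change on a finite set -/
private noncomputable def Ph (a b : V → ℝ) (s : Finset V) (w : Lab) : Lab :=
  fun v => if v ∈ s then a v * w v + b v else w v

private theorem meas_Ph (a b : V → ℝ) (s : Finset V) : Measurable (Ph a b s) := by
  refine measurable_pi_iff.2 fun u => ?_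
  unfold Ph
  by_cases h : u ∈ s
  · simp only [if_pos h]
    exact meas_ev u (a u) (b u)
  · simp only [if_neg h]
    exact measurable_pi_apply u

private theorem meas_box (a b : V → ℝ) (s : Finset V) :
    MeasurableSet {w : Lab | ∀ v ∈ s, 0 ≤ a v * w v + b v ∧ a v * w v + b v ≤ 1} := by
  have h : {w : Lab | ∀ v ∈ s, 0 ≤ a v * w v + b v ∧ a v * w v + b v ≤ 1} =
      ⋂ v ∈ s, {w : Lab | 0 ≤ a v * w v + b v ∧ a v * w v + b v ≤ 1} := by
    ext w
    simp
  rw [h]
  exact Finset.measurableSet_biInter s fun v _ => meas_aff v (a v) (b v)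

private theorem chg_Ph {a b : V → ℝ} {c : ℝ} (hc : 0 < c) (hca : ∀ v, c ≤ a v) (s : Finset V) :
    ∀ {B : Set Lab}, MeasurableSet B →
    P {w | Ph a b s w ∈ B ∧ ∀ v ∈ s, 0 ≤ a v * w v + b v ∧ a v * w v + b v ≤ 1} ≤
      ENNReal.ofReal ((1 / c) ^ s.card) * P B := by
  classical
  induction s using Finset.induction_on with
  | empty =>
    intro B hB
    have h : {w : Lab | Ph a b ∅ w ∈ B ∧ ∀ v ∈ (∅ : Finset V),
        0 ≤ a v * w v + b v ∧ a v * w v + b v ≤ 1} = B := by
      ext w
      have h1 : Ph a b ∅ w = w := by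
        funext v
        exact if_neg (Finset.notMem_empty v)
      show (Ph a b ∅ w ∈ B ∧ _) ↔ w ∈ B
      rw [h1]
      exact ⟨fun h => h.1, fun h => ⟨h, fun v hv => absurd hv (Finset.notMem_empty v)⟩⟩
    rw [h]
    simp
  | insert u s hu ih =>
    intro B hB
    obtain ⟨B', hB'⟩ : ∃ B' : Set Lab, B' = {w | Ph a b s w ∈ B ∧
        ∀ v ∈ s, 0 ≤ a v * w v + b v ∧ a v * w v + b v ≤ 1} := ⟨_, rfl⟩
    have hm : MeasurableSet B' := by
      rw [hB']
      exact (meas_Ph a b s hB).inter (meas_box a b s)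
    have h1 : {w : Lab | Ph a b (insert u s) w ∈ B ∧ ∀ v ∈ insert u s,
        0 ≤ a v * w v + b v ∧ a v * w v + b v ≤ 1} ⊆
        {w | Function.update w u (a u * w u + b u) ∈ B' ∧ 0 ≤ a u * w u + b u ∧
          a u * w u + b u ≤ 1} := by
      rintro w ⟨w1, w2⟩
      refine ⟨?_, w2 u (Finset.mem_insert_self u s)⟩
      rw [hB']
      refine ⟨?_, ?_⟩
      · have e : Ph a b s (Function.update w u (a u * w u + b u)) = Ph a b (insert u s) w := by
          funext v
          unfold Ph
          by_cases hvu : v = u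
          · subst hvu
            rw [if_neg hu, if_pos (Finset.mem_insert_self v s), Function.update_self]
          · rw [Function.update_of_ne hvu]
            by_cases hv : v ∈ s
            · rw [if_pos hv, if_pos (Finset.mem_insert_of_mem hv)]
            · rw [if_neg hv, if_neg fun h => (Finset.mem_insert.1 h).elim hvu hv]
        rw [e]
        exact w1
      · intro v hv
        have hvu : v ≠ u := by
          rintro rfl
          exact hu hv
        rw [Function.update_of_ne hvu]
        exact w2 v (Finset.mem_insert_of_mem hv)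
    have h2 := ih hB
    rw [← hB'] at h2
    calc P {w : Lab | Ph a b (insert u s) w ∈ B ∧ ∀ v ∈ insert u s,
        0 ≤ a v * w v + b v ∧ a v * w v + b v ≤ 1}
        ≤ P {w | Function.update w u (a u * w u + b u) ∈ B' ∧ 0 ≤ a u * w u + b u ∧
          a u * w u + b u ≤ 1} := measure_mono h1
      _ ≤ ENNReal.ofReal (1 / c) * P B' := chg_one hc (hca u) u hm
      _ ≤ ENNReal.ofReal (1 / c) * (ENNReal.ofReal ((1 / c) ^ s.card) * P B) :=
          mul_le_mul_right h2 _
      _ = ENNReal.ofReal ((1 / c) ^ (insert u s).card) * P B := by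
          rw [Finset.card_insert_of_notMem hu, ← mul_assoc, ← ENNReal.ofReal_mul (by positivity),
            pow_succ, mul_comm (1 / c)]

theorem chg_fin {a b : V → ℝ} {c : ℝ} (hc : 0 < c) (hca : ∀ v, c ≤ a v) (s : Finset V)
    (hs : ∀ v, v ∉ s → a v = 1 ∧ b v = 0) {B : Set Lab} (hB : MeasurableSet B) :
    P {w | (fun v => a v * w v + b v) ∈ B ∧ ∀ v ∈ s, 0 ≤ a v * w v + b v ∧ a v * w v + b v ≤ 1} ≤
      ENNReal.ofReal ((1 / c) ^ s.card) * P B := by
  have h : ∀ w : Lab, (fun v => a v * w v + b v) = Ph a b s w := by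
    intro w
    funext v
    unfold Ph
    by_cases hv : v ∈ s
    · rw [if_pos hv]
    · rw [if_neg hv, (hs v hv).1, (hs v hv).2]
      ring
  have h2 := chg_Ph (b := b) hc hca s hB
  simp only [← h] at h2
  exact h2

/-- The relabelling lemma. -/
theorem relabel_measure {q : ℕ} {α β : Fin q → V → ℝ} {i0 : Fin q} {c : ℝ} (hc : 0 < c)
    (hc1 : c ≤ 1) (hα : ∀ i v, c ≤ α i v) (hi0 : ∀ v, α i0 v = 1 ∧ β i0 v = 0)
    {F : Lab → Set V} {M : ℕ} {E E' : Set Lab}
    (hF : ∀ s : Finset V, MeasurableSet {w | F w = (s : Set V)}) (hE' : MeasurableSet E')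
    (h : ∀ᵐ w ∂P, w ∈ E → (F w).Finite ∧ (F w).ncard ≤ M ∧ ∃ κ : V → Fin q,
      (∀ v, v ∉ F w → κ v = i0) ∧ (fun v => α (κ v) v * w v + β (κ v) v) ∈ E' ∧
      F (fun v => α (κ v) v * w v + β (κ v) v) = F w ∧
      ∀ v, 0 ≤ α (κ v) v * w v + β (κ v) v ∧ α (κ v) v * w v + β (κ v) v ≤ 1) :
    P E ≤ ENNReal.ofReal ((q / c) ^ M) * P E' := by
  classical
  have hq : 1 ≤ q := Nat.one_le_iff_ne_zero.2 fun h0 => by
    subst h0
    exact i0.elim0
  have hqc : (1 : ℝ) ≤ q / c := by
    rw [le_div_iff₀ hc, one_mul]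
    exact hc1.trans (by exact_mod_cast hq)
  obtain ⟨D, hD⟩ : ∃ D : Finset V → Set Lab, D = fun s : Finset V => E' ∩ {w | F w = (s : Set V)} :=
    ⟨_, rfl⟩
  have hDm : ∀ s, MeasurableSet (D s) := fun s => by
    rw [hD]
    exact hE'.inter (hF s)
  obtain ⟨kk, hkk⟩ : ∃ kk : (s : Finset V) → (s → Fin q) → V → Fin q,
      kk = fun s f v => if hv : v ∈ s then f ⟨v, hv⟩ else i0 := ⟨_, rfl⟩
  have hk0 : ∀ (s : Finset V) (f : s → Fin q) (v : V), v ∉ s → kk s f v = i0 := by
    intro s f v hv
    rw [hkk]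
    exact dif_neg hv
  obtain ⟨G, hG⟩ : ∃ G : (s : Finset V) → (s → Fin q) → Set Lab, G = fun s f =>
      {w | (fun v => α (kk s f v) v * w v + β (kk s f v) v) ∈ D s ∧
        ∀ v ∈ s, 0 ≤ α (kk s f v) v * w v + β (kk s f v) v ∧
          α (kk s f v) v * w v + β (kk s f v) v ≤ 1} := ⟨_, rfl⟩
  have hGP : ∀ s f, P (G s f) ≤ ENNReal.ofReal ((1 / c) ^ s.card) * P (D s) := by
    intro s f
    rw [hG]
    exact chg_fin (a := fun v => α (kk s f v) v) (b := fun v => β (kk s f v) v) hc
      (fun v => hα _ v) s (fun v hv => by rw [hk0 s f v hv]; exact hi0 v) (hDm s)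
  obtain ⟨U, hU⟩ : ∃ U : Finset V → Set Lab, U = fun s : Finset V =>
      if s.card ≤ M then ⋃ f : s → Fin q, G s f else ∅ := ⟨_, rfl⟩
  have hUP : ∀ s, P (U s) ≤ ENNReal.ofReal ((q / c) ^ M) * P (D s) := by
    intro s
    rw [hU]
    by_cases hs : s.card ≤ M
    · simp only [if_pos hs]
      calc P (⋃ f : s → Fin q, G s f) ≤ ∑ f : s → Fin q, P (G s f) :=
            measure_iUnion_fintype_le _ _
        _ ≤ ∑ _f : s → Fin q, ENNReal.ofReal ((1 / c) ^ s.card) * P (D s) :=
            Finset.sum_le_sum fun f _ => hGP s f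
        _ = ENNReal.ofReal ((q / c) ^ s.card) * P (D s) := by
            rw [Finset.sum_const, Finset.card_univ, Fintype.card_fun, Fintype.card_coe,
              Fintype.card_fin, nsmul_eq_mul, ← mul_assoc]
            congr 1
            rw [← ENNReal.ofReal_natCast, ← ENNReal.ofReal_mul (by positivity)]
            congr 1
            push_cast
            rw [← mul_pow, mul_one_div]
        _ ≤ ENNReal.ofReal ((q / c) ^ M) * P (D s) :=
            mul_le_mul_left (ENNReal.ofReal_le_ofReal (pow_le_pow_right₀ hqc hs)) _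
    · simp only [if_neg hs]
      rw [measure_empty]
      exact zero_le
  have hsub : ∀ᵐ w ∂P, w ∈ E → w ∈ ⋃ s, U s := by
    filter_upwards [h] with w hw hwE
    obtain ⟨hfin, hcard, κ, h1, h2, h3, h4⟩ := hw hwE
    refine mem_iUnion.2 ⟨hfin.toFinset, ?_⟩
    rw [hU]
    have hs : hfin.toFinset.card ≤ M := by
      rwa [← Set.ncard_eq_toFinset_card (F w) hfin]
    simp only [if_pos hs]
    refine mem_iUnion.2 ⟨fun v => κ v.1, ?_⟩
    have hk : kk hfin.toFinset (fun v => κ v.1) = κ := by
      funext v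
      rw [hkk]
      by_cases hv : v ∈ hfin.toFinset
      · simp only [dif_pos hv]
      · simp only [dif_neg hv]
        exact (h1 v fun hv' => hv (hfin.mem_toFinset.2 hv')).symm
    rw [hG]
    simp only [hk]
    refine ⟨?_, fun v _ => h4 v⟩
    rw [hD]
    refine ⟨h2, ?_⟩
    show F (fun v => α (κ v) v * w v + β (κ v) v) = (hfin.toFinset : Set V)
    rw [h3, hfin.coe_toFinset]
  have hdis : Pairwise (Function.onFun Disjoint D) := by
    intro s s' hss
    rw [Function.onFun, Set.disjoint_left, hD]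
    rintro w ⟨-, hw⟩ ⟨-, hw'⟩
    have e : (s : Set V) = (s' : Set V) := (show F w = (s : Set V) from hw).symm.trans hw'
    exact hss (Finset.coe_injective e)
  calc P E ≤ P (⋃ s, U s) := measure_mono_ae hsub
    _ ≤ ∑' s, P (U s) := measure_iUnion_le _
    _ ≤ ∑' s, ENNReal.ofReal ((q / c) ^ M) * P (D s) := ENNReal.tsum_le_tsum hUP
    _ = ENNReal.ofReal ((q / c) ^ M) * P (⋃ s, D s) := by
        rw [ENNReal.tsum_mul_left, measure_iUnion hdis hDm]
    _ ≤ ENNReal.ofReal ((q / c) ^ M) * P E' := by
        refine mul_le_mul_right (measure_mono (iUnion_subset fun s => ?_)) _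
        rw [hD]
        exact inter_subset_left

end Pool.Agent.MSTG
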