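import Pool.Agent.MSTG.Comp
import Pool.Agent.MSTG.MeasB
import Pool.Agent.MSTG.RelP

/-! # The gain, G14: the probability half of the relabelling

(problem MP_e1ab72_pr, parts (G) and (S); helper50)

* `ae_aff`: for `u ≠ v` almost surely `a w u + b ≠ c w v + d` (`c ≠ 0`).
* `ae_cmap`: almost surely the labels of different vertices are different after any of the maps `cmap`.
* `relabel_cmap`: the relabelling lemma for the maps `cmap` and the random set `FN`. -/

set_option autoImplicit false

namespace Pool.Agent.MSTG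

open Pool.Agent.TriPerc Pool.Agent.MST MeasureTheory Set

theorem ae_aff {a b c d : ℝ} (hc : c ≠ 0) {u v : V} (huv : u ≠ v) :
    ∀ᵐ w ∂P, a * w u + b ≠ c * w v + d := by
  have h0 : ∀ x : ℝ, unif {x} = 0 := fun x =>
    le_antisymm ((Measure.restrict_apply_le _ _).trans (by simp)) bot_le
  rw [ae_iff]
  have g1 : Measurable fun w : Lab => a * w u + b := by
    have h : Measurable fun w : Lab => w u := measurable_pi_apply u
    exact (h.const_mul a).add_const b
  have g2 : Measurable fun w : Lab => c * w v + d := by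
    have h : Measurable fun w : Lab => w v := measurable_pi_apply v
    exact (h.const_mul c).add_const d
  have hms : MeasurableSet {w : Lab | a * w u + b = c * w v + d} := measurableSet_eq_fun g1 g2
  have h1 : {w : Lab | ¬ (a * w u + b ≠ c * w v + d)} = {w | a * w u + b = c * w v + d} := by
    ext w
    simp
  rw [h1, ← (mp_update v).measure_preimage hms.nullMeasurableSet,
    Measure.measure_prod_null ((mp_update v).measurable hms)]
  refine Filter.Eventually.of_forall fun w => ?_
  have h2 : Prod.mk w ⁻¹' ((fun z : Lab × ℝ => Function.update z.1 v z.2) ⁻¹'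
      {w : Lab | a * w u + b = c * w v + d}) = {(a * w u + b - d) / c} := by
    ext x
    simp only [mem_preimage, mem_ofPred_eq, Function.update_self, Function.update_of_ne huv,
      mem_singleton_iff]
    rw [eq_div_iff hc]
    constructor
    · intro h
      linarith
    · intro h
      linarith
  exact (congrArg unif h2).trans (h0 _)

theorem cmap_w (i : Fin 4 × Fin 6 × Fin 2) (l x : ℝ) :
    cmap i l (x - 1 / 2) = csl i * x + cmap i l (-1 / 2) := by
  rw [cmap_aff i l (x - 1 / 2) (-1 / 2)]
  ring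

/-- Almost surely the labels of different vertices are different after any of the maps. -/
theorem ae_cmap (lam : V → ℝ) : ∀ᵐ w ∂P, ∀ u v : V, u ≠ v → ∀ i j : Fin 4 × Fin 6 × Fin 2,
    cmap i (lam u) (w u - 1 / 2) ≠ cmap j (lam v) (w v - 1 / 2) := by
  rw [ae_all_iff]
  intro u
  rw [ae_all_iff]
  intro v
  by_cases huv : u = v
  · exact Filter.Eventually.of_forall fun w h => absurd huv h
  · have h1 : ∀ᵐ w ∂P, ∀ i j : Fin 4 × Fin 6 × Fin 2,
        cmap i (lam u) (w u - 1 / 2) ≠ cmap j (lam v) (w v - 1 / 2) := by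
      rw [ae_all_iff]
      intro i
      rw [ae_all_iff]
      intro j
      have hc : csl j ≠ 0 := by
        have := csl_ge j
        intro h
        rw [h] at this
        norm_num at this
      filter_upwards [ae_aff (a := csl i) (b := cmap i (lam u) (-1 / 2)) (c := csl j)
        (d := cmap j (lam v) (-1 / 2)) hc huv] with w hw
      rw [cmap_w, cmap_w]
      exact hw
    filter_upwards [h1] with w hw h
    exact hw

private theorem csl_zero : csl (0, 0, 0) = 1 := by
  unfold csl tsl rsl ssl
  simp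

/-- The relabelling lemma for the maps `cmap`. -/
theorem relabel_cmap {lam : V → ℝ} {M : ℕ} {E E' : Set Lab} (hE' : MeasurableSet E')
    (h : ∀ᵐ w ∂P, w ∈ E → (FN lam fun v => w v - 1 / 2).Finite ∧
      (FN lam fun v => w v - 1 / 2).ncard ≤ M ∧ ∃ κ : V → Fin 4 × Fin 6 × Fin 2,
        (∀ u, κ u ≠ (0, 0, 0) → u ∈ FN lam fun v => w v - 1 / 2) ∧
        FN lam (fun u => cmap (κ u) (lam u) (w u - 1 / 2)) = (FN lam fun v => w v - 1 / 2) ∧
        (∀ u, -1 / 2 ≤ cmap (κ u) (lam u) (w u - 1 / 2) ∧
          cmap (κ u) (lam u) (w u - 1 / 2) ≤ 1 / 2) ∧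
        (fun u => cmap (κ u) (lam u) (w u - 1 / 2) + 1 / 2) ∈ E') :
    P E ≤ ENNReal.ofReal (4608 ^ M) * P E' := by
  obtain ⟨e⟩ : Nonempty (Fin 4 × Fin 6 × Fin 2 ≃ Fin 48) :=
    ⟨Fintype.equivFinOfCardEq (by simp)⟩
  have key := relabel_measure (q := 48) (α := fun i _ => csl (e.symm i))
    (β := fun i v => cmap (e.symm i) (lam v) (-1 / 2) + 1 / 2) (i0 := e (0, 0, 0)) (c := 1 / 96)
    (F := fun w => FN lam fun v => w v - 1 / 2) (M := M) (E := E) (E' := E')
    (by norm_num) (by norm_num) (fun i _ => csl_ge _) (fun v => ?_) (meas_fn lam (1 / 2)) hE' ?_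
  · have h1 : ((48 : ℕ) : ℝ) / (1 / 96) = 4608 := by norm_num
    rw [h1] at key
    exact key
  · rw [e.symm_apply_apply]
    refine ⟨csl_zero, ?_⟩
    rw [cmap_zero]
    norm_num
  · filter_upwards [h] with w hw hE
    obtain ⟨h1, h2, κ, h3, h4, h5, h6⟩ := hw hE
    have e1 : ∀ v, csl (e.symm (e (κ v))) * w v +
        (cmap (e.symm (e (κ v))) (lam v) (-1 / 2) + 1 / 2) =
        cmap (κ v) (lam v) (w v - 1 / 2) + 1 / 2 := by
      intro v
      rw [e.symm_apply_apply, cmap_w]
      ring
    have e2 : (fun v => csl (e.symm (e (κ v))) * w v +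
        (cmap (e.symm (e (κ v))) (lam v) (-1 / 2) + 1 / 2)) =
        fun v => cmap (κ v) (lam v) (w v - 1 / 2) + 1 / 2 := funext e1
    refine ⟨h1, h2, fun v => e (κ v), fun v hv => ?_, ?_, ?_, fun v => ?_⟩
    · by_contra h7
      exact hv (h3 v fun h8 => h7 (congrArg e h8))
    · change (fun v => csl (e.symm (e (κ v))) * w v +
        (cmap (e.symm (e (κ v))) (lam v) (-1 / 2) + 1 / 2)) ∈ E'
      rw [e2]
      exact h6
    · have e3 : (fun v => csl (e.symm (e (κ v))) * w v +
          (cmap (e.symm (e (κ v))) (lam v) (-1 / 2) + 1 / 2) - 1 / 2) =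
          fun v => cmap (κ v) (lam v) (w v - 1 / 2) := by
        funext v
        rw [e1]
        ring
      change FN lam (fun v => csl (e.symm (e (κ v))) * w v +
          (cmap (e.symm (e (κ v))) (lam v) (-1 / 2) + 1 / 2) - 1 / 2) = _
      rw [e3]
      exact h4
    · have h7 := h5 v
      have h8 := e1 v
      change 0 ≤ csl (e.symm (e (κ v))) * w v + (cmap (e.symm (e (κ v))) (lam v) (-1 / 2) + 1 / 2) ∧
        csl (e.symm (e (κ v))) * w v + (cmap (e.symm (e (κ v))) (lam v) (-1 / 2) + 1 / 2) ≤ 1
      rw [h8]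
      constructor <;> linarith

end Pool.Agent.MSTG
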