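import Pool.Agent.MST.Ex
import Pool.Agent.MSTG.Defs

/-! # The gain, G7: the tree path through the gates

(problem MP_e1ab72_pr, part (G); architect helper50)

PROOFS.
* `mst_gate`: let `Conn {u | f u < f v}` be written `~`. Suppose `p` and `v` are joined below `EL f p v` (`Jd univ ∅ f (EL f p v) p v`). The set `R = comp {u | f u < f v} p` is closed under
  the steps: let `u ∈ R` and `Adj u y`, `EL f u y < EL f p v`. If `y = v` then the second coordinates give `f u < f p` (the first coordinates are `f v`, since `f u < f v`,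
  `f p < f v`), so `u = z` by `low` (`u ≠ p`), but `z ∉ R` by `sep`. So `y ≠ v`; `max (f u) (f y) ≤ f v` (`max_le_of_EL_lt`), `f y ≠ f v` (`hf`), so `f y < f v` and `y ∈ R` (`comp_adj`). Hence
  `v ∈ R`, contradiction (`f v < f v`). For `MT univ ∅ f v z`: the same with `p`, `z` exchanged (`Jd.symm`, `MT.symm`).
* `pa_app`: concatenation of two paths which have only the end point in common.
* `chain_path`: by induction on `j < k` (number of the gates which have been passed, `l = k - 1 - j`) there is a path of `MT univ ∅ f` from `x` to `z l`, whose vertices, except the last one, are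
  gates `v i` or in `comp (Op 0 f) (p i)`, with `l ≤ i < k`. Start: `tpath` (`z := p (k-1)`, level `0`; the component is finite: `bd` and `finite_ball`) from `x` to `p (k-1)`, then
  `v (k-1)`, `z (k-1)` (`mst_gate`: `f (p l) ≤ 0 < f (v l)`). Step: `tpath` from `z (l+1)` to `p l` in `comp (Op 0 f) (p l)` (`pz`), then `v l`, `z l`. Disjointness: `sp`; `v i ∉ Op 0 f`;
  `v i ≠ v l` (norms, `hmm`); `z l ∉ comp (Op 0 f) (p l)`: `sep` and `Op 0 f ⊆ {f < f (v l)}`; `z l ∉ comp (Op 0 f) (p i)` for `l < i`: `nrm (z l) ≥ m l - 1 ≥ 3 m i`, `bd`. -/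

set_option autoImplicit false

namespace Pool.Agent.MSTG

open Pool.Agent.TriPerc Pool.Agent.MST Set

private theorem gate1 {f : Lab} (hf : Function.Injective f) {v p z : V} (hp : Adj v p)
    (fp : f p < f v)
    (low : ∀ u, Adj v u → u ≠ p → u ≠ z → f p < f u ∧ f z < f u)
    (sep : ¬ Conn {u | f u < f v} p z) : MT univ ∅ f p v := by
  refine ⟨hp.symm, trivial, trivial, fun h => ?_⟩
  have key : ∀ u, Jd univ ∅ f (EL f p v) p u → Conn {u | f u < f v} p u := by
    intro u hu
    induction hu with
    | refl => exact Conn.refl fp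
    | @tail b c _ hbc ih =>
      rcases hbc with ⟨h1, -, -, h2⟩ | ⟨h1, -⟩
      · have hb : f b < f v := ih.right
        by_cases hc : c = v
        · exfalso
          subst hc
          have h3 : f b < f p := by
            unfold EL at h2
            rw [Prod.Lex.lt_iff] at h2
            rcases h2 with h4 | h4
            · change max (f b) (f c) < max (f p) (f c) at h4
              rw [max_eq_right hb.le, max_eq_right fp.le] at h4
              exact absurd h4 (lt_irrefl _)
            · have h5 : min (f b) (f c) < min (f p) (f c) := h4.2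
              rwa [min_eq_left hb.le, min_eq_left fp.le] at h5
          have hbp : b ≠ p := fun h4 => by
            rw [h4] at h3
            exact lt_irrefl _ h3
          by_cases hbz : b = z
          · rw [hbz] at ih
            exact sep ih
          · exact lt_asymm h3 (low b h1.symm hbp hbz).1
        · have h3 : f c ≤ f v := by
            have h4 := max_le_of_EL_lt h2
            rw [max_eq_right fp.le] at h4
            exact (le_max_right _ _).trans h4
          have h5 : f c < f v := lt_of_le_of_ne h3 fun h6 => hc (hf h6)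
          exact ih.trans (Conn.of_adj hb h5 h1)
      · exact absurd h1 (Set.notMem_empty _)
  exact lt_irrefl (f v) (key v h).right

theorem mst_gate {f : Lab} (hf : Function.Injective f) {v p z : V} (hp : Adj v p) (hz : Adj v z)
    (fp : f p < f v) (fz : f z < f v)
    (low : ∀ u, Adj v u → u ≠ p → u ≠ z → f p < f u ∧ f z < f u)
    (sep : ¬ Conn {u | f u < f v} p z) : MT univ ∅ f p v ∧ MT univ ∅ f v z :=
  ⟨gate1 hf hp fp low sep, (gate1 hf hz fz (fun u h1 h2 h3 => (low u h1 h3 h2).symm)
    fun h => sep h.symm).symm⟩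

theorem pa_app {R : V → V → Prop} {g g' : ℕ → V} {n n' : ℕ} (h : IsPa R g n) (h' : IsPa R g' n')
    (he : g n = g' 0) (hd : ∀ i < n, ∀ j ≤ n', g i ≠ g' j) :
    ∃ g'' : ℕ → V, IsPa R g'' (n + n') ∧ (∀ i ≤ n, g'' i = g i) ∧ ∀ j ≤ n', g'' (n + j) = g' j := by
  obtain ⟨g'', hA, hB⟩ : ∃ g'' : ℕ → V, (∀ i ≤ n, g'' i = g i) ∧ ∀ j, g'' (n + j) = g' j := by
    refine ⟨fun i => if i ≤ n then g i else g' (i - n), fun i hi => if_pos hi, fun j => ?_⟩
    rcases Nat.eq_zero_or_pos j with h0 | h0
    · subst h0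
      simp [he]
    · change (if n + j ≤ n then g (n + j) else g' (n + j - n)) = g' j
      rw [if_neg (by omega), show n + j - n = j by omega]
  refine ⟨g'', ⟨fun i hi => ?_, ?_⟩, hA, fun j _ => hB j⟩
  · rcases lt_or_ge i n with h1 | h1
    · rw [hA i h1.le, hA (i + 1) h1]
      exact h.step i h1
    · obtain ⟨j, rfl⟩ := Nat.exists_eq_add_of_le h1
      rw [hB j, Nat.add_assoc, hB (j + 1)]
      exact h'.step j (by omega)
  · have key : ∀ i j, i ≤ n → j ≤ n' → g'' i = g'' (n + j) → i = n + j := by
      intro i j hi hj hij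
      rw [hA i hi, hB j] at hij
      rcases Nat.eq_or_lt_of_le hi with h1 | h1
      · subst h1
        rw [he] at hij
        have := h'.inj 0 j (Nat.zero_le _) hj hij
        omega
      · exact absurd hij (hd i h1 j hj)
    intro i j hi hj hij
    rcases le_total i n with h1 | h1 <;> rcases le_total j n with h2 | h2
    · rw [hA i h1, hA j h2] at hij
      exact h.inj i j h1 h2 hij
    · obtain ⟨j', rfl⟩ := Nat.exists_eq_add_of_le h2
      exact key i j' h1 (by omega) hij
    · obtain ⟨i', rfl⟩ := Nat.exists_eq_add_of_le h1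
      exact (key j i' h2 (by omega) hij.symm).symm
    · obtain ⟨i', rfl⟩ := Nat.exists_eq_add_of_le h1
      obtain ⟨j', rfl⟩ := Nat.exists_eq_add_of_le h2
      rw [hB, hB] at hij
      rw [h'.inj i' j' (by omega) (by omega) hij]

private theorem two_path {f : Lab} (hf : Function.Injective f) {v p z : V} (hp : Adj v p)
    (hz : Adj v z) (fp : f p < f v) (fz : f z < f v)
    (low : ∀ u, Adj v u → u ≠ p → u ≠ z → f p < f u ∧ f z < f u)
    (sep : ¬ Conn {u | f u < f v} p z) :
    ∃ b : ℕ → V, b 0 = p ∧ b 1 = v ∧ b 2 = z ∧ IsPa (MT univ ∅ f) b 2 := by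
  obtain ⟨h1, h2⟩ := mst_gate hf hp hz fp fz low sep
  have hpz : p ≠ z := fun h => sep (h ▸ Conn.refl (show p ∈ {u | f u < f v} from fp))
  have hpv : p ≠ v := hp.symm.ne
  have hvz : v ≠ z := hz.ne
  obtain ⟨b, b0, b1, b2⟩ : ∃ b : ℕ → V, b 0 = p ∧ b 1 = v ∧ b 2 = z :=
    ⟨fun i => if i = 0 then p else if i = 1 then v else z, rfl, rfl, rfl⟩
  refine ⟨b, b0, b1, b2, ⟨fun i hi => ?_, fun i j hi hj hij => ?_⟩⟩
  · have : i = 0 ∨ i = 1 := by omega
    rcases this with rfl | rfl
    · rw [b0, b1]
      exact h1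
    · rw [b1, b2]
      exact h2
  · have hi' : i = 0 ∨ i = 1 ∨ i = 2 := by omega
    have hj' : j = 0 ∨ j = 1 ∨ j = 2 := by omega
    rcases hi' with rfl | rfl | rfl <;> rcases hj' with rfl | rfl | rfl <;>
      simp only [b0, b1, b2] at hij
    · rfl
    · exact absurd hij hpv
    · exact absurd hij hpz
    · exact absurd hij.symm hpv
    · rfl
    · exact absurd hij hvz
    · exact absurd hij.symm hpz
    · exact absurd hij.symm hvz
    · rfl

private theorem gate_path {f : Lab} {rho lo : ℤ} {x t : V} {m : ℕ → ℤ} {om : ℕ → ℝ} {k : ℕ}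
    {v p z : ℕ → V} (hf : Function.Injective f) (h : Chain f rho lo x t m om k v p z)
    (hom : ∀ l < k, 0 < om l) {l : ℕ} (hl : l < k) {y : V} (hy : Conn (Op 0 f) (p l) y) :
    ∃ (g : ℕ → V) (n : ℕ), g 0 = y ∧ g n = z l ∧ 0 < n ∧ IsPa (MT univ ∅ f) g n ∧
      g (n - 1) = v l ∧ ∀ i < n, g i = v l ∨ Conn (Op 0 f) (p l) (g i) := by
  have hfv : 0 < f (v l) := by
    have h1 := (h.gl l hl).1
    have h2 := hom l hl
    linarith
  have hfin : (comp (Op 0 f) (p l)).Finite := by
    refine (finite_ball 0 (3 * m l)).subset fun u hu => ?_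
    have h1 := (h.bd l hl u hu).2
    change nrm (u - 0) ≤ 3 * m l
    rw [sub_zero]
    exact h1.le
  obtain ⟨a, n, a0, an, ha, hac⟩ := tpath hfin hy (Conn.refl hy.left)
  obtain ⟨b, b0, b1, b2, hb⟩ := two_path hf (h.vp l hl) (h.vz l hl)
    ((h.p0 l hl).trans_lt hfv) ((h.z0 l hl).trans_lt hfv) (h.low l hl) (h.sep l hl)
  have hz : ¬ Conn (Op 0 f) (p l) (z l) := fun h1 =>
    h.sep l hl (h1.mono fun u (hu : f u ≤ 0) => hu.trans_lt hfv)
  obtain ⟨g, hg, hgA, hgB⟩ := pa_app ha hb (an.trans b0.symm) (fun i hi j hj => by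
    have hj' : j = 0 ∨ j = 1 ∨ j = 2 := by omega
    rcases hj' with rfl | rfl | rfl
    · intro h1
      rw [b0, ← an] at h1
      have := ha.inj i n hi.le le_rfl h1
      omega
    · intro h1
      have h2 : f (a i) ≤ 0 := (hac i hi.le).right
      rw [h1, b1] at h2
      exact absurd h2 (not_le.2 hfv)
    · intro h1
      have h2 : Conn (Op 0 f) (p l) (a i) := hac i hi.le
      rw [h1, b2] at h2
      exact hz h2)
  refine ⟨g, n + 2, ?_, ?_, by omega, hg, ?_, fun i hi => ?_⟩
  · rw [hgA 0 (Nat.zero_le _), a0]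
  · rw [hgB 2 le_rfl, b2]
  · rw [show n + 2 - 1 = n + 1 by omega, hgB 1 (by omega), b1]
  · rcases Nat.lt_or_ge n i with h1 | h1
    · left
      rw [show i = n + 1 by omega, hgB 1 (by omega), b1]
    · right
      rw [hgA i h1]
      exact hac i h1

theorem chain_path {f : Lab} {rho lo : ℤ} {x t : V} {m : ℕ → ℤ} {om : ℕ → ℝ} {k : ℕ}
    {v p z : ℕ → V} (hf : Function.Injective f) (h : Chain f rho lo x t m om k v p z) (hk : 0 < k)
    (hm : ∀ l < k, 64 ≤ m l) (hmm : ∀ l, l + 1 < k → 64 * m (l + 1) ≤ m l)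
    (hom : ∀ l < k, 0 < om l) :
    ∃ (g : ℕ → V) (n : ℕ), g 0 = x ∧ g n = z 0 ∧ 0 < n ∧ IsPa (MT univ ∅ f) g n ∧
      g (n - 1) = v 0 ∧
      ∀ i < n, ∃ l < k, g i = v l ∨ Conn (Op 0 f) (p l) (g i) := by
  have hmi : ∀ d l, l + d + 1 < k → 64 * m (l + d + 1) ≤ m l := by
    intro d
    induction d with
    | zero => exact hmm
    | succ d ih =>
      intro l hl
      have h1 := ih l (by omega)
      have h2 := hmm (l + d + 1) (by omega)
      have h3 := hm (l + d + 1 + 1) (by omega)
      have h4 : l + (d + 1) + 1 = l + d + 1 + 1 := by omega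
      rw [h4]
      omega
  have hmj : ∀ l j, l < j → j < k → 64 * m j ≤ m l := by
    intro l j h1 h2
    obtain ⟨d, rfl⟩ := Nat.exists_eq_add_of_lt h1
    exact hmi d l h2
  have hfv : ∀ l < k, 0 < f (v l) := by
    intro l hl
    have h1 := (h.gl l hl).1
    have h2 := hom l hl
    linarith
  have key : ∀ j l, l + j + 1 = k → ∃ (g : ℕ → V) (n : ℕ), g 0 = x ∧ g n = z l ∧ 0 < n ∧
      IsPa (MT univ ∅ f) g n ∧ g (n - 1) = v l ∧
      ∀ i < n, ∃ l' < k, l ≤ l' ∧ (g i = v l' ∨ Conn (Op 0 f) (p l') (g i)) := by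
    intro j
    induction j with
    | zero =>
      intro l hl
      have hl' : l = k - 1 := by omega
      obtain ⟨g, n, h0, h1, h2, h3, h4, h5⟩ := gate_path hf h hom (l := l) (by omega) (y := x)
        (by rw [hl']; exact h.px hk)
      exact ⟨g, n, h0, h1, h2, h3, h4, fun i hi => ⟨l, by omega, le_rfl, h5 i hi⟩⟩
    | succ j ih =>
      intro l hl
      have hlk : l < k := by omega
      obtain ⟨g, n, h0, h1, h2, h3, h4, h5⟩ := ih (l + 1) (by omega)
      obtain ⟨g', n', h0', h1', h2', h3', h4', h5'⟩ := gate_path hf h hom (l := l) hlk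
        (y := z (l + 1)) (h.pz l (by omega))
      obtain ⟨g'', hg, hgA, hgB⟩ := pa_app h3 h3' (h1.trans h0'.symm) (fun i hi j' hj' heq => by
        obtain ⟨l', hl', hll, hor⟩ := h5 i hi
        have hm1 := hmj l l' (by omega) hl'
        have hm2 := hm l' hl'
        rcases Nat.eq_or_lt_of_le hj' with hj2 | hj2
        · rw [hj2, h1'] at heq
          rcases hor with h6 | h6
          · have h7 := h.z0 l hlk
            rw [← heq, h6] at h7
            exact absurd h7 (not_le.2 (hfv l' hl'))
          · rw [heq] at h6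
            have h7 := (h.bd l' hl' _ h6).2
            have h8 := nrm_adj (h.vz l hlk) 0
            rw [sub_zero, sub_zero, abs_le] at h8
            have h9 := (h.nv l hlk).1
            omega
        · rcases h5' j' hj2 with h7 | h7 <;> rcases hor with h6 | h6
          · have h8 : v l' = v l := h6.symm.trans (heq.trans h7)
            have h9 := (h.nv l hlk).1
            have h10 := (h.nv l' hl').2
            rw [h8] at h10
            omega
          · have h8 : f (g i) ≤ 0 := h6.right
            rw [heq, h7] at h8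
            exact absurd h8 (not_le.2 (hfv l hlk))
          · have h8 : f (g' j') ≤ 0 := h7.right
            rw [← heq, h6] at h8
            exact absurd h8 (not_le.2 (hfv l' hl'))
          · rw [heq] at h6
            exact h.sp l hlk l' hl' (by omega) (h7.trans h6.symm))
      refine ⟨g'', n + n', ?_, ?_, by omega, hg, ?_, fun i hi => ?_⟩
      · rw [hgA 0 (Nat.zero_le _), h0]
      · rw [hgB n' le_rfl, h1']
      · rw [show n + n' - 1 = n + (n' - 1) by omega, hgB (n' - 1) (by omega), h4']
      · rcases Nat.lt_or_ge i n with h6 | h6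
        · obtain ⟨l', hl', hll, hor⟩ := h5 i h6
          rw [hgA i h6.le]
          exact ⟨l', hl', by omega, hor⟩
        · obtain ⟨j', rfl⟩ := Nat.exists_eq_add_of_le h6
          rw [hgB j' (by omega)]
          exact ⟨l, hlk, le_rfl, h5' j' (by omega)⟩
  obtain ⟨g, n, h0, h1, h2, h3, h4, h5⟩ := key (k - 1) 0 (by omega)
  refine ⟨g, n, h0, h1, h2, h3, h4, fun i hi => ?_⟩
  obtain ⟨l', hl', -, hor⟩ := h5 i hi
  exact ⟨l', hl', hor⟩

end Pool.Agent.MSTG
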